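import Mathlib
import Pool.Agent.H321R2.OSI.Lower

/-!
# A sharper oblivious subspace injection of dimension one with a contaminated head
-/

namespace Run7.h993.OSI

open MeasureTheory Matrix Finset Pool.Agent.H321R2.OSI

variable {N k K n m : ℕ}

/-- Exponential moment of a sum of independent signs. -/
lemma exp_moment (z : Fin n → ℝ) (c : ℝ) :
    ∑ D : Fin n → Bool, Real.exp (c * ∑ j, sg (D j) * z j) ≤
      (Fintype.card (Fin n → Bool) : ℝ) * Real.exp (c ^ 2 * (∑ j, z j ^ 2) / 2) := by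
  have h1 : ∀ D : Fin n → Bool, Real.exp (c * ∑ j, sg (D j) * z j) =
      ∏ j, Real.exp (c * (sg (D j) * z j)) := by
    intro D
    rw [← Real.exp_sum, mul_sum]
  simp only [h1]
  have h2 : ∑ D : Fin n → Bool, ∏ j, Real.exp (c * (sg (D j) * z j)) =
      ∏ j, ∑ b : Bool, Real.exp (c * (sg b * z j)) := by
    have := Finset.prod_univ_sum (fun _ : Fin n => (univ : Finset Bool))
      (fun j b => Real.exp (c * (sg b * z j)))
    rw [this, Fintype.piFinset_univ]
  rw [h2]
  have h3 : ∀ j, ∑ b : Bool, Real.exp (c * (sg b * z j)) ≤ 2 * Real.exp (c ^ 2 * z j ^ 2 / 2) := by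
    intro j
    have h4 : ∑ b : Bool, Real.exp (c * (sg b * z j)) = 2 * Real.cosh (c * z j) := by
      rw [Fintype.sum_bool, Real.cosh_eq]
      simp only [sg, if_true, Bool.false_eq_true, if_false]
      ring_nf
    rw [h4]
    have h5 := Real.cosh_le_exp_half_sq (c * z j)
    have h6 : (c * z j) ^ 2 / 2 = c ^ 2 * z j ^ 2 / 2 := by ring
    rw [h6] at h5
    linarith
  calc ∏ j, ∑ b : Bool, Real.exp (c * (sg b * z j))
      ≤ ∏ j : Fin n, 2 * Real.exp (c ^ 2 * z j ^ 2 / 2) :=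
        prod_le_prod (fun j _ => sum_nonneg fun b _ => (Real.exp_pos _).le) fun j _ => h3 j
    _ = _ := by
        rw [prod_mul_distrib, prod_const, card_univ, Fintype.card_fin, ← Real.exp_sum]
        congr 1
        · simp
        · congr 1
          rw [mul_sum, sum_div]

lemma exp_half_aux (b c T : ℝ) (h : b * Real.exp T ≤ 2 * (c * Real.exp (T / 2))) :
    b ≤ 2 * Real.exp (-T / 2) * c := by
  have h3 : Real.exp T = Real.exp (T / 2) * Real.exp (T / 2) := by
    rw [← Real.exp_add]; congr 1; ring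
  have h4 : Real.exp (-T / 2) * Real.exp (T / 2) = 1 := by
    rw [← Real.exp_add]
    have : -T / 2 + T / 2 = 0 := by ring
    rw [this, Real.exp_zero]
  obtain ⟨u, hu⟩ : ∃ u, u = Real.exp (T / 2) := ⟨_, rfl⟩
  obtain ⟨v, hv⟩ : ∃ v, v = Real.exp (-T / 2) := ⟨_, rfl⟩
  have hu0 : 0 < u := by rw [hu]; exact Real.exp_pos _
  have hv0 : 0 < v := by rw [hv]; exact Real.exp_pos _
  rw [h3, ← hu] at h
  rw [← hu, ← hv] at h4
  rw [← hv]
  have h6 : b * u ≤ 2 * c := by
    have h7 : (b * u) * u ≤ (2 * c) * u := by linarith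
    exact le_of_mul_le_mul_right h7 hu0
  calc b = v * (b * u) := by
        have : v * (b * u) = b * (v * u) := by ring
        rw [this, h4, mul_one]
    _ ≤ v * (2 * c) := mul_le_mul_of_nonneg_left h6 hv0.le
    _ = 2 * v * c := by ring

/-- Markov's inequality for counting. -/
lemma count_le_of_sum {α : Type*} [Fintype α] (B : Finset α) (F : α → ℝ) (hF : ∀ D, 0 ≤ F D)
    (a M : ℝ) (h1 : ∀ D ∈ B, a ≤ F D) (hM : ∑ D, F D ≤ M) : (B.card : ℝ) * a ≤ M := by
  calc (B.card : ℝ) * a = ∑ _D ∈ B, a := by rw [sum_const, nsmul_eq_mul]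
    _ ≤ ∑ D ∈ B, F D := sum_le_sum h1
    _ ≤ ∑ D, F D := sum_le_sum_of_subset_of_nonneg (subset_univ _) fun D _ _ => hF D
    _ ≤ M := hM

/-- Hoeffding's inequality for signs. -/
lemma hoeffding_count (z : Fin n → ℝ) (hz : 0 < ∑ j, z j ^ 2) (T : ℝ) (hT : 0 ≤ T) :
    ((univ.filter fun D : Fin n → Bool => T * (∑ j, z j ^ 2) < (∑ j, sg (D j) * z j) ^ 2).card : ℝ)
      ≤ 2 * Real.exp (-T / 2) * (Fintype.card (Fin n → Bool) : ℝ) := by
  classical
  obtain ⟨q, hq⟩ : ∃ q, q = ∑ j, z j ^ 2 := ⟨_, rfl⟩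
  rw [← hq] at hz ⊢
  obtain ⟨c, hc⟩ : ∃ c, c = Real.sqrt (T / q) := ⟨_, rfl⟩
  have hc0 : 0 ≤ c := by rw [hc]; exact Real.sqrt_nonneg _
  have hc2 : c ^ 2 * q = T := by
    rw [hc, Real.sq_sqrt (div_nonneg hT hz.le)]
    field_simp
  have e1 := exp_moment z c
  have e2 := exp_moment z (-c)
  rw [← hq] at e1 e2
  have e3 : (-c) ^ 2 * q / 2 = T / 2 := by rw [neg_sq, hc2]
  rw [hc2] at e1
  rw [e3] at e2
  obtain ⟨X, hX⟩ : ∃ X : (Fin n → Bool) → ℝ, X = fun D => ∑ j, sg (D j) * z j := ⟨_, rfl⟩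
  have hXD : ∀ D : Fin n → Bool, ∑ j, sg (D j) * z j = X D := fun D => by rw [hX]
  simp only [hXD] at e1 e2 ⊢
  clear hXD hX hq
  have h1 : ∀ D ∈ univ.filter (fun D : Fin n → Bool => T * q < X D ^ 2),
      Real.exp T ≤ Real.exp (c * X D) + Real.exp (-c * X D) := by
    intro D hD
    have hD' : T * q < (X D) ^ 2 := (mem_filter.1 hD).2
    have h2 : T ^ 2 ≤ (c * X D) ^ 2 := by
      have : T * q * c ^ 2 ≤ X D ^ 2 * c ^ 2 := mul_le_mul_of_nonneg_right hD'.le (sq_nonneg c)
      have h3 : T * q * c ^ 2 = T ^ 2 := by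
        calc T * q * c ^ 2 = T * (c ^ 2 * q) := by ring
          _ = T ^ 2 := by rw [hc2]; ring
      rw [h3] at this
      calc T ^ 2 ≤ X D ^ 2 * c ^ 2 := this
        _ = (c * X D) ^ 2 := by ring
    have h4 : T ≤ |c * X D| := by
      rw [← abs_of_nonneg hT]
      exact sq_le_sq.1 h2
    rcases le_total 0 (c * X D) with h | h
    · rw [abs_of_nonneg h] at h4
      have h5 := Real.exp_le_exp.2 h4
      have h6 := Real.exp_pos (-c * X D)
      linarith
    · rw [abs_of_nonpos h] at h4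
      have h5 : T ≤ -c * X D := by linarith
      have h6 := Real.exp_le_exp.2 h5
      have h7 := Real.exp_pos (c * X D)
      linarith
  have hM : ∑ D, (Real.exp (c * X D) + Real.exp (-c * X D)) ≤
      2 * ((Fintype.card (Fin n → Bool) : ℝ) * Real.exp (T / 2)) := by
    rw [sum_add_distrib]
    have e4 := add_le_add e1 e2
    rw [← two_mul] at e4
    exact e4
  exact exp_half_aux _ _ T (count_le_of_sum _ _
    (fun D => add_nonneg (Real.exp_pos _).le (Real.exp_pos _).le) _ _ h1 hM)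

/-- Expansion of the squared norm of a signed sum. -/
lemma quad_expand' (b : Fin n → Fin m → ℝ) (D : Fin n → Bool) (x : Fin n → ℝ) :
    ∑ l, (∑ j, (sg (D j) * b j l) * x j) ^ 2 =
      ∑ i, x i ^ 2 * gram b i i + ∑ i, ∑ j, offc b x i j * (sg (D i) * sg (D j)) := by
  have e1 : ∑ l, (∑ j, (sg (D j) * b j l) * x j) ^ 2 =
      ∑ i, ∑ j, (x i * x j * gram b i j) * (sg (D i) * sg (D j)) := by
    have : ∀ l, (∑ j, (sg (D j) * b j l) * x j) ^ 2 =
        ∑ i, ∑ j, (x i * x j * (b i l * b j l)) * (sg (D i) * sg (D j)) := by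
      intro l
      rw [sq, Finset.sum_mul_sum]
      refine sum_congr rfl fun i _ => sum_congr rfl fun j _ => ?_
      ring
    simp only [this]
    rw [sum_comm]
    refine sum_congr rfl fun i _ => ?_
    rw [sum_comm]
    refine sum_congr rfl fun j _ => ?_
    rw [← sum_mul, ← mul_sum]
    rfl
  have e2 : ∀ i j, (x i * x j * gram b i j) * (sg (D i) * sg (D j)) =
      (if i = j then x i ^ 2 * gram b i i else 0) + offc b x i j * (sg (D i) * sg (D j)) := by
    intro i j
    unfold offc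
    by_cases h : i = j
    · subst h
      rw [if_pos rfl, if_pos rfl, sg_mul_self]
      ring
    · rw [if_neg h, if_neg h]
      ring
  rw [e1]
  simp only [e2, sum_add_distrib, sum_ite_eq, mem_univ, if_true]

/-- Chebyshev count for a low-coherence system. -/
lemma cheb_count (b : Fin n → Fin m → ℝ) (μ : ℝ) (hμ : ∀ j l, j ≠ l → |gram b j l| ≤ μ)
    (x : Fin n → ℝ) (η : ℝ) (hη : 0 < η) :
    ((univ.filter fun D : Fin n → Bool =>
      ∑ i, ∑ j, offc b x i j * (sg (D i) * sg (D j)) < -(η * sqn x)).card : ℝ) * η ^ 2 ≤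
      2 * μ ^ 2 * (Fintype.card (Fin n → Bool) : ℝ) := by
  classical
  set Q : (Fin n → Bool) → ℝ := fun D => ∑ i, ∑ j, offc b x i j * (sg (D i) * sg (D j)) with hQ
  set B := univ.filter fun D : Fin n → Bool => Q D < -(η * sqn x) with hB
  have hsx : 0 ≤ sqn x := sum_nonneg fun _ _ => sq_nonneg _
  rcases hsx.eq_or_lt with h0 | hpos
  · have hx : ∀ i, x i = 0 := fun i => by
      have := (sum_eq_zero_iff_of_nonneg (fun i _ => sq_nonneg (x i))).1 h0.symm i (mem_univ i)
      exact (pow_eq_zero_iff two_ne_zero).1 this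
    have hB0 : B = ∅ := by
      rw [hB]
      apply filter_false_of_mem
      intro D _
      have : Q D = 0 := by
        rw [hQ]
        refine sum_eq_zero fun i _ => sum_eq_zero fun j _ => ?_
        unfold offc
        by_cases h : i = j
        · simp [h]
        · rw [if_neg h, hx i]; ring
      rw [this, ← h0]
      simp
    rw [hB0]
    simp
    positivity
  · have hmem : ∀ D ∈ B, (η * sqn x) ^ 2 ≤ Q D ^ 2 := by
      intro D hD
      have h1 : Q D < -(η * sqn x) := (mem_filter.1 hD).2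
      have h5 : 0 ≤ η * sqn x := by positivity
      calc (η * sqn x) ^ 2 ≤ (-Q D) ^ 2 := pow_le_pow_left₀ h5 (by linarith) 2
        _ = Q D ^ 2 := by ring
    have hsum : (B.card : ℝ) * (η * sqn x) ^ 2 ≤ ∑ D, Q D ^ 2 := by
      calc (B.card : ℝ) * (η * sqn x) ^ 2 = ∑ _D ∈ B, (η * sqn x) ^ 2 := by
            rw [sum_const, nsmul_eq_mul]
        _ ≤ ∑ D ∈ B, Q D ^ 2 := sum_le_sum hmem
        _ ≤ ∑ D, Q D ^ 2 := sum_le_sum_of_subset_of_nonneg (subset_univ _)
            (fun _ _ _ => sq_nonneg _)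
    have h2m : ∑ D, Q D ^ 2 ≤ 2 * (Fintype.card (Fin n → Bool) : ℝ) * (μ ^ 2 * sqn x ^ 2) := by
      rw [hQ]
      simp only
      rw [second_moment (offc b x) (fun i => by simp [offc]) (fun i j => by
        unfold offc
        by_cases h : i = j
        · rw [if_pos h, if_pos h.symm]
        · rw [if_neg h, if_neg (fun h' => h h'.symm), gram_symm]
          ring)]
      exact mul_le_mul_of_nonneg_left (sum_offc_sq b μ hμ x) (by positivity)
    have h6 := hsum.trans h2m
    have h7 : ((B.card : ℝ) * η ^ 2) * sqn x ^ 2 ≤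
        (2 * μ ^ 2 * (Fintype.card (Fin n → Bool) : ℝ)) * sqn x ^ 2 := by
      calc ((B.card : ℝ) * η ^ 2) * sqn x ^ 2 = (B.card : ℝ) * (η * sqn x) ^ 2 := by ring
        _ ≤ 2 * (Fintype.card (Fin n → Bool) : ℝ) * (μ ^ 2 * sqn x ^ 2) := h6
        _ = _ := by ring
    exact le_of_mul_le_mul_right h7 (pow_pos hpos 2)

end Run7.h993.OSI
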