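import Mathlib
import Pool.Agent.Run7.h993.OSI.LowerOSI

/-!
# Injectivity of the contaminated sketch
-/

namespace Run7.h993.OSI

open MeasureTheory Matrix Finset Pool.Agent.H321R2.OSI

variable {N k K n m : ℕ}

/-- the vector `x` with its first coordinate replaced by zero -/
def tl (x : Fin (N + 1) → ℝ) : Fin (N + 1) → ℝ := Fin.cons 0 (fun j => x j.succ)

/-- the system `w` with a zero vector put in front -/
def pad (w : Fin N → Fin k → ℝ) : Fin (N + 1) → Fin k → ℝ := Fin.cons (fun _ => 0) w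

lemma tl_zero (x : Fin (N + 1) → ℝ) : tl x 0 = 0 := rfl
lemma tl_succ (x : Fin (N + 1) → ℝ) (j : Fin N) : tl x j.succ = x j.succ := rfl
lemma pad_zero (w : Fin N → Fin k → ℝ) (l : Fin k) : pad w 0 l = 0 := rfl
lemma pad_succ (w : Fin N → Fin k → ℝ) (j : Fin N) (l : Fin k) : pad w j.succ l = w j l := rfl

lemma sqn_split (x : Fin (N + 1) → ℝ) : sqn x = x 0 ^ 2 + sqn (tl x) := by
  unfold sqn
  rw [Fin.sum_univ_succ, Fin.sum_univ_succ (f := fun i => tl x i ^ 2)]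
  simp only [tl_zero, tl_succ]
  ring

lemma gram_pad_zero (w : Fin N → Fin k → ℝ) (l : Fin (N + 1)) : gram (pad w) 0 l = 0 := by
  simp [Pool.Agent.H321R2.OSI.gram, pad_zero]

lemma gram_pad_succ (w : Fin N → Fin k → ℝ) (j l : Fin N) :
    gram (pad w) j.succ l.succ = ∑ i, w j i * w l i := by
  simp [Pool.Agent.H321R2.OSI.gram, pad_succ]

lemma gram_pad_le (w : Fin N → Fin k → ℝ) (μ : ℝ) (hμ0 : 0 ≤ μ)
    (hμ : ∀ j l, j ≠ l → |∑ i, w j i * w l i| ≤ μ) (j l : Fin (N + 1)) (hjl : j ≠ l) :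
    |gram (pad w) j l| ≤ μ := by
  revert hjl
  refine Fin.cases ?_ (fun j => ?_) j
  · intro _
    rw [gram_pad_zero, abs_zero]
    exact hμ0
  · refine Fin.cases ?_ (fun l => ?_) l
    · intro _
      rw [gram_symm, gram_pad_zero, abs_zero]
      exact hμ0
    · intro h
      rw [gram_pad_succ]
      exact hμ j l fun h' => h (by rw [h'])

lemma brow_expand (s : ℝ) (hs : s ^ 2 ≤ 1) (w : Fin N → Fin k → ℝ) (D : Fin (N + 1) → Bool)
    (x : Fin (N + 1) → ℝ) :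
    ∑ l, (∑ j, (sg (D j) * brow s w j l) * x j) ^ 2 =
      (sg (D 0) * x 0 + s * ∑ j, sg (D j) * tl x j) ^ 2 +
        (1 - s ^ 2) * ∑ l, (∑ j, (sg (D j) * pad w j l) * tl x j) ^ 2 := by
  rw [Fin.sum_univ_succ]
  congr 1
  · congr 1
    rw [Fin.sum_univ_succ, Fin.sum_univ_succ (f := fun j => sg (D j) * tl x j)]
    simp only [brow, Fin.cons_zero, Fin.cons_succ, tl_zero, tl_succ, mul_one, mul_zero, zero_add]
    rw [mul_sum]
    congr 1
    exact sum_congr rfl fun j _ => by ring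
  · rw [mul_sum]
    refine sum_congr rfl fun l _ => ?_
    rw [Fin.sum_univ_succ, Fin.sum_univ_succ (f := fun j => (sg (D j) * pad w j l) * tl x j)]
    simp only [brow, Fin.cons_zero, Fin.cons_succ, tl_zero, tl_succ, mul_zero, zero_mul, zero_add,
      pad_succ]
    have h1 : ∑ j : Fin N, sg (D j.succ) * (Real.sqrt (1 - s ^ 2) * w j l) * x j.succ =
        Real.sqrt (1 - s ^ 2) * ∑ j : Fin N, sg (D j.succ) * w j l * x j.succ := by
      rw [mul_sum]
      exact sum_congr rfl fun j _ => by ring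
    rw [h1, mul_pow, Real.sq_sqrt (by linarith)]

lemma pad_expand (w : Fin N → Fin k → ℝ) (hw : ∀ j, ∑ i, w j i * w j i = 1)
    (D : Fin (N + 1) → Bool) (x : Fin (N + 1) → ℝ) :
    ∑ l, (∑ j, (sg (D j) * pad w j l) * tl x j) ^ 2 =
      sqn (tl x) + ∑ i, ∑ j, offc (pad w) (tl x) i j * (sg (D i) * sg (D j)) := by
  rw [quad_expand']
  congr 1
  unfold sqn
  refine sum_congr rfl fun i _ => ?_
  refine Fin.cases ?_ (fun j => ?_) i
  · rw [gram_pad_zero, tl_zero]; ring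
  · rw [gram_pad_succ, hw, mul_one]

/-- The deterministic inequality behind the injectivity. -/
lemma good_alg (c x0 s X q H κ T : ℝ) (hc : c * c = 1) (hκ : 0 < κ) (hκ1 : κ ≤ 1) (hq : 0 ≤ q)
    (hX : X ^ 2 ≤ T * q) (hsT : s ^ 2 * T = κ ^ 2 / 4) (hs : s ^ 2 ≤ κ / 4)
    (hH : (1 - κ / 4) * q ≤ H) :
    (1 - κ) * (x0 ^ 2 + q) ≤ (c * x0 + s * X) ^ 2 + (1 - s ^ 2) * H := by
  have h1 : (s * X) ^ 2 ≤ κ ^ 2 / 4 * q := by
    calc (s * X) ^ 2 = s ^ 2 * X ^ 2 := by ring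
      _ ≤ s ^ 2 * (T * q) := mul_le_mul_of_nonneg_left hX (sq_nonneg s)
      _ = s ^ 2 * T * q := by ring
      _ = κ ^ 2 / 4 * q := by rw [hsT]
  have h2 : (1 - s ^ 2) * ((1 - κ / 4) * q) ≤ (1 - s ^ 2) * H :=
    mul_le_mul_of_nonneg_left hH (by linarith)
  have h3 : (1 - κ / 2) * q ≤ (1 - s ^ 2) * ((1 - κ / 4) * q) := by
    have h4 : (1 - κ / 2) ≤ (1 - s ^ 2) * (1 - κ / 4) := by
      have : 0 ≤ s ^ 2 * (κ / 4) := by positivity
      nlinarith
    calc (1 - κ / 2) * q ≤ ((1 - s ^ 2) * (1 - κ / 4)) * q := mul_le_mul_of_nonneg_right h4 hq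
      _ = _ := by ring
  have h5 : x0 ^ 2 - κ / 2 * x0 ^ 2 - κ / 2 * q ≤ (c * x0 + s * X) ^ 2 := by
    obtain ⟨Y, hY⟩ : ∃ Y, Y = s * X := ⟨_, rfl⟩
    rw [← hY] at h1 ⊢
    have h6 : (c * x0 + Y) ^ 2 = (c * c) * x0 ^ 2 + 2 * (c * x0) * Y + Y ^ 2 := by ring
    rw [h6, hc, one_mul]
    -- κ·(κ/2 x0² + κ/2 q + 2 c x0 Y) ≥ κ²/2 x0² + 2 Y² + 2 κ c x0 Y ≥ 0
    have h7 : 0 ≤ κ * (κ / 2 * x0 ^ 2 + κ / 2 * q + 2 * (c * x0) * Y) := by
      have h8 : κ * (κ / 2 * x0 ^ 2 + κ / 2 * q + 2 * (c * x0) * Y) =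
          1 / 2 * (κ * (c * x0) + 2 * Y) ^ 2 + κ ^ 2 / 2 * x0 ^ 2 * (1 - c * c) +
            2 * (κ ^ 2 / 4 * q - Y ^ 2) := by ring
      rw [h8, hc]
      have h9 : 0 ≤ 1 / 2 * (κ * (c * x0) + 2 * Y) ^ 2 := by positivity
      linarith
    have h10 : 0 ≤ κ / 2 * x0 ^ 2 + κ / 2 * q + 2 * (c * x0) * Y := by
      by_contra hcon
      push Not at hcon
      have := mul_neg_of_pos_of_neg hκ hcon
      linarith
    have h11 := sq_nonneg Y
    linarith
  have h12 : 0 ≤ κ * x0 ^ 2 := by positivity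
  nlinarith

/-- few sign patterns are bad -/
lemma card_bad' (w : Fin N → Fin k → ℝ) (hw : ∀ j, ∑ i, w j i * w j i = 1) (μ : ℝ) (hμ0 : 0 ≤ μ)
    (hμ : ∀ j l, j ≠ l → |∑ i, w j i * w l i| ≤ μ) (s κ T δ : ℝ) (hκ : 0 < κ) (hκ1 : κ ≤ 1)
    (hT : 0 ≤ T) (hsT : s ^ 2 * T = κ ^ 2 / 4) (hs : s ^ 2 ≤ κ / 4)
    (hTδ : 2 * Real.exp (-T / 2) ≤ δ / 4) (hμδ : 2 * μ ^ 2 ≤ δ / 4 * (κ / 4) ^ 2) (hδ : 0 < δ)
    (x : Fin (N + 1) → ℝ) :
    ((univ.filter fun D : Fin (N + 1) → Bool =>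
      ∑ l, (∑ j, (sg (D j) * brow s w j l) * x j) ^ 2 < (1 - κ) * sqn x).card : ℝ) ≤
      δ / 2 * (Fintype.card (Fin (N + 1) → Bool) : ℝ) := by
  classical
  obtain ⟨M, hM⟩ : ∃ M, M = (Fintype.card (Fin (N + 1) → Bool) : ℝ) := ⟨_, rfl⟩
  have hM0 : 0 ≤ M := by rw [hM]; positivity
  set BX := univ.filter fun D : Fin (N + 1) → Bool =>
    T * (∑ j, tl x j ^ 2) < (∑ j, sg (D j) * tl x j) ^ 2 with hBX
  set BH := univ.filter fun D : Fin (N + 1) → Bool =>
    ∑ i, ∑ j, offc (pad w) (tl x) i j * (sg (D i) * sg (D j)) < -(κ / 4 * sqn (tl x)) with hBH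
  have hq : 0 ≤ sqn (tl x) := sum_nonneg fun _ _ => sq_nonneg _
  have hcX : (BX.card : ℝ) ≤ δ / 4 * M := by
    rcases hq.eq_or_lt with h0 | hpos
    · have hx : ∀ i, tl x i = 0 := fun i => by
        have := (sum_eq_zero_iff_of_nonneg (fun i _ => sq_nonneg (tl x i))).1 h0.symm i (mem_univ i)
        exact (pow_eq_zero_iff two_ne_zero).1 this
      have hB0 : BX = ∅ := by
        rw [hBX]
        apply filter_false_of_mem
        intro D _
        simp [hx]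
      rw [hB0, card_empty, Nat.cast_zero]
      positivity
    · have h1 := hoeffding_count (tl x) hpos T hT
      rw [← hM] at h1
      exact h1.trans (mul_le_mul_of_nonneg_right hTδ hM0)
  have hcH : (BH.card : ℝ) ≤ δ / 4 * M := by
    have h1 := cheb_count (pad w) μ (gram_pad_le w μ hμ0 hμ) (tl x) (κ / 4) (by positivity)
    rw [← hM] at h1
    have h2 : (BH.card : ℝ) * (κ / 4) ^ 2 ≤ (δ / 4 * M) * (κ / 4) ^ 2 := by
      calc (BH.card : ℝ) * (κ / 4) ^ 2 ≤ 2 * μ ^ 2 * M := h1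
        _ ≤ (δ / 4 * (κ / 4) ^ 2) * M := mul_le_mul_of_nonneg_right hμδ hM0
        _ = _ := by ring
    exact le_of_mul_le_mul_right h2 (by positivity)
  have hsub : (univ.filter fun D : Fin (N + 1) → Bool =>
      ∑ l, (∑ j, (sg (D j) * brow s w j l) * x j) ^ 2 < (1 - κ) * sqn x) ⊆ BX ∪ BH := by
    intro D hD
    have hD' := (mem_filter.1 hD).2
    by_contra hcon
    rw [mem_union] at hcon
    push Not at hcon
    have hX : (∑ j, sg (D j) * tl x j) ^ 2 ≤ T * sqn (tl x) := by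
      have := hcon.1
      rw [hBX, mem_filter] at this
      push Not at this
      exact this (mem_univ _)
    have hH : -(κ / 4 * sqn (tl x)) ≤
        ∑ i, ∑ j, offc (pad w) (tl x) i j * (sg (D i) * sg (D j)) := by
      have := hcon.2
      rw [hBH, mem_filter] at this
      push Not at this
      exact this (mem_univ _)
    have hH' : (1 - κ / 4) * sqn (tl x) ≤ ∑ l, (∑ j, (sg (D j) * pad w j l) * tl x j) ^ 2 := by
      rw [pad_expand w hw D x]
      linarith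
    have h2 : s ^ 2 ≤ 1 := by linarith
    rw [brow_expand s h2 w D x, sqn_split x] at hD'
    have h3 := good_alg (sg (D 0)) (x 0) s _ (sqn (tl x)) _ κ T (sg_mul_self _) hκ hκ1 hq hX hsT hs
      hH'
    linarith
  have h4 := card_le_card hsub
  have h5 := h4.trans (card_union_le BX BH)
  have h6 : ((univ.filter fun D : Fin (N + 1) → Bool =>
      ∑ l, (∑ j, (sg (D j) * brow s w j l) * x j) ^ 2 < (1 - κ) * sqn x).card : ℝ) ≤
      (BX.card : ℝ) + (BH.card : ℝ) := by exact_mod_cast h5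
  rw [← hM]
  linarith

lemma sqn_Smat' (hK : 2 ≤ K) (b : Fin n → Fin m → ℝ) (w : Smp K n)
    (h : (w.1 : ℕ) ≠ 0) (x : Fin n → ℝ) :
    sqn ((Smat K b w)ᵀ *ᵥ x) = ((K : ℝ) / ((K : ℝ) - 1)) *
      ∑ l, (∑ j, (sg (w.2 j) * b j l) * x j) ^ 2 := by
  have hK' : (0 : ℝ) < (K : ℝ) - 1 := by
    have : (2 : ℝ) ≤ K := by exact_mod_cast hK
    linarith
  have hq : 0 ≤ (K : ℝ) / ((K : ℝ) - 1) := by positivity
  rw [mul_sum]
  unfold sqn
  refine sum_congr rfl fun l _ => ?_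
  have : ((Smat K b w)ᵀ *ᵥ x) l = Real.sqrt ((K : ℝ) / ((K : ℝ) - 1)) *
      ∑ j, (sg (w.2 j) * b j l) * x j := by
    rw [Matrix.mulVec, dotProduct, mul_sum]
    refine sum_congr rfl fun j _ => ?_
    simp only [Smat, Matrix.transpose_apply, Matrix.of_apply, if_neg h]
    ring
  rw [this, mul_pow, Real.sq_sqrt hq]

/-- The contaminated sketch is an OSI of dimension one. -/
lemma isOSI_brow [NeZero K] (hK : 2 ≤ K) (w : Fin N → Fin k → ℝ)
    (hw : ∀ j, ∑ i, w j i * w j i = 1) (μ : ℝ) (hμ0 : 0 ≤ μ)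
    (hμ : ∀ j l, j ≠ l → |∑ i, w j i * w l i| ≤ μ) (s κ T ε δ : ℝ) (hκ : 0 < κ) (hκ1 : κ ≤ 1)
    (hT : 0 ≤ T) (hsT : s ^ 2 * T = κ ^ 2 / 4) (hs : s ^ 2 ≤ κ / 4)
    (hTδ : 2 * Real.exp (-T / 2) ≤ δ / 4) (hμδ : 2 * μ ^ 2 ≤ δ / 4 * (κ / 4) ^ 2) (hδ : 0 < δ)
    (hδK : 1 ≤ δ / 2 * K) (hκε : 1 - κ = (1 - ε) * (((K : ℝ) - 1) / K)) :
    IsOSI (unif (Smp K (N + 1))) (Smat K (brow s w)) 1 (1 - ε) δ where
  measurable i j := measurable_of_finite _
  integrable x := Integrable.of_finite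
  isotropy x := by
    have hb : ∀ j, gram (brow s w) j j = 1 := by
      have hs1 : s ^ 2 ≤ 1 := by linarith
      intro j
      refine Fin.cases ?_ (fun j => ?_) j
      · exact gram_brow_zero s w
      · rw [gram_brow_succ s hs1, hw]; ring
    rw [unif_integral, sum_Smp_isotropy hK _ hb x, mul_div_assoc, mul_comm, div_mul_cancel₀]
    have : (0 : ℝ) < Fintype.card (Smp K (N + 1)) := by exact_mod_cast Fintype.card_pos
    exact this.ne'
  injectivity V hV := by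
    classical
    obtain ⟨v, hv0, hv⟩ := finrank_eq_one_iff'.1 hV
    set x : Fin (N + 1) → ℝ := (v : Fin (N + 1) → ℝ) with hx
    set BD := univ.filter fun D : Fin (N + 1) → Bool =>
      ∑ l, (∑ j, (sg (D j) * brow s w j l) * x j) ^ 2 < (1 - κ) * sqn x with hBD
    set bad : Finset (Smp K (N + 1)) :=
      (({(0 : Fin K)} : Finset (Fin K)) ×ˢ (univ : Finset (Fin (N + 1) → Bool)))
      ∪ ((univ : Finset (Fin K)) ×ˢ BD) with hbad
    have hK2 : (2 : ℝ) ≤ K := by exact_mod_cast hK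
    have hKpos : (0 : ℝ) < K := by linarith
    have hK' : (0 : ℝ) < (K : ℝ) - 1 := by linarith
    refine unif_real_ge _ _ bad ?_ δ ?_
    · intro ω hω
      rw [hbad, mem_union, mem_product, mem_product] at hω
      push Not at hω
      have h1 : (ω.1 : ℕ) ≠ 0 := by
        intro h
        apply hω.1
        · rw [mem_singleton]
          exact Fin.ext (by simpa using h)
        · exact mem_univ _
      have h2 : ω.2 ∉ BD := hω.2 (mem_univ _)
      have h3 : (1 - ε) * sqn x ≤ sqn ((Smat K (brow s w) ω)ᵀ *ᵥ x) := by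
        rw [sqn_Smat' hK (brow s w) ω h1 x]
        rw [hBD, mem_filter] at h2
        push Not at h2
        have h4 := h2 (mem_univ _)
        have h5 : (K : ℝ) / ((K : ℝ) - 1) * ((1 - κ) * sqn x) = (1 - ε) * sqn x := by
          rw [hκε]
          field_simp
        rw [← h5]
        exact mul_le_mul_of_nonneg_left h4 (by positivity)
      rw [Set.mem_ofPred_eq]
      intro y hy
      obtain ⟨c, hc⟩ := hv ⟨y, hy⟩
      have hyc : y = c • x := by
        have := congrArg Subtype.val hc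
        simpa using this.symm
      rw [hyc, Matrix.mulVec_smul, sqn_smul, sqn_smul]
      have hc2 : 0 ≤ c ^ 2 := sq_nonneg c
      calc (1 - ε) * (c ^ 2 * sqn x) = c ^ 2 * ((1 - ε) * sqn x) := by ring
        _ ≤ _ := mul_le_mul_of_nonneg_left h3 hc2
    · have hc1 : (bad.card : ℝ) ≤ (Fintype.card (Fin (N + 1) → Bool) : ℝ) + K * (BD.card : ℝ) := by
        have : bad.card ≤ Fintype.card (Fin (N + 1) → Bool) + K * BD.card := by
          refine (card_union_le _ _).trans ?_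
          rw [card_product, card_product]
          simp
        exact_mod_cast this
      have hc2 := card_bad' w hw μ hμ0 hμ s κ T δ hκ hκ1 hT hsT hs hTδ hμδ hδ x
      rw [card_Smp]
      obtain ⟨M, hM⟩ : ∃ M, M = (Fintype.card (Fin (N + 1) → Bool) : ℝ) := ⟨_, rfl⟩
      have hM0 : 0 ≤ M := by rw [hM]; positivity
      rw [← hM] at hc1 hc2 ⊢
      have h6 : (K : ℝ) * (BD.card : ℝ) ≤ K * (δ / 2 * M) := mul_le_mul_of_nonneg_left hc2 hKpos.le
      have h7 : M ≤ δ / 2 * K * M := by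
        calc M = 1 * M := (one_mul M).symm
          _ ≤ δ / 2 * K * M := mul_le_mul_of_nonneg_right hδK hM0
      calc (bad.card : ℝ) ≤ M + K * (BD.card : ℝ) := hc1
        _ ≤ δ / 2 * K * M + K * (δ / 2 * M) := add_le_add h7 h6
        _ = _ := by ring

end Run7.h993.OSI
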