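import Mathlib
import Pool.Agent.Run7.h993.OSI.LowerInj

/-!
# The lower bound for the relative error
-/

namespace Run7.h993.OSI

open MeasureTheory Matrix Finset Pool.Agent.H321R2.OSI

lemma bestErr_nonneg' {n d : ℕ} (A : Matrix (Fin n) (Fin d) ℝ) (r : ℕ) : 0 ≤ bestErr A r := by
  unfold bestErr
  apply Real.sInf_nonneg
  rintro e ⟨B, _, rfl⟩
  exact Real.sqrt_nonneg _

/-- the choice of the parameters -/
lemma params {ε δ : ℝ} (hε0 : 0 ≤ ε) (hε : ε ≤ 1 / 2) (hδ0 : 0 < δ) (hδ : δ ≤ 1 / 4) :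
    ∃ (K : ℕ) (s κ T : ℝ), 2 ≤ K ∧ 0 < s ∧ s ≤ 1 ∧ 0 < κ ∧ κ ≤ 1 ∧ 0 ≤ T ∧
      s ^ 2 * T = κ ^ 2 / 4 ∧ s ^ 2 ≤ κ / 4 ∧ 2 * Real.exp (-T / 2) ≤ δ / 4 ∧ 1 ≤ δ / 2 * K ∧
      1 - κ = (1 - ε) * (((K : ℝ) - 1) / K) ∧
      (ε + δ) ^ 2 / (5000 * Real.log (1 / δ)) ≤ s ^ 2 / 12 := by
  obtain ⟨K, hK⟩ : ∃ K : ℕ, K = ⌈2 / δ⌉₊ := ⟨_, rfl⟩
  have hK1 : 2 / δ ≤ K := by rw [hK]; exact Nat.le_ceil _
  have hK2 : (K : ℝ) < 2 / δ + 1 := by rw [hK]; exact Nat.ceil_lt_add_one (by positivity)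
  have hδK : 2 ≤ δ * K := by
    rw [div_le_iff₀ hδ0] at hK1
    linarith
  have hδK' : δ * K ≤ 9 / 4 := by
    have h1 : δ * K < δ * (2 / δ + 1) := mul_lt_mul_of_pos_left hK2 hδ0
    have h2 : δ * (2 / δ + 1) = 2 + δ := by field_simp
    linarith
  have hK8 : (8 : ℝ) ≤ K := by
    have h0 : (0 : ℝ) ≤ K := Nat.cast_nonneg K
    nlinarith
  have hKpos : (0 : ℝ) < K := by linarith
  obtain ⟨κ, hκ⟩ : ∃ κ : ℝ, κ = 1 - (1 - ε) * (((K : ℝ) - 1) / K) := ⟨_, rfl⟩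
  have hκ' : κ = ε + (1 - ε) / K := by
    rw [hκ]
    field_simp
    ring
  have hinvK : 4 / 9 * δ ≤ 1 / K := by
    rw [le_div_iff₀ hKpos]
    linarith
  have hκl : 2 / 9 * (ε + δ) ≤ κ := by
    rw [hκ']
    have h1 : (1 - ε) / K = (1 - ε) * (1 / K) := by ring
    rw [h1]
    have h2 : 1 / 2 * (4 / 9 * δ) ≤ (1 - ε) * (1 / K) :=
      mul_le_mul (by linarith) hinvK (by positivity) (by linarith)
    linarith
  have hκ0 : 0 < κ := by linarith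
  have hκ1 : κ ≤ 1 := by
    rw [hκ]
    have : 0 ≤ (1 - ε) * (((K : ℝ) - 1) / K) :=
      mul_nonneg (by linarith) (div_nonneg (by linarith) hKpos.le)
    linarith
  obtain ⟨L, hL⟩ : ∃ L : ℝ, L = Real.log (1 / δ) := ⟨_, rfl⟩
  have hlog8 : Real.log (8 / δ) = 3 * Real.log 2 + L := by
    have h1 : (8 : ℝ) / δ = 2 ^ 3 * (1 / δ) := by ring
    rw [h1, Real.log_mul (by norm_num) (by positivity), Real.log_pow, hL]
    norm_num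
  have hlog2 : 0 < Real.log 2 := Real.log_pos (by norm_num)
  have hL4 : 2 * Real.log 2 ≤ L := by
    have h1 : Real.log 4 = 2 * Real.log 2 := by
      rw [show (4 : ℝ) = 2 ^ 2 by norm_num, Real.log_pow]; norm_num
    rw [← h1, hL]
    apply Real.log_le_log (by norm_num)
    rw [le_div_iff₀ hδ0]
    linarith
  obtain ⟨T, hT⟩ : ∃ T : ℝ, T = 2 * Real.log (8 / δ) := ⟨_, rfl⟩
  have hlog2' : (1 : ℝ) / 2 < Real.log 2 := by
    have := Real.log_two_gt_d9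
    linarith
  have hT1 : 1 ≤ T := by rw [hT, hlog8]; linarith
  have hT5 : T ≤ 5 * L := by rw [hT, hlog8]; linarith
  have hLpos : 0 < L := by linarith
  obtain ⟨s, hs⟩ : ∃ s : ℝ, s = κ / (2 * Real.sqrt T) := ⟨_, rfl⟩
  have hTpos : 0 < T := by linarith
  have hsT0 : 0 < Real.sqrt T := Real.sqrt_pos.2 hTpos
  have hs0 : 0 < s := by rw [hs]; positivity
  have hs2 : s ^ 2 = κ ^ 2 / (4 * T) := by
    rw [hs, div_pow, mul_pow, Real.sq_sqrt hTpos.le]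
    norm_num
  have hs4 : s ^ 2 ≤ κ / 4 := by
    rw [hs2, div_le_div_iff₀ (by positivity) (by norm_num)]
    nlinarith
  refine ⟨K, s, κ, T, by exact_mod_cast (by linarith : (2 : ℝ) ≤ K), hs0, ?_, hκ0, hκ1, hTpos.le,
    ?_, hs4, ?_, by linarith, by rw [hκ]; ring, ?_⟩
  · nlinarith
  · rw [hs2]; field_simp
  · have h1 : -T / 2 = -Real.log (8 / δ) := by rw [hT]; ring
    rw [h1, Real.exp_neg, Real.exp_log (by positivity)]
    apply le_of_eq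
    rw [inv_div]
    ring
  · rw [← hL, hs2]
    have h1 : 4 / 81 * (ε + δ) ^ 2 ≤ κ ^ 2 := by
      have := pow_le_pow_left₀ (by positivity) hκl 2
      calc 4 / 81 * (ε + δ) ^ 2 = (2 / 9 * (ε + δ)) ^ 2 := by ring
        _ ≤ _ := this
    have h2 : κ ^ 2 / (4 * T) / 12 = κ ^ 2 / (48 * T) := by
      field_simp
      ring
    rw [h2, div_le_div_iff₀ (by positivity) (by positivity)]
    have h3 : (0 : ℝ) ≤ (ε + δ) ^ 2 := sq_nonneg _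
    calc (ε + δ) ^ 2 * (48 * T) ≤ (ε + δ) ^ 2 * (48 * (5 * L)) := by gcongr
      _ = 240 * ((ε + δ) ^ 2 * L) := by ring
      _ ≤ 5000 * (4 / 81) * ((ε + δ) ^ 2 * L) := by
          apply mul_le_mul_of_nonneg_right (by norm_num) (by positivity)
      _ = (4 / 81 * (ε + δ) ^ 2) * (5000 * L) := by ring
      _ ≤ κ ^ 2 * (5000 * L) := by gcongr

/-- **Lower bound.** -/
theorem lower_main {ε δ : ℝ} (hε0 : 0 ≤ ε) (hε : ε ≤ 1 / 2) (hδ0 : 0 < δ) (hδ : δ ≤ 1 / 4) :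
    ∃ (n k : ℕ) (A : Matrix (Fin n) (Fin n) ℝ) (W : Type) (_ : MeasurableSpace W) (P : Measure W)
      (_ : IsProbabilityMeasure P) (S : W → Matrix (Fin n) (Fin k) ℝ), 1 ≤ n ∧
      IsOSI P S 1 (1 - ε) δ ∧
      ∀ w, (1 + (ε + δ) ^ 2 / (5000 * Real.log (1 / δ))) * bestErr A 1 <
        frob (A - rsvd A (S w)) := by
  obtain ⟨K, s, κ, T, hK, hs0, hs1, hκ0, hκ1, hT, hsT, hs, hTδ, hδK, hκε, hfin⟩ :=
    params hε0 hε hδ0 hδ
  obtain ⟨p, hpR, hp⟩ := Nat.exists_infinite_primes ⌈8 / s ^ 2 + 128 / (δ * κ ^ 2) + 1⌉₊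
  haveI : Fact p.Prime := ⟨hp⟩
  have hpR' : 8 / s ^ 2 + 128 / (δ * κ ^ 2) + 1 ≤ p :=
    (Nat.le_ceil _).trans (by exact_mod_cast hpR)
  have ha : 0 < 8 / s ^ 2 := by positivity
  have hb : 0 < 128 / (δ * κ ^ 2) := by positivity
  have hp1 : (0 : ℝ) < (p : ℝ) - 1 := by linarith
  obtain ⟨w, hw1, hw2, hw3⟩ := exists_lowcoh p
  haveI : NeZero K := ⟨by omega⟩
  have hμδ : 2 * (1 / ((p : ℝ) - 1)) ^ 2 ≤ δ / 4 * (κ / 4) ^ 2 := by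
    have h1 : 128 / (δ * κ ^ 2) ≤ (p : ℝ) - 1 := by linarith
    have h2 : 128 ≤ ((p : ℝ) - 1) * (δ * κ ^ 2) := by
      rwa [div_le_iff₀ (by positivity)] at h1
    have h3 : δ * κ ^ 2 ≤ 1 := by
      have : κ ^ 2 ≤ 1 := pow_le_one₀ hκ0.le hκ1
      nlinarith
    have h4 : 1 ≤ (p : ℝ) - 1 := by
      by_contra hcon
      push Not at hcon
      have : ((p : ℝ) - 1) * (δ * κ ^ 2) ≤ 1 * 1 := mul_le_mul hcon.le h3 (by positivity) (by norm_num)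
      linarith
    have h5 : ((p : ℝ) - 1) ≤ ((p : ℝ) - 1) ^ 2 := by nlinarith
    rw [one_div, inv_pow, ← div_eq_mul_inv, div_le_iff₀ (by positivity)]
    have h6 : ((p : ℝ) - 1) * (δ * κ ^ 2) ≤ ((p : ℝ) - 1) ^ 2 * (δ * κ ^ 2) :=
      mul_le_mul_of_nonneg_right h5 (by positivity)
    calc (2 : ℝ) = 128 / 64 := by norm_num
      _ ≤ (((p : ℝ) - 1) ^ 2 * (δ * κ ^ 2)) / 64 := by linarith
      _ = _ := by ring
  have hOSI := isOSI_brow hK w hw1 (1 / ((p : ℝ) - 1)) (by positivity) hw2 s κ T ε δ hκ0 hκ1 hT hsT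
    hs hTδ hμδ hδ0 hδK hκε
  have hNpos : 0 < p ^ 3 := pow_pos hp.pos 3
  have hk : (((p ^ 2 : ℕ) : ℝ) + 1) ≤ ((p ^ 3 : ℕ) : ℝ) * s ^ 2 / 4 := by
    push_cast
    have h1 : 8 ≤ (p : ℝ) * s ^ 2 := by
      have : 8 / s ^ 2 ≤ p := by linarith
      rwa [div_le_iff₀ (by positivity)] at this
    have h2 : (1 : ℝ) ≤ (p : ℝ) ^ 2 := by
      have : (1 : ℝ) ≤ p := by linarith
      nlinarith
    calc (p : ℝ) ^ 2 + 1 ≤ (p : ℝ) ^ 2 * 8 / 4 := by linarith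
      _ ≤ (p : ℝ) ^ 2 * (p * s ^ 2) / 4 := by gcongr
      _ = _ := by ring
  refine ⟨p ^ 3 + 1, p ^ 2 + 1, diagonal (avec (p ^ 3)), Smp K (p ^ 3 + 1), inferInstance,
    unif _, inferInstance, Smat K (brow s w), by omega, hOSI, fun ω => ?_⟩
  have h1 := err_lower hK s hs1 hs0 w hw3 hNpos hk ω
  have h2 := bestErr_le (p ^ 3)
  have hb0 := bestErr_nonneg' (diagonal (avec (p ^ 3))) 1
  have hNr : (0 : ℝ) < ((p ^ 3 : ℕ) : ℝ) := by exact_mod_cast hNpos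
  obtain ⟨Nr, hNr'⟩ : ∃ Nr : ℝ, Nr = ((p ^ 3 : ℕ) : ℝ) := ⟨_, rfl⟩
  rw [← hNr'] at h1 h2 hNr
  obtain ⟨F, hF⟩ : ∃ F : ℝ, F = frob (diagonal (avec (p ^ 3)) -
    rsvd (diagonal (avec (p ^ 3))) (Smat K (brow s w) ω)) := ⟨_, rfl⟩
  have hF0 : 0 ≤ F := by rw [hF]; exact Real.sqrt_nonneg _
  rw [← hF] at h1 ⊢
  have hs2 : 0 < s ^ 2 := by positivity
  have hs21 : s ^ 2 ≤ 1 := by nlinarith
  have h3 : (1 + (ε + δ) ^ 2 / (5000 * Real.log (1 / δ))) * bestErr (diagonal (avec (p ^ 3))) 1 ≤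
      (1 + s ^ 2 / 12) * Real.sqrt Nr := by
    apply mul_le_mul (by linarith) h2 hb0 (by positivity)
  refine lt_of_le_of_lt h3 ?_
  have h4 : ((1 + s ^ 2 / 12) * Real.sqrt Nr) ^ 2 < F ^ 2 := by
    rw [mul_pow, Real.sq_sqrt hNr.le]
    have h5 : (1 + s ^ 2 / 12) ^ 2 < 1 + s ^ 2 / 4 := by nlinarith
    calc (1 + s ^ 2 / 12) ^ 2 * Nr < (1 + s ^ 2 / 4) * Nr := mul_lt_mul_of_pos_right h5 hNr
      _ = Nr * (1 + s ^ 2 / 4) := by ring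
      _ ≤ F ^ 2 := h1
  exact lt_of_pow_lt_pow_left₀ 2 hF0 h4

end Run7.h993.OSI
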