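import Mathlib
import Pool.Agent.H321R2.OSI.Prob

/-!
# Cleaned contamination: the optimal right inverse and the error of the randomized SVD
-/

namespace Run7.h993.OSI

open MeasureTheory Matrix Finset Pool.Agent.H321R2.OSI

variable {n d k r : ℕ}

/-- The optimal (energy minimising) right inverse. With `M` the sketch of the head and `N` the
sketch of the tail, there are `Y` with `Yᵀ M = 1` and `Z = Nᵀ Y` such that the sketch of the
tail vector with coefficients `Z` is exactly the sketch of the head vector `Zᵀ Z`. -/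
theorem exists_clean (M : Matrix (Fin k) (Fin r) ℝ) (N : Matrix (Fin k) (Fin n) ℝ)
    (hM : pinv M * M = 1) :
    ∃ (Y : Matrix (Fin k) (Fin r) ℝ) (Z : Matrix (Fin n) (Fin r) ℝ), Yᵀ * M = 1 ∧ Z = Nᵀ * Y ∧
      N * Z = M * (Zᵀ * Z) ∧ frob Z ^ 2 ≤ frob (pinv M * N) ^ 2 := by
  set Q : Matrix (Fin k) (Fin k) ℝ := 1 - proj M with hQ
  have hPs := proj_symm M
  have hPi := proj_idem M
  have hQs : Qᵀ = Q := by rw [hQ, Matrix.transpose_sub, hPs, Matrix.transpose_one]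
  have hQM : Q * M = 0 := by rw [hQ, Matrix.sub_mul, Matrix.one_mul, proj_mul, sub_self]
  set B := Nᵀ * Q with hB
  set R := proj B with hR
  have hRs : Rᵀ = R := proj_symm B
  have hRi : R * R = R := proj_idem B
  have hRB : R * B = B := proj_mul B
  obtain ⟨Y₀, hY₀⟩ : ∃ Y₀, Y₀ = (pinv M)ᵀ := ⟨_, rfl⟩
  obtain ⟨X, hX⟩ : ∃ X, X = pinv B * (Nᵀ * Y₀) := ⟨_, rfl⟩
  obtain ⟨Y, hY⟩ : ∃ Y, Y = Y₀ - Q * X := ⟨_, rfl⟩
  have hY₀M : Y₀ᵀ * M = 1 := by rw [hY₀, Matrix.transpose_transpose, hM]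
  have hYM : Yᵀ * M = 1 := by
    rw [hY, Matrix.transpose_sub, Matrix.sub_mul, hY₀M, Matrix.transpose_mul, hQs,
      Matrix.mul_assoc, hQM, Matrix.mul_zero, sub_zero]
  obtain ⟨Z, hZ⟩ : ∃ Z, Z = Nᵀ * Y := ⟨_, rfl⟩
  have hZ' : Z = (1 - R) * (Nᵀ * Y₀) := by
    have h1 : R * (Nᵀ * Y₀) = Nᵀ * (Q * X) := by
      calc R * (Nᵀ * Y₀) = B * pinv B * (Nᵀ * Y₀) := rfl
        _ = B * X := by rw [hX, Matrix.mul_assoc]
        _ = Nᵀ * (Q * X) := by rw [hB, Matrix.mul_assoc]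
    rw [hZ, hY, Matrix.mul_sub, ← h1, Matrix.sub_mul, Matrix.one_mul]
  have hBZ : Bᵀ * Z = 0 := by
    have h1 : Bᵀ * (1 - R) = 0 := by
      have h2 : (1 - R) * B = 0 := by rw [Matrix.sub_mul, Matrix.one_mul, hRB, sub_self]
      have h3 := congrArg Matrix.transpose h2
      rw [Matrix.transpose_mul, Matrix.transpose_sub, hRs, Matrix.transpose_one,
        Matrix.transpose_zero] at h3
      exact h3
    rw [hZ', ← Matrix.mul_assoc, h1, Matrix.zero_mul]
  have hQNZ : Q * (N * Z) = 0 := by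
    have h1 : Bᵀ = Q * N := by rw [hB, Matrix.transpose_mul, Matrix.transpose_transpose, hQs]
    rw [← Matrix.mul_assoc, ← h1, hBZ]
  have hNZ : N * Z = M * (pinv M * (N * Z)) := by
    rw [hQ, Matrix.sub_mul, Matrix.one_mul, sub_eq_zero, proj] at hQNZ
    rw [← Matrix.mul_assoc M]
    exact hQNZ
  have hZZ : Zᵀ * Z = pinv M * (N * Z) := by
    have h1 : Zᵀ = Yᵀ * N := by rw [hZ, Matrix.transpose_mul, Matrix.transpose_transpose]
    calc Zᵀ * Z = Yᵀ * (N * Z) := by rw [h1, Matrix.mul_assoc]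
      _ = Yᵀ * (M * (pinv M * (N * Z))) := by rw [← hNZ]
      _ = (Yᵀ * M) * (pinv M * (N * Z)) := by rw [Matrix.mul_assoc]
      _ = _ := by rw [hYM, Matrix.one_mul]
  refine ⟨Y, Z, hYM, hZ, ?_, ?_⟩
  · rw [hZZ]; exact hNZ
  · have h1 : frob Z ^ 2 ≤ frob (Nᵀ * Y₀) ^ 2 := by
      rw [frob_sq_cols, frob_sq_cols (Nᵀ * Y₀)]
      refine sum_le_sum fun j _ => ?_
      have h2 : Zᵀ j = (Nᵀ * Y₀)ᵀ j - R *ᵥ ((Nᵀ * Y₀)ᵀ j) := by
        rw [hZ', Matrix.sub_mul, Matrix.one_mul, Matrix.transpose_sub]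
        generalize Nᵀ * Y₀ = T
        funext i
        simp only [Matrix.sub_apply, Pi.sub_apply, Matrix.transpose_apply, Matrix.mul_apply,
          Matrix.mulVec, dotProduct]
      rw [h2, sqn_pyth R hRs hRi ((Nᵀ * Y₀)ᵀ j)]
      have := sqn_nonneg (R *ᵥ ((Nᵀ * Y₀)ᵀ j))
      linarith
    have h2 : (Nᵀ * Y₀) = (pinv M * N)ᵀ := by rw [hY₀, Matrix.transpose_mul]
    have h3 : frob ((pinv M * N)ᵀ) ^ 2 = frob (pinv M * N) ^ 2 := by
      rw [frob_sq_rows, frob_sq_cols]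
    rw [h2, h3] at h1
    exact h1

/-- residual matrix -/
noncomputable def resMat (A : Matrix (Fin n) (Fin d) ℝ) (U : Matrix (Fin d) (Fin r) ℝ) :
    Matrix (Fin n) (Fin d) ℝ := A - A * U * Uᵀ

lemma resMat_row (A : Matrix (Fin n) (Fin d) ℝ) (U : Matrix (Fin d) (Fin r) ℝ) (i : Fin n) :
    resMat A U i = resid U (A i) := by
  unfold resMat resid
  funext j
  change A i j - (A * U * Uᵀ) i j = A i j - (U *ᵥ (Uᵀ *ᵥ A i)) j
  congr 1
  rw [Matrix.mul_assoc, Matrix.mul_apply, Matrix.mulVec_mulVec]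
  simp only [Matrix.mulVec, dotProduct]
  refine sum_congr rfl fun l _ => ?_
  have : (U * Uᵀ) l j = (U * Uᵀ) j l := by
    rw [Matrix.mul_apply, Matrix.mul_apply]
    exact sum_congr rfl fun s _ => mul_comm _ _
  rw [this, mul_comm]

lemma resMat_mul (A : Matrix (Fin n) (Fin d) ℝ) (U : Matrix (Fin d) (Fin r) ℝ)
    (hU : Uᵀ * U = 1) : resMat A U * U = 0 := by
  unfold resMat
  rw [Matrix.sub_mul, Matrix.mul_assoc (A * U), hU, Matrix.mul_one, sub_self]

theorem error_clean (A : Matrix (Fin n) (Fin d) ℝ) (U : Matrix (Fin d) (Fin r) ℝ)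
    (hU : Uᵀ * U = 1) (S : Matrix (Fin d) (Fin k) ℝ) (Y : Matrix (Fin k) (Fin r) ℝ)
    (Z : Matrix (Fin n) (Fin r) ℝ) (hY : Yᵀ * (Sᵀ * U) = 1)
    (hZ : Z = (Sᵀ * (resMat A U)ᵀ)ᵀ * Y) :
    frob (A - rsvd A S) ^ 2 ≤ frob (resMat A U) ^ 2 + frob Z ^ 2 := by
  set E := resMat A U with hE
  have hEU : E * U = 0 := resMat_mul A U hU
  refine (rsvd_le A S (Y * Uᵀ)).trans (le_of_eq ?_)
  have h1 : A = A * U * Uᵀ + E := by rw [hE, resMat]; abel
  have h2 : Uᵀ * S * Y = 1 := by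
    have := congrArg Matrix.transpose hY
    rw [Matrix.transpose_mul, Matrix.transpose_mul, Matrix.transpose_transpose,
      Matrix.transpose_transpose, Matrix.transpose_one] at this
    exact this
  have h3 : A * S * Y = A * U + Z := by
    conv_lhs => rw [h1]
    rw [Matrix.add_mul, Matrix.add_mul, hZ, Matrix.transpose_mul, Matrix.transpose_transpose,
      Matrix.transpose_transpose]
    congr 1
    calc A * U * Uᵀ * S * Y = A * U * (Uᵀ * S * Y) := by simp only [Matrix.mul_assoc]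
      _ = A * U := by rw [h2, Matrix.mul_one]
  have h4 : A - A * S * (Y * Uᵀ) = E - Z * Uᵀ := by
    rw [← Matrix.mul_assoc, h3, Matrix.add_mul, hE, resMat]
    abel
  rw [h4, frob_sq_rows, frob_sq_rows E, frob_sq_rows Z, ← sum_add_distrib]
  refine sum_congr rfl fun i _ => ?_
  have h5 : (E - Z * Uᵀ) i = E i - U *ᵥ (Z i) := by
    funext j
    change E i j - (Z * Uᵀ) i j = E i j - (U *ᵥ (Z i)) j
    congr 1
    rw [Matrix.mul_apply, Matrix.mulVec, dotProduct]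
    exact sum_congr rfl fun l _ => by rw [Matrix.transpose_apply, mul_comm]
  rw [h5]
  apply sqn_sub_orth U hU
  rw [hE, resMat_row]
  exact resid_orth U hU (A i)

end Run7.h993.OSI
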