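import Mathlib
import Pool.Agent.Run7.h993.OSI.Clean

/-!
# The deterministic part of the core estimate
-/

namespace Run7.h993.OSI

open MeasureTheory Matrix Finset Pool.Agent.H321R2.OSI

variable {n d k r : ℕ}

lemma sqn_four (x₁ x₂ x₃ x₄ : Fin k → ℝ) :
    sqn (x₁ + x₂ + x₃ + x₄) + sqn (-x₁ + x₂ - x₃ + x₄) + sqn (-x₁ - x₂ + x₃ + x₄) +
      sqn (x₁ - x₂ - x₃ + x₄) = 4 * (sqn x₁ + sqn x₂ + sqn x₃ + sqn x₄) := by
  unfold sqn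
  simp only [← sum_add_distrib, mul_sum]
  refine sum_congr rfl fun i _ => ?_
  simp only [Pi.add_apply, Pi.sub_apply, Pi.neg_apply]
  ring

lemma sqn_add (x y : Fin k → ℝ) : sqn (x + y) = sqn x + 2 * (x ⬝ᵥ y) + sqn y := by
  unfold sqn dotProduct
  rw [mul_sum, ← sum_add_distrib, ← sum_add_distrib]
  refine sum_congr rfl fun i _ => ?_
  rw [Pi.add_apply]; ring

lemma sqn_par (x y : Fin k → ℝ) : sqn (x + y) + sqn (x - y) = 2 * sqn x + 2 * sqn y := by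
  rw [sqn_add, sqn_sub]; ring

lemma dot_sq_le (x y : Fin k → ℝ) : (x ⬝ᵥ y) ^ 2 ≤ sqn x * sqn y := by
  unfold dotProduct sqn
  exact Finset.sum_mul_sq_le_sq_mul_sq univ x y

/-- excess of the sketched energy over `(1 - ε)` times the energy of `v ⊕ Eᵀ g` -/
noncomputable def qf (M : Matrix (Fin k) (Fin r) ℝ) (N : Matrix (Fin k) (Fin n) ℝ)
    (F : Matrix (Fin d) (Fin n) ℝ) (ε : ℝ) (v : Fin r → ℝ) (g : Fin n → ℝ) : ℝ :=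
  sqn (M *ᵥ v + N *ᵥ g) - (1 - ε) * (sqn v + sqn (F *ᵥ g))

/-- excess of the sketched energy over `(1 - ε)` times the energy -/
noncomputable def exc (M : Matrix (Fin k) (Fin r) ℝ) (F : Matrix (Fin d) (Fin r) ℝ) (ε : ℝ)
    (v : Fin r → ℝ) : ℝ :=
  sqn (M *ᵥ v) - (1 - ε) * sqn (F *ᵥ v)

lemma exc_par (M : Matrix (Fin k) (Fin r) ℝ) (F : Matrix (Fin d) (Fin r) ℝ) (ε : ℝ)
    (x y : Fin r → ℝ) : exc M F ε (x + y) + exc M F ε (x - y) = 2 * exc M F ε x +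
      2 * exc M F ε y := by
  unfold exc
  have h1 := sqn_par (M *ᵥ x) (M *ᵥ y)
  have h2 := sqn_par (F *ᵥ x) (F *ᵥ y)
  rw [Matrix.mulVec_add, Matrix.mulVec_sub, Matrix.mulVec_add, Matrix.mulVec_sub]
  linear_combination h1 - (1 - ε) * h2

lemma exc_smul (M : Matrix (Fin k) (Fin r) ℝ) (F : Matrix (Fin d) (Fin r) ℝ) (ε : ℝ)
    (c : ℝ) (x : Fin r → ℝ) : exc M F ε (c • x) = c ^ 2 * exc M F ε x := by
  unfold exc
  rw [Matrix.mulVec_smul, Matrix.mulVec_smul, sqn_smul', sqn_smul']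
  ring

/-- If the form is nonnegative then `‖x - y‖² ≤ 2 ‖x‖² + 2 ‖y‖²` holds for it. -/
lemma exc_sub_le (M : Matrix (Fin k) (Fin r) ℝ) (F : Matrix (Fin d) (Fin r) ℝ) (ε : ℝ)
    (h : ∀ v, 0 ≤ exc M F ε v) (x y : Fin r → ℝ) :
    exc M F ε (x - y) ≤ 2 * exc M F ε x + 2 * exc M F ε y := by
  have := exc_par M F ε x y
  have := h (x + y)
  linarith

/-- the excess form on the head -/
noncomputable def hd (M : Matrix (Fin k) (Fin r) ℝ) (ε : ℝ) (v : Fin r → ℝ) : ℝ :=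
  sqn (M *ᵥ v) - (1 - ε) * sqn v

lemma hd_eq (M : Matrix (Fin k) (Fin r) ℝ) (ε : ℝ) (v : Fin r → ℝ) :
    hd M ε v = exc M (1 : Matrix (Fin r) (Fin r) ℝ) ε v := by
  unfold hd exc
  rw [Matrix.one_mulVec]

/-- Averaging the injectivity inequality over four sign choices. -/
lemma four_signs (M : Matrix (Fin k) (Fin r) ℝ) (N : Matrix (Fin k) (Fin n) ℝ)
    (F : Matrix (Fin d) (Fin n) ℝ) (ε t a : ℝ) (ht : t ≠ 0)
    (ζ h h' : Fin n → ℝ) (c φ m : Fin r → ℝ) (hφ : N *ᵥ ζ = M *ᵥ φ)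
    (hc : sqn c = 1)
    (H : ∀ s s' : ℝ, (s = 1 ∨ s = -1) → (s' = 1 ∨ s' = -1) →
      0 ≤ qf M N F ε ((s' / t) • c - a • m) ((s * s') • h - (t * a * s) • h' + a • ζ)) :
    0 ≤ exc N F ε h + (t * a) ^ 2 * exc N F ε h' + hd M ε c / t ^ 2 +
      a ^ 2 * (hd M ε (φ - m) + (1 - ε) * (sqn (φ - m) - sqn m)) -
      (1 - ε) * a ^ 2 * sqn (F *ᵥ ζ) := by
  have e1 : ∀ s s' : ℝ, M *ᵥ ((s' / t) • c - a • m) +
      N *ᵥ ((s * s') • h - (t * a * s) • h' + a • ζ) =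
      (s * s') • (N *ᵥ h) + s • (-((t * a) • (N *ᵥ h'))) + s' • (t⁻¹ • (M *ᵥ c)) +
        a • (M *ᵥ (φ - m)) := by
    intro s s'
    simp only [Matrix.mulVec_add, Matrix.mulVec_sub, Matrix.mulVec_smul, hφ]
    funext i
    simp only [Pi.add_apply, Pi.sub_apply, Pi.smul_apply, Pi.neg_apply, smul_eq_mul]
    ring
  have e2 : ∀ s s' : ℝ, F *ᵥ ((s * s') • h - (t * a * s) • h' + a • ζ) =
      (s * s') • (F *ᵥ h) + s • (-((t * a) • (F *ᵥ h'))) + s' • 0 + a • (F *ᵥ ζ) := by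
    intro s s'
    simp only [Matrix.mulVec_add, Matrix.mulVec_sub, Matrix.mulVec_smul]
    funext i
    simp only [Pi.add_apply, Pi.sub_apply, Pi.smul_apply, Pi.neg_apply, smul_eq_mul, Pi.zero_apply]
    ring
  have e3 : ∀ s s' : ℝ, (s' / t) • c - a • m =
      (s * s') • (0 : Fin r → ℝ) + s • (0 : Fin r → ℝ) + s' • (t⁻¹ • c) + (-(a • m)) := by
    intro s s'
    funext i
    simp only [Pi.add_apply, Pi.sub_apply, Pi.smul_apply, Pi.neg_apply, smul_eq_mul, Pi.zero_apply]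
    ring
  have q1 := H 1 1 (Or.inl rfl) (Or.inl rfl)
  have q2 := H 1 (-1) (Or.inl rfl) (Or.inr rfl)
  have q3 := H (-1) 1 (Or.inr rfl) (Or.inl rfl)
  have q4 := H (-1) (-1) (Or.inr rfl) (Or.inr rfl)
  unfold qf at q1 q2 q3 q4
  rw [e1, e2, e3 1 1] at q1
  rw [e1, e2, e3 1 (-1)] at q2
  rw [e1, e2, e3 (-1) 1] at q3
  rw [e1, e2, e3 (-1) (-1)] at q4
  have f1 := sqn_four (N *ᵥ h) (-((t * a) • (N *ᵥ h'))) (t⁻¹ • (M *ᵥ c)) (a • (M *ᵥ (φ - m)))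
  have f2 := sqn_four (F *ᵥ h) (-((t * a) • (F *ᵥ h'))) 0 (a • (F *ᵥ ζ))
  have f3 := sqn_four (0 : Fin r → ℝ) 0 (t⁻¹ • c) (-(a • m))
  have g1 : ∀ {l : ℕ} (x₁ x₂ x₃ x₄ : Fin l → ℝ),
      ((1 : ℝ) * 1) • x₁ + (1 : ℝ) • x₂ + (1 : ℝ) • x₃ + x₄ = x₁ + x₂ + x₃ + x₄ ∧
      ((1 : ℝ) * (-1)) • x₁ + (1 : ℝ) • x₂ + (-1 : ℝ) • x₃ + x₄ = -x₁ + x₂ - x₃ + x₄ ∧
      ((-1 : ℝ) * 1) • x₁ + (-1 : ℝ) • x₂ + (1 : ℝ) • x₃ + x₄ = -x₁ - x₂ + x₃ + x₄ ∧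
      ((-1 : ℝ) * (-1)) • x₁ + (-1 : ℝ) • x₂ + (-1 : ℝ) • x₃ + x₄ = x₁ - x₂ - x₃ + x₄ := by
    intro l x₁ x₂ x₃ x₄
    refine ⟨?_, ?_, ?_, ?_⟩ <;>
    · funext i
      simp only [Pi.add_apply, Pi.sub_apply, Pi.smul_apply, Pi.neg_apply, smul_eq_mul]
      ring
  have nn : ∀ {l : ℕ} (x : Fin l → ℝ), sqn (-x) = sqn x := by
    intro l x
    unfold sqn
    exact sum_congr rfl fun i _ => by rw [Pi.neg_apply]; ring
  rw [(g1 _ _ _ _).1, (g1 _ _ _ _).1, (g1 _ _ _ _).1] at q1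
  rw [(g1 _ _ _ _).2.1, (g1 _ _ _ _).2.1, (g1 _ _ _ _).2.1] at q2
  rw [(g1 _ _ _ _).2.2.1, (g1 _ _ _ _).2.2.1, (g1 _ _ _ _).2.2.1] at q3
  rw [(g1 _ _ _ _).2.2.2, (g1 _ _ _ _).2.2.2, (g1 _ _ _ _).2.2.2] at q4
  simp only [nn, sqn_smul', sqn_zero, hc] at f1 f2 f3
  have hsum : 0 ≤ (sqn (N *ᵥ h) + (t * a) ^ 2 * sqn (N *ᵥ h') + t⁻¹ ^ 2 * sqn (M *ᵥ c) +
      a ^ 2 * sqn (M *ᵥ (φ - m))) - (1 - ε) * ((t⁻¹ ^ 2 * 1 + a ^ 2 * sqn m) +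
      (sqn (F *ᵥ h) + (t * a) ^ 2 * sqn (F *ᵥ h') + a ^ 2 * sqn (F *ᵥ ζ))) := by
    have := add_nonneg (add_nonneg q1 q2) (add_nonneg q3 q4)
    refine nonneg_of_mul_nonneg_right (a := 4) (le_of_le_of_eq this ?_) (by norm_num)
    linear_combination f1 - (1 - ε) * f2 - (1 - ε) * f3
  unfold exc hd
  simp only [hc]
  have ht2 : t⁻¹ ^ 2 = 1 / t ^ 2 := by rw [inv_pow, one_div]
  rw [ht2] at hsum
  refine le_of_le_of_eq hsum ?_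
  ring

end Run7.h993.OSI
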