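import Mathlib

/-!
# The real arithmetic of the core estimate
-/

namespace Run7.h993.OSI

lemma cd_real (ε κ e2 ez q bw a2 lam nf x y bc Kh Kh' nm bp r : ℝ)
    (hε0 : 0 ≤ ε) (hε : ε ≤ 1 / 2) (hκ0 : 0 < κ) (hκ1 : κ ≤ 1 / 50000) (he2 : 0 < e2)
    (hez0 : 0 ≤ ez) (hez : ez ≤ e2) (hq : 0 ≤ q) (hr : 51200 ≤ r) (ha : r / 4 ≤ a2)
    (hlam0 : 0 ≤ lam) (hlam : lam ^ 2 ≤ e2) (hbw : 0 ≤ bw) (hbc0 : 0 ≤ bc)
    (hbc : bc ≤ 4000 * κ) (hnf0 : 0 ≤ nf) (hnf : nf ≤ 2 * r * q ^ 2) (hx : r * x ^ 2 ≤ 80 * nf)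
    (hy : r * y ^ 2 ≤ 80) (hnm0 : 0 ≤ nm) (hnm : nm ≤ 2 * nf + 2 * lam ^ 2)
    (hbp : bp ≤ 2 * (x + lam * y) ^ 2 * bc + 2 * lam ^ 2 * bw)
    (hKh : Kh ≤ 50000 * κ * e2 + 2 * ez) (hKh' : Kh' ≤ nm * (50000 * κ * e2 + 2 * ez))
    (hmain : 0 ≤ Kh + a2 * Kh' / (64 * e2) + 64 * e2 * bc +
      a2 * (bp + (1 - ε) * (2 * x ^ 2 - nf - 2 * lam * (q - x * y))) - (1 - ε) * a2 * ez) :
    a2 * (lam * q / 2 - 1600 * lam ^ 2 * (bw + κ)) ≤ 306000 * κ * e2 := by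
  have hr0 : 0 < r := by linarith
  have ha0 : 12800 ≤ a2 := by linarith
  have ha0' : 0 < a2 := by linarith
  -- x and y
  have hx1 : x ^ 2 ≤ nf / 640 := by
    rw [le_div_iff₀ (by norm_num)]
    have : 51200 * x ^ 2 ≤ r * x ^ 2 := mul_le_mul_of_nonneg_right hr (sq_nonneg x)
    linarith
  have hy1 : y ^ 2 ≤ 1 / 640 := by
    have : 51200 * y ^ 2 ≤ r * y ^ 2 := mul_le_mul_of_nonneg_right hr (sq_nonneg y)
    linarith
  have hxy : x * y ≤ q / 2 := by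
    have h1 : r ^ 2 * (x * y) ^ 2 ≤ 6400 * nf := by
      have h0 : (r * x ^ 2) * (r * y ^ 2) ≤ (80 * nf) * 80 :=
        mul_le_mul hx hy (by positivity) (by positivity)
      have h0' : r ^ 2 * (x * y) ^ 2 = (r * x ^ 2) * (r * y ^ 2) := by ring
      rw [h0']
      linarith
    have h2 : r ^ 2 * (x * y) ^ 2 ≤ r ^ 2 * (q / 2) ^ 2 := by
      have h3 : 6400 * nf ≤ 12800 * (r * q ^ 2) := by linarith
      have h4 : 12800 * (r * q ^ 2) ≤ r ^ 2 * (q / 2) ^ 2 := by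
        have h5 : 51200 * (r * q ^ 2) ≤ r * (r * q ^ 2) :=
          mul_le_mul_of_nonneg_right hr (by positivity)
        have h6 : r ^ 2 * (q / 2) ^ 2 = r * (r * q ^ 2) / 4 := by ring
        rw [h6]
        linarith
      linarith
    have h5 : (x * y) ^ 2 ≤ (q / 2) ^ 2 := le_of_mul_le_mul_left h2 (by positivity)
    exact (abs_le_of_sq_le_sq' h5 (by positivity)).2
  -- the term of `h'`
  set η := ez / e2 with hη
  have hη0 : 0 ≤ η := by positivity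
  have hη1 : η ≤ 1 := by rw [hη, div_le_one he2]; exact hez
  have hez' : ez = η * e2 := by rw [hη]; field_simp
  have t1 : a2 * Kh' / (64 * e2) ≤ a2 * (3 / 32 * nf + 1563 * κ * lam ^ 2 + ez / 16) := by
    rw [div_le_iff₀ (by positivity)]
    have h1 : Kh' ≤ (2 * nf + 2 * lam ^ 2) * (50000 * κ * e2 + 2 * ez) :=
      hKh'.trans (mul_le_mul_of_nonneg_right hnm (by positivity))
    have h2 : (2 * nf + 2 * lam ^ 2) * (50000 * κ * e2 + 2 * ez) ≤
        (3 / 32 * nf + 1563 * κ * lam ^ 2 + ez / 16) * (64 * e2) := by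
      have e1 : nf * (50000 * κ * e2 + 2 * ez) ≤ nf * (3 * e2) := by
        apply mul_le_mul_of_nonneg_left _ hnf0
        have : 50000 * κ * e2 ≤ 1 * e2 := mul_le_mul_of_nonneg_right (by linarith) he2.le
        linarith
      have e2' : lam ^ 2 * ez ≤ e2 * ez := mul_le_mul_of_nonneg_right hlam hez0
      have e3 : 0 ≤ κ * lam ^ 2 * e2 := by positivity
      have e4 : (2 * nf + 2 * lam ^ 2) * (50000 * κ * e2 + 2 * ez) =
          2 * (nf * (50000 * κ * e2 + 2 * ez)) + 100000 * (κ * lam ^ 2 * e2) +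
          4 * (lam ^ 2 * ez) := by ring
      have e5 : (3 / 32 * nf + 1563 * κ * lam ^ 2 + ez / 16) * (64 * e2) =
          2 * (nf * (3 * e2)) + 100032 * (κ * lam ^ 2 * e2) + 4 * (e2 * ez) := by ring
      rw [e4, e5]
      linarith
    calc a2 * Kh' ≤ a2 * ((3 / 32 * nf + 1563 * κ * lam ^ 2 + ez / 16) * (64 * e2)) :=
          mul_le_mul_of_nonneg_left (h1.trans h2) ha0'.le
      _ = _ := by ring
  -- the term of `p`
  have t2 : bp ≤ 1 / 1000 * nf + lam ^ 2 * (25 * κ + 2 * bw) := by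
    have h1 : 2 * (x + lam * y) ^ 2 ≤ 4 * x ^ 2 + 4 * (lam ^ 2 * y ^ 2) := by
      nlinarith [sq_nonneg (x - lam * y)]
    have h2 : 2 * (x + lam * y) ^ 2 * bc ≤ (4 * x ^ 2 + 4 * (lam ^ 2 * y ^ 2)) * bc :=
      mul_le_mul_of_nonneg_right h1 hbc0
    have h3 : x ^ 2 * bc ≤ nf / 640 * (8 / 100) := by
      apply mul_le_mul hx1 _ hbc0 (by positivity)
      linarith
    have h4 : lam ^ 2 * y ^ 2 * bc ≤ lam ^ 2 * (1 / 640) * (4000 * κ) := by
      apply mul_le_mul _ hbc hbc0 (by positivity)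
      exact mul_le_mul_of_nonneg_left hy1 (sq_nonneg lam)
    have h5 : (4 * x ^ 2 + 4 * (lam ^ 2 * y ^ 2)) * bc = 4 * (x ^ 2 * bc) +
      4 * (lam ^ 2 * y ^ 2 * bc) := by ring
    have h6 : lam ^ 2 * (1 / 640) * (4000 * κ) = 25 / 4 * (lam ^ 2 * κ) := by ring
    have h7 : lam ^ 2 * (25 * κ + 2 * bw) = 25 * (lam ^ 2 * κ) + 2 * lam ^ 2 * bw := by ring
    have h8 : nf / 640 * (8 / 100) = 1 / 8000 * nf := by ring
    rw [h5] at h2
    rw [h6] at h4
    rw [h8] at h3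
    rw [h7]
    linarith
  -- the negative terms
  have t3 : (1 - ε) * (2 * x ^ 2 - nf - 2 * lam * (q - x * y)) ≤
      -(49 / 100) * nf - lam * q / 2 := by
    have h1 : 2 * x ^ 2 - nf ≤ -(98 / 100) * nf := by linarith
    have h2 : lam * q / 2 ≤ lam * (q - x * y) := by
      have : q / 2 ≤ q - x * y := by linarith
      have := mul_le_mul_of_nonneg_left this hlam0
      linarith
    have h3 : 0 ≤ lam * q := mul_nonneg hlam0 hq
    have h4 : 2 * x ^ 2 - nf - 2 * lam * (q - x * y) ≤ -(98 / 100) * nf - lam * q := by linarith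
    have h5 : (1 - ε) * (2 * x ^ 2 - nf - 2 * lam * (q - x * y)) ≤
        (1 - ε) * (-(98 / 100) * nf - lam * q) := mul_le_mul_of_nonneg_left h4 (by linarith)
    have h6 : (1 - ε) * (-(98 / 100) * nf - lam * q) ≤ 1 / 2 * (-(98 / 100) * nf - lam * q) := by
      nlinarith
    linarith
  have t4 : 1 / 2 * (a2 * ez) ≤ (1 - ε) * a2 * ez := by
    have : 0 ≤ a2 * ez := by positivity
    nlinarith
  have t5 : Kh ≤ 50000 * κ * e2 + 1 / 100 * (a2 * ez) := by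
    have : 12800 * ez ≤ a2 * ez := mul_le_mul_of_nonneg_right ha0 hez0
    linarith
  have t6 : 64 * e2 * bc ≤ 256000 * κ * e2 := by
    have := mul_le_mul_of_nonneg_left hbc (by positivity : (0 : ℝ) ≤ 64 * e2)
    linarith
  have t7 : a2 * (bp + (1 - ε) * (2 * x ^ 2 - nf - 2 * lam * (q - x * y))) ≤
      a2 * (1 / 1000 * nf + lam ^ 2 * (25 * κ + 2 * bw) + (-(49 / 100) * nf - lam * q / 2)) :=
    mul_le_mul_of_nonneg_left (add_le_add t2 t3) ha0'.le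
  have t8 : 0 ≤ a2 * nf := by positivity
  have t9 : 0 ≤ a2 * ez := by positivity
  have t10 : 0 ≤ a2 * (lam ^ 2 * κ) := by positivity
  have t11 : 0 ≤ a2 * (lam ^ 2 * bw) := by positivity
  have f1 : a2 * (1 / 1000 * nf + lam ^ 2 * (25 * κ + 2 * bw) + (-(49 / 100) * nf - lam * q / 2)) =
      -(489 / 1000) * (a2 * nf) + 25 * (a2 * (lam ^ 2 * κ)) + 2 * (a2 * (lam ^ 2 * bw)) -
      a2 * (lam * q) / 2 := by ring
  have f2 : a2 * (3 / 32 * nf + 1563 * κ * lam ^ 2 + ez / 16) =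
      3 / 32 * (a2 * nf) + 1563 * (a2 * (lam ^ 2 * κ)) + (a2 * ez) / 16 := by ring
  have f3 : a2 * (lam * q / 2 - 1600 * lam ^ 2 * (bw + κ)) = a2 * (lam * q) / 2 -
      1600 * (a2 * (lam ^ 2 * κ)) - 1600 * (a2 * (lam ^ 2 * bw)) := by ring
  rw [f1] at t7
  rw [f2] at t1
  rw [f3]
  linarith

/-- Choosing `λ`. -/
lemma choose_lam (κ e2 q bw r : ℝ) (hκ0 : 0 < κ) (he2 : 0 < e2) (hq : 0 < q) (hbw : 0 ≤ bw)
    (hr : 51200 ≤ r) : ∃ lam : ℝ, 0 ≤ lam ∧ lam ^ 2 ≤ e2 ∧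
      ∀ a2, r / 4 ≤ a2 → a2 * (lam * q / 2 - 1600 * lam ^ 2 * (bw + κ)) ≤ 306000 * κ * e2 →
        r * q ^ 2 ≤ 32000000000 * κ * e2 * (bw + κ) := by
  set Sw := bw + κ with hSw
  have hSw0 : 0 < Sw := by positivity
  have hκS : κ ≤ Sw := by linarith
  set s := Real.sqrt e2 with hs
  have hs0 : 0 < s := Real.sqrt_pos.2 he2
  have hs2 : s ^ 2 = e2 := Real.sq_sqrt he2.le
  rcases le_or_gt (q / (6400 * Sw)) s with h | h
  · refine ⟨q / (6400 * Sw), by positivity, ?_, ?_⟩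
    · rw [← hs2]
      exact pow_le_pow_left₀ (by positivity) h 2
    · intro a2 ha2 hm
      have e1 : q / (6400 * Sw) * q / 2 - 1600 * (q / (6400 * Sw)) ^ 2 * Sw =
          q ^ 2 / (25600 * Sw) := by
        field_simp
        ring
      rw [e1] at hm
      have h2 : r / 4 * (q ^ 2 / (25600 * Sw)) ≤ 306000 * κ * e2 :=
        (mul_le_mul_of_nonneg_right ha2 (by positivity)).trans hm
      have h3 : r / 4 * (q ^ 2 / (25600 * Sw)) = r * q ^ 2 / (102400 * Sw) := by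
        field_simp; ring
      rw [h3, div_le_iff₀ (by positivity)] at h2
      have h4 : 0 ≤ κ * e2 * Sw := by positivity
      nlinarith
  · refine ⟨s, hs0.le, hs2.le, ?_⟩
    intro a2 ha2 hm
    exfalso
    rw [lt_div_iff₀ (by positivity)] at h
    have h1 : 1600 * s ^ 2 * Sw ≤ s * q / 4 := by nlinarith
    have h2 : s * q / 4 ≤ s * q / 2 - 1600 * s ^ 2 * Sw := by linarith
    have h3 : a2 * (s * q / 4) ≤ 306000 * κ * e2 :=
      (mul_le_mul_of_nonneg_left h2 (by linarith)).trans hm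
    have h4 : 6400 * κ * s ≤ q := by nlinarith
    have h5 : 1600 * κ * s ^ 2 ≤ s * q / 4 := by nlinarith
    have h6 : a2 * (1600 * κ * s ^ 2) ≤ 306000 * κ * e2 :=
      (mul_le_mul_of_nonneg_left h5 (by linarith)).trans h3
    rw [hs2] at h6
    have h7 : 0 < κ * e2 := by positivity
    have h8 : a2 * 1600 ≤ 306000 := by
      by_contra hcon
      push Not at hcon
      nlinarith
    linarith

end Run7.h993.OSI
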