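import Mathlib

/-!
# Standard Gaussian vectors: linear images and resampling
-/

namespace Run7.h993.OSI

open MeasureTheory ProbabilityTheory Matrix Finset

variable {ι κ κ' : Type*} [Fintype ι] [Fintype κ] [Fintype κ']

/-- The standard Gaussian measure on `ι → ℝ`. -/
noncomputable def gau (ι : Type*) [Fintype ι] : Measure (ι → ℝ) :=
  Measure.pi fun _ : ι => gaussianReal 0 1

instance : IsProbabilityMeasure (gau ι) := by unfold gau; infer_instance

lemma integral_exp_gau (a : κ → ℝ) :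
    ∫ x, Complex.exp ((∑ k, x k * a k : ℝ) * Complex.I) ∂(gau κ) =
      Complex.exp (-((∑ k, a k ^ 2 : ℝ) : ℂ) / 2) := by
  have h1 : ∀ x : κ → ℝ, Complex.exp ((∑ k, x k * a k : ℝ) * Complex.I) =
      ∏ k, Complex.exp ((a k * x k : ℝ) * Complex.I) := by
    intro x
    rw [← Complex.exp_sum]
    congr 1
    push_cast
    rw [Finset.sum_mul]
    exact sum_congr rfl fun k _ => by ring
  simp only [h1]
  unfold gau
  rw [integral_fintype_prod_eq_prod (fun k (x : ℝ) => Complex.exp ((a k * x : ℝ) * Complex.I))]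
  have h2 : ∀ k, ∫ x, Complex.exp ((a k * x : ℝ) * Complex.I) ∂(gaussianReal 0 1) =
      Complex.exp (-((a k ^ 2 : ℝ) : ℂ) / 2) := by
    intro k
    have := charFun_gaussianReal (μ := 0) (v := 1) (a k)
    rw [charFun_apply_real] at this
    have h3 : ∀ x : ℝ, Complex.exp ((a k * x : ℝ) * Complex.I) =
        Complex.exp (a k * x * Complex.I) := by
      intro x; push_cast; rfl
    simp only [h3]
    rw [this]
    congr 1
    push_cast
    simp
    ring
  simp only [h2]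
  rw [← Complex.exp_sum]
  congr 1
  push_cast
  rw [← Finset.sum_div, ← Finset.sum_neg_distrib]

omit [Fintype ι] in
lemma toLp_map_injective [Fintype ι] {μ ν : Measure (ι → ℝ)}
    (h : μ.map (WithLp.toLp 2 : (ι → ℝ) → EuclideanSpace ℝ ι) = ν.map (WithLp.toLp 2)) : μ = ν := by
  have hm : Measurable (WithLp.toLp 2 : (ι → ℝ) → EuclideanSpace ℝ ι) := by fun_prop
  have hm' : Measurable (WithLp.ofLp : EuclideanSpace ℝ ι → (ι → ℝ)) := by fun_prop
  have h1 : ∀ μ : Measure (ι → ℝ), (μ.map (WithLp.toLp 2 : (ι → ℝ) → EuclideanSpace ℝ ι)).map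
      (WithLp.ofLp : EuclideanSpace ℝ ι → (ι → ℝ)) = μ := by
    intro μ
    rw [Measure.map_map hm' hm]
    have : (WithLp.ofLp : EuclideanSpace ℝ ι → (ι → ℝ)) ∘
      (WithLp.toLp 2 : (ι → ℝ) → EuclideanSpace ℝ ι) = id := by
      funext x; rfl
    rw [this, Measure.map_id]
  rw [← h1 μ, ← h1 ν, h]

lemma dot_adj (M : Matrix ι κ ℝ) (x : κ → ℝ) (t : ι → ℝ) :
    ∑ i, (M *ᵥ x) i * t i = ∑ k, x k * (Mᵀ *ᵥ t) k := by
  have := Matrix.dotProduct_mulVec t M x
  rw [← Matrix.mulVec_transpose] at this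
  simp only [dotProduct] at this
  calc ∑ i, (M *ᵥ x) i * t i = ∑ i, t i * (M *ᵥ x) i :=
        sum_congr rfl fun i _ => mul_comm _ _
    _ = _ := this
    _ = _ := sum_congr rfl fun i _ => mul_comm _ _

lemma sum_sq_adj (M : Matrix ι κ ℝ) (t : ι → ℝ) :
    ∑ k, (Mᵀ *ᵥ t) k ^ 2 = t ⬝ᵥ ((M * Mᵀ) *ᵥ t) := by
  rw [← Matrix.mulVec_mulVec, Matrix.dotProduct_mulVec, ← Matrix.mulVec_transpose]
  simp only [dotProduct]
  exact sum_congr rfl fun i _ => sq _

/-- If `M Mᵀ + M' M'ᵀ = 1` and `x`, `y` are independent standard Gaussian vectors, then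
`M x + M' y` is a standard Gaussian vector. -/
lemma gau_map_add [DecidableEq ι] (M : Matrix ι κ ℝ) (M' : Matrix ι κ' ℝ)
    (h : M * Mᵀ + M' * M'ᵀ = 1) :
    ((gau κ).prod (gau κ')).map (fun p => M *ᵥ p.1 + M' *ᵥ p.2) = gau ι := by
  have hm : Measurable (fun p : (κ → ℝ) × (κ' → ℝ) => M *ᵥ p.1 + M' *ᵥ p.2) := by
    have : Continuous (fun p : (κ → ℝ) × (κ' → ℝ) => M *ᵥ p.1 + M' *ᵥ p.2) := by
      unfold Matrix.mulVec dotProduct
      fun_prop
    exact this.measurable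
  have hL : Measurable (WithLp.toLp 2 : (ι → ℝ) → EuclideanSpace ℝ ι) := by fun_prop
  apply toLp_map_injective
  apply Measure.ext_of_charFun (E := EuclideanSpace ℝ ι)
  ext t
  rw [Measure.map_map hL hm, charFun_apply, charFun_apply,
    integral_map (hL.comp hm).aemeasurable (by fun_prop),
    integral_map hL.aemeasurable (by fun_prop)]
  have hin : ∀ a : ι → ℝ, inner ℝ (WithLp.toLp 2 a : EuclideanSpace ℝ ι) t =
      ∑ i, a i * t.ofLp i := by
    intro a
    rw [PiLp.inner_apply]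
    refine sum_congr rfl fun i _ => ?_
    simp [mul_comm]
  have h1 : ∀ p : (κ → ℝ) × (κ' → ℝ), Complex.exp ((inner ℝ (((WithLp.toLp 2 :
      (ι → ℝ) → EuclideanSpace ℝ ι) ∘ fun p : (κ → ℝ) × (κ' → ℝ) => M *ᵥ p.1 + M' *ᵥ p.2) p) t : ℝ) *
      Complex.I) =
      Complex.exp ((∑ k, p.1 k * (Mᵀ *ᵥ t.ofLp) k : ℝ) * Complex.I) *
      Complex.exp ((∑ k, p.2 k * (M'ᵀ *ᵥ t.ofLp) k : ℝ) * Complex.I) := by
    intro p
    rw [← Complex.exp_add, ← add_mul]
    congr 2
    rw [Function.comp_apply, hin]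
    have e2 : ∑ i, (M *ᵥ p.1 + M' *ᵥ p.2) i * t.ofLp i =
        ∑ i, (M *ᵥ p.1) i * t.ofLp i + ∑ i, (M' *ᵥ p.2) i * t.ofLp i := by
      rw [← sum_add_distrib]
      exact sum_congr rfl fun i _ => by rw [Pi.add_apply]; ring
    rw [e2, dot_adj, dot_adj]
    push_cast
    ring
  simp only [h1]
  simp only [hin]
  rw [integral_prod_mul (fun x : κ → ℝ => Complex.exp ((∑ k, x k * (Mᵀ *ᵥ t.ofLp) k : ℝ) *
    Complex.I)) (fun x : κ' → ℝ => Complex.exp ((∑ k, x k * (M'ᵀ *ᵥ t.ofLp) k : ℝ) * Complex.I)),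
    integral_exp_gau, integral_exp_gau, integral_exp_gau, ← Complex.exp_add]
  congr 1
  have e3 : ∑ k, (Mᵀ *ᵥ t.ofLp) k ^ 2 + ∑ k, (M'ᵀ *ᵥ t.ofLp) k ^ 2 = ∑ i, t.ofLp i ^ 2 := by
    rw [sum_sq_adj, sum_sq_adj, ← dotProduct_add, ← Matrix.add_mulVec, h, Matrix.one_mulVec]
    simp only [dotProduct]
    exact sum_congr rfl fun i _ => (sq _).symm
  rw [← e3]
  push_cast
  ring

lemma measurable_mulVec (M : Matrix ι κ ℝ) : Measurable fun x : κ → ℝ => M *ᵥ x := by
  have : Continuous (fun x : κ → ℝ => M *ᵥ x) := by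
    unfold Matrix.mulVec dotProduct
    fun_prop
  exact this.measurable

/-- If `M Mᵀ = 1` and `x` is a standard Gaussian vector, then so is `M x`. -/
lemma gau_map_mulVec [DecidableEq ι] (M : Matrix ι κ ℝ) (h : M * Mᵀ = 1) :
    (gau κ).map (fun x => M *ᵥ x) = gau ι := by
  have h1 := gau_map_add M (0 : Matrix ι κ ℝ) (by rw [h]; simp)
  have h2 : (fun p : (κ → ℝ) × (κ → ℝ) => M *ᵥ p.1 + (0 : Matrix ι κ ℝ) *ᵥ p.2) =
      (fun x => M *ᵥ x) ∘ Prod.fst := by
    funext p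
    simp
  rw [h2, ← Measure.map_map (measurable_mulVec M) measurable_fst, Measure.map_fst_prod] at h1
  simpa using h1

lemma measurable_dot (a : κ → ℝ) : Measurable fun x : κ → ℝ => ∑ k, a k * x k := by
  have : Continuous fun x : κ → ℝ => ∑ k, a k * x k := by fun_prop
  exact this.measurable

/-- A unit linear functional of a standard Gaussian vector is standard normal. -/
lemma gau_dot (a : κ → ℝ) (ha : ∑ k, a k ^ 2 = 1) :
    (gau κ).map (fun x => ∑ k, a k * x k) = gaussianReal 0 1 := by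
  have h1 := gau_map_mulVec (Matrix.of fun (_ : Fin 1) k => a k) (by
    ext i j
    rw [Matrix.mul_apply]
    simp only [Matrix.of_apply, Matrix.transpose_apply]
    have : i = j := Subsingleton.elim _ _
    subst this
    rw [Matrix.one_apply_eq, ← ha]
    exact sum_congr rfl fun k _ => (sq _).symm)
  have h2 : (gau (Fin 1)).map (fun x => x 0) = gaussianReal 0 1 :=
    (measurePreserving_eval (fun _ : Fin 1 => gaussianReal 0 1) 0).map_eq
  rw [← h2, ← h1, Measure.map_map (measurable_pi_apply 0) (measurable_mulVec _)]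
  rfl

lemma integral_sq_gaussianReal : ∫ x, x ^ 2 ∂(gaussianReal 0 1) = 1 := by
  have h1 : Var[fun x => x; gaussianReal 0 1] = 1 := by
    rw [variance_fun_id_gaussianReal]; simp
  rw [variance_of_integral_eq_zero (by fun_prop) (by simp)] at h1
  exact h1

lemma integrable_sq_gaussianReal : Integrable (fun x : ℝ => x ^ 2) (gaussianReal 0 1) := by
  have : MemLp id 2 (gaussianReal 0 1) := memLp_id_gaussianReal 2
  exact this.integrable_sq

lemma integrable_dot_sq (a : κ → ℝ) : Integrable (fun x => (∑ k, a k * x k) ^ 2) (gau κ) := by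
  by_cases h0 : ∑ k, a k ^ 2 = 0
  · have : ∀ k, a k = 0 := fun k => by
      have := (sum_eq_zero_iff_of_nonneg (fun k _ => sq_nonneg (a k))).1 h0 k (mem_univ k)
      exact (pow_eq_zero_iff two_ne_zero).1 this
    simp [this]
  · have hpos : 0 < ∑ k, a k ^ 2 :=
      lt_of_le_of_ne (sum_nonneg fun _ _ => sq_nonneg _) (Ne.symm h0)
    set q := Real.sqrt (∑ k, a k ^ 2) with hq
    have hq0 : 0 < q := Real.sqrt_pos.2 hpos
    have hq2 : q ^ 2 = ∑ k, a k ^ 2 := Real.sq_sqrt hpos.le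
    have h1 := gau_dot (fun k => a k / q) (by
      simp only [div_pow]
      rw [← sum_div, ← hq2, div_self (by positivity)])
    have h2 : (fun x : κ → ℝ => (∑ k, a k * x k) ^ 2) =
        (fun y : ℝ => q ^ 2 * y ^ 2) ∘ (fun x => ∑ k, a k / q * x k) := by
      funext x
      simp only [Function.comp_apply]
      rw [← mul_pow, mul_sum]
      congr 1
      refine sum_congr rfl fun k _ => ?_
      field_simp
    rw [h2, ← integrable_map_measure (by fun_prop) (measurable_dot _).aemeasurable, h1]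
    exact integrable_sq_gaussianReal.const_mul _

lemma integral_dot_sq (a : κ → ℝ) : ∫ x, (∑ k, a k * x k) ^ 2 ∂(gau κ) = ∑ k, a k ^ 2 := by
  by_cases h0 : ∑ k, a k ^ 2 = 0
  · have : ∀ k, a k = 0 := fun k => by
      have := (sum_eq_zero_iff_of_nonneg (fun k _ => sq_nonneg (a k))).1 h0 k (mem_univ k)
      exact (pow_eq_zero_iff two_ne_zero).1 this
    simp [this]
  · have hpos : 0 < ∑ k, a k ^ 2 :=
      lt_of_le_of_ne (sum_nonneg fun _ _ => sq_nonneg _) (Ne.symm h0)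
    set q := Real.sqrt (∑ k, a k ^ 2) with hq
    have hq0 : 0 < q := Real.sqrt_pos.2 hpos
    have hq2 : q ^ 2 = ∑ k, a k ^ 2 := Real.sq_sqrt hpos.le
    have h1 := gau_dot (fun k => a k / q) (by
      simp only [div_pow]
      rw [← sum_div, ← hq2, div_self (by positivity)])
    have h2 : ∀ x : κ → ℝ, (∑ k, a k * x k) ^ 2 =
        q ^ 2 * (∑ k, a k / q * x k) ^ 2 := by
      intro x
      rw [← mul_pow, mul_sum]
      congr 1
      refine sum_congr rfl fun k _ => ?_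
      field_simp
    simp only [h2]
    rw [integral_const_mul, ← integral_map (f := fun y : ℝ => y ^ 2)
      (φ := fun x : κ → ℝ => ∑ k, a k / q * x k) (measurable_dot _).aemeasurable (by fun_prop), h1,
      integral_sq_gaussianReal, mul_one, hq2]

section tails

lemma markov_real {Ω : Type*} [MeasurableSpace Ω] {μ : Measure Ω} [IsProbabilityMeasure μ]
    {f : Ω → ℝ} (hf : Integrable f μ) (hf0 : ∀ w, 0 ≤ f w) {m T : ℝ} (hm : ∫ w, f w ∂μ ≤ m)
    (hT : 0 < T) : μ.real {w | T < f w} ≤ m / T := by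
  have h1 := mul_meas_ge_le_integral_of_nonneg (μ := μ) (Filter.Eventually.of_forall hf0) hf T
  have h2 : μ.real {w | T < f w} ≤ μ.real {w | T ≤ f w} :=
    measureReal_mono (fun w (hw : T < f w) => le_of_lt hw)
  rw [le_div_iff₀ hT]
  have h3 : T * μ.real {w | T < f w} ≤ T * μ.real {w | T ≤ f w} :=
    mul_le_mul_of_nonneg_left h2 hT.le
  nlinarith

lemma sqrt_two_pi_ge : (5 / 2 : ℝ) ≤ Real.sqrt (2 * Real.pi) := by
  apply Real.le_sqrt_of_sq_le
  have := Real.pi_gt_d2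
  norm_num
  linarith

lemma small_interval : (gaussianReal 0 1).real (Set.Icc (-(1 / 4 : ℝ)) (1 / 4)) ≤ 1 / 5 := by
  have hle : ∀ x, gaussianPDFReal 0 1 x ≤ 2 / 5 := by
    intro x
    rw [gaussianPDFReal_def]
    simp only [NNReal.coe_one, mul_one, sub_zero]
    have h1 : (Real.sqrt (2 * Real.pi))⁻¹ ≤ 2 / 5 := by
      rw [inv_le_comm₀ (by have := sqrt_two_pi_ge; linarith) (by norm_num),
        show ((2 : ℝ) / 5)⁻¹ = 5 / 2 by norm_num]
      exact sqrt_two_pi_ge
    have h2 : Real.exp (-x ^ 2 / 2) ≤ 1 := by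
      rw [Real.exp_le_one_iff]
      nlinarith [sq_nonneg x]
    have h3 : 0 ≤ (Real.sqrt (2 * Real.pi))⁻¹ := by positivity
    nlinarith [Real.exp_pos (-x ^ 2 / 2)]
  have h1 : (gaussianReal 0 1) (Set.Icc (-(1 / 4 : ℝ)) (1 / 4)) =
      ENNReal.ofReal (∫ x in Set.Icc (-(1 / 4 : ℝ)) (1 / 4), gaussianPDFReal 0 1 x) :=
    gaussianReal_apply_eq_integral 0 one_ne_zero _
  rw [Measure.real, h1, ENNReal.toReal_ofReal
    (integral_nonneg fun x => gaussianPDFReal_nonneg 0 1 x)]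
  calc ∫ x in Set.Icc (-(1 / 4 : ℝ)) (1 / 4), gaussianPDFReal 0 1 x
      ≤ ∫ _x in Set.Icc (-(1 / 4 : ℝ)) (1 / 4), (2 / 5 : ℝ) := by
        apply setIntegral_mono
        · exact (integrable_gaussianPDFReal 0 1).integrableOn
        · simp
        · exact hle
    _ = 1 / 5 := by
        rw [setIntegral_const]
        simp [Measure.real]
        norm_num

/-- Small ball estimate for a linear functional of a Gaussian vector. -/
lemma gau_small_ball (a : κ → ℝ) (ha : 0 < ∑ k, a k ^ 2) :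
    (gau κ).real {x | (∑ k, a k * x k) ^ 2 ≤ (∑ k, a k ^ 2) / 16} ≤ 1 / 5 := by
  set q := Real.sqrt (∑ k, a k ^ 2) with hq
  have hq0 : 0 < q := Real.sqrt_pos.2 ha
  have hq2 : q ^ 2 = ∑ k, a k ^ 2 := Real.sq_sqrt ha.le
  have h1 := gau_dot (fun k => a k / q) (by
    simp only [div_pow]
    rw [← sum_div, ← hq2, div_self (by positivity)])
  have h2 : {x : κ → ℝ | (∑ k, a k * x k) ^ 2 ≤ (∑ k, a k ^ 2) / 16} ⊆
      (fun x : κ → ℝ => ∑ k, a k / q * x k) ⁻¹' (Set.Icc (-(1 / 4 : ℝ)) (1 / 4)) := by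
    intro x hx
    rw [Set.mem_ofPred_eq, ← hq2] at hx
    rw [Set.mem_preimage, Set.mem_Icc, ← abs_le]
    have h3 : ∑ k, a k * x k = q * ∑ k, a k / q * x k := by
      rw [mul_sum]
      refine sum_congr rfl fun k _ => ?_
      field_simp
    rw [h3] at hx
    apply abs_le_of_sq_le_sq _ (by norm_num)
    have h4 : q ^ 2 * (∑ k, a k / q * x k) ^ 2 ≤ q ^ 2 * (1 / 4) ^ 2 := by nlinarith
    exact le_of_mul_le_mul_left h4 (by positivity)
  calc (gau κ).real {x | (∑ k, a k * x k) ^ 2 ≤ (∑ k, a k ^ 2) / 16}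
      ≤ (gau κ).real ((fun x : κ → ℝ => ∑ k, a k / q * x k) ⁻¹'
          (Set.Icc (-(1 / 4 : ℝ)) (1 / 4))) := measureReal_mono h2
    _ = (gaussianReal 0 1).real (Set.Icc (-(1 / 4 : ℝ)) (1 / 4)) := by
        rw [← h1, map_measureReal_apply (measurable_dot _) measurableSet_Icc]
    _ ≤ 1 / 5 := small_interval

lemma integral_exp_neg_sq : ∫ x, Real.exp (-x ^ 2) ∂(gaussianReal 0 1) = (Real.sqrt 3)⁻¹ := by
  rw [integral_gaussianReal_eq_integral_smul one_ne_zero]
  have h1 : ∀ x : ℝ, gaussianPDFReal 0 1 x • Real.exp (-x ^ 2) =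
      (Real.sqrt (2 * Real.pi))⁻¹ * Real.exp (-(3 / 2) * x ^ 2) := by
    intro x
    rw [gaussianPDFReal_def]
    simp only [NNReal.coe_one, mul_one, sub_zero, smul_eq_mul]
    rw [mul_assoc, ← Real.exp_add]
    congr 2
    ring
  simp only [h1]
  rw [integral_const_mul, integral_gaussian, ← Real.sqrt_inv, ← Real.sqrt_mul (by positivity),
    ← Real.sqrt_inv]
  congr 1
  have := Real.pi_pos
  field_simp

lemma integrable_exp_neg_sq : Integrable (fun x : ℝ => Real.exp (-x ^ 2)) (gaussianReal 0 1) := by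
  apply Integrable.mono' (integrable_const (1 : ℝ)) (by fun_prop)
  refine Filter.Eventually.of_forall fun x => ?_
  rw [Real.norm_eq_abs, abs_of_pos (Real.exp_pos _), Real.exp_le_one_iff]
  nlinarith [sq_nonneg x]

/-- The norm of a Gaussian vector is rarely small. -/
lemma gau_norm_small {r : ℕ} (hr : 12 ≤ r) :
    (gau (Fin r)).real {c | ∑ l, c l ^ 2 < r / 4} ≤ 1 / 20 := by
  set f : (Fin r → ℝ) → ℝ := fun c => ∏ l, Real.exp (-c l ^ 2) with hf
  have hint : ∫ c, f c ∂(gau (Fin r)) = (Real.sqrt 3)⁻¹ ^ r := by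
    rw [hf]
    unfold gau
    rw [integral_fintype_prod_eq_prod (fun _ (x : ℝ) => Real.exp (-x ^ 2))]
    simp only [integral_exp_neg_sq, prod_const, card_univ, Fintype.card_fin]
  have hfc : Continuous f := by rw [hf]; fun_prop
  have hf1 : ∀ c, f c ≤ 1 := by
    intro c
    rw [hf]
    refine prod_le_one (fun l _ => (Real.exp_pos _).le) fun l _ => ?_
    rw [Real.exp_le_one_iff]
    nlinarith [sq_nonneg (c l)]
  have hf0 : ∀ c, 0 ≤ f c := fun c => prod_nonneg fun l _ => (Real.exp_pos _).le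
  have hfi : Integrable f (gau (Fin r)) := by
    apply Integrable.mono' (integrable_const (1 : ℝ)) hfc.aestronglyMeasurable
    refine Filter.Eventually.of_forall fun x => ?_
    rw [Real.norm_eq_abs, abs_of_nonneg (hf0 x)]
    exact hf1 x
  have h1 := markov_real hfi hf0 hint.le (Real.exp_pos (-(r / 4 : ℝ)))
  have h2 : {c : Fin r → ℝ | ∑ l, c l ^ 2 < r / 4} ⊆ {c | Real.exp (-(r / 4 : ℝ)) < f c} := by
    intro c hc
    have hc : ∑ l, c l ^ 2 < r / 4 := hc
    show Real.exp (-(r / 4 : ℝ)) < ∏ l, Real.exp (-c l ^ 2)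
    rw [← Real.exp_sum, Real.exp_lt_exp, Finset.sum_neg_distrib]
    linarith
  refine (measureReal_mono h2).trans (h1.trans ?_)
  have h3 : (Real.sqrt 3)⁻¹ ^ r / Real.exp (-(r / 4 : ℝ)) =
      ((Real.sqrt 3)⁻¹ * Real.exp (1 / 4)) ^ r := by
    rw [mul_pow, ← Real.exp_nat_mul, div_eq_mul_inv, ← Real.exp_neg]
    congr 2
    ring
  rw [h3]
  have h4 : (Real.sqrt 3)⁻¹ * Real.exp (1 / 4) ≤ 77 / 100 := by
    have e1 : Real.exp (1 / 4) ≤ 13 / 10 := by
      have : Real.exp (1 / 4) ^ 4 ≤ (13 / 10) ^ 4 := by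
        rw [← Real.exp_nat_mul]
        norm_num
        have := Real.exp_one_lt_d9
        linarith
      exact le_of_pow_le_pow_left₀ (by norm_num) (by norm_num) this
    have e2 : (17 / 10 : ℝ) ≤ Real.sqrt 3 := by
      apply Real.le_sqrt_of_sq_le
      norm_num
    have e3 : (Real.sqrt 3)⁻¹ ≤ 10 / 17 := by
      rw [inv_le_comm₀ (by linarith) (by norm_num)]
      norm_num
      linarith
    have e4 : 0 ≤ (Real.sqrt 3)⁻¹ := by positivity
    have e5 := Real.exp_pos (1 / 4 : ℝ)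
    calc (Real.sqrt 3)⁻¹ * Real.exp (1 / 4) ≤ 10 / 17 * (13 / 10) :=
          mul_le_mul e3 e1 e5.le (by norm_num)
      _ ≤ 77 / 100 := by norm_num
  have h5 : 0 ≤ (Real.sqrt 3)⁻¹ * Real.exp (1 / 4) := by positivity
  calc ((Real.sqrt 3)⁻¹ * Real.exp (1 / 4)) ^ r ≤ (77 / 100) ^ r := pow_le_pow_left₀ h5 h4 r
    _ ≤ (77 / 100) ^ 12 := pow_le_pow_of_le_one (by norm_num) (by norm_num) hr
    _ ≤ 1 / 20 := by norm_num

end tails

end Run7.h993.OSI
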