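import Mathlib
import Pool.Agent.Run7.h993.OSI.Gauss
import Pool.Agent.Run7.h993.OSI.CoreDet
import Pool.Agent.Run7.h993.OSI.CoreReal

/-!
# The probabilistic part of the core estimate, for a fixed sample of the sketch
-/

namespace Run7.h993.OSI

open MeasureTheory ProbabilityTheory Matrix Finset Pool.Agent.H321R2.OSI

variable {n d k r : ℕ}

/-- view a vector indexed by pairs as a matrix -/
def mat (x : Fin n × Fin r → ℝ) : Matrix (Fin n) (Fin r) ℝ := Matrix.of fun i l => x (i, l)

lemma measurable_of_continuous' {α β : Type*} [TopologicalSpace α] [MeasurableSpace α]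
    [BorelSpace α] [TopologicalSpace β] [MeasurableSpace β] [BorelSpace β] {f : α → β}
    (hf : Continuous f) : Measurable f := hf.measurable

/-- a Gaussian matrix applied to a unit vector is a Gaussian vector -/
lemma map_mat_mulVec (u : Fin r → ℝ) (hu : sqn u = 1) :
    (gau (Fin n × Fin r)).map (fun x => mat x *ᵥ u) = gau (Fin n) := by
  have h1 := gau_map_mulVec (ι := Fin n) (κ := Fin n × Fin r)
    (Matrix.of fun i p => if i = p.1 then u p.2 else 0) (by
      ext i j
      rw [Matrix.mul_apply, Fintype.sum_prod_type]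
      simp only [Matrix.of_apply, Matrix.transpose_apply, ite_mul, zero_mul, mul_ite, mul_zero]
      rw [Matrix.one_apply]
      by_cases hij : i = j
      · subst hij
        rw [if_pos rfl, Finset.sum_eq_single i]
        · simp only [if_true]
          rw [← hu]
          exact sum_congr rfl fun l _ => (sq _).symm
        · intro b _ hb
          simp [Ne.symm hb]
        · intro h; exact absurd (mem_univ _) h
      · rw [if_neg hij]
        refine sum_eq_zero fun a _ => sum_eq_zero fun l _ => ?_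
        by_cases h1 : i = a
        · have : j ≠ a := fun h => hij (h1.trans h.symm)
          simp [this]
        · simp [h1])
  rw [← h1]
  congr 1
  funext x i
  simp only [mat, Matrix.mulVec, dotProduct, Matrix.of_apply, Fintype.sum_prod_type, ite_mul,
    zero_mul]
  rw [Finset.sum_eq_single i]
  · simp only [if_true]
    exact sum_congr rfl fun l _ => mul_comm _ _
  · intro b _ hb
    simp [Ne.symm hb]
  · intro h; exact absurd (mem_univ _) h

/-- orthogonal projection onto the complement of a unit vector -/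
def perp (ζ : Fin n → ℝ) : Matrix (Fin n) (Fin n) ℝ := 1 - Matrix.vecMulVec ζ ζ

lemma perp_mulVec (ζ g : Fin n → ℝ) : perp ζ *ᵥ g = g - (ζ ⬝ᵥ g) • ζ := by
  unfold perp
  rw [Matrix.sub_mulVec, Matrix.one_mulVec, Matrix.vecMulVec_mulVec]
  simp

lemma vecMulVec_transpose' (ζ : Fin n → ℝ) :
    (Matrix.vecMulVec ζ ζ)ᵀ = Matrix.vecMulVec ζ ζ := by
  ext i j
  simp [Matrix.vecMulVec_apply, mul_comm]

lemma vecMulVec_idem (ζ : Fin n → ℝ) (hζ : sqn ζ = 1) :
    Matrix.vecMulVec ζ ζ * Matrix.vecMulVec ζ ζ = Matrix.vecMulVec ζ ζ := by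
  ext i j
  rw [Matrix.mul_apply]
  simp only [Matrix.vecMulVec_apply]
  have : ∑ x, ζ i * ζ x * (ζ x * ζ j) = ζ i * ζ j * sqn ζ := by
    unfold sqn
    rw [mul_sum]
    exact sum_congr rfl fun x _ => by ring
  rw [this, hζ, mul_one]

lemma perp_mul_transpose (ζ : Fin n → ℝ) (hζ : sqn ζ = 1) :
    perp ζ * (perp ζ)ᵀ + Matrix.vecMulVec ζ ζ = 1 := by
  unfold perp
  rw [Matrix.transpose_sub, Matrix.transpose_one, vecMulVec_transpose', Matrix.sub_mul,
    Matrix.mul_sub, Matrix.mul_sub, vecMulVec_idem ζ hζ]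
  simp

/-- resampling the component along `ζ` of a Gaussian vector -/
lemma map_resample (ζ : Fin n → ℝ) (hζ : sqn ζ = 1) (s : ℝ) (hs : s ^ 2 = 1) :
    ((gau (Fin n)).prod (gau (Fin 1))).map (fun p => perp ζ *ᵥ p.1 + (s * p.2 0) • ζ) =
      gau (Fin n) := by
  have h1 := gau_map_add (ι := Fin n) (κ := Fin n) (κ' := Fin 1) (perp ζ)
    (Matrix.of fun i _ => s * ζ i) (by
      rw [← perp_mul_transpose ζ hζ]
      congr 1
      ext i j
      rw [Matrix.mul_apply]
      simp only [Matrix.of_apply, Matrix.transpose_apply, univ_unique, sum_singleton,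
        Matrix.vecMulVec_apply]
      linear_combination (ζ i * ζ j) * hs)
  refine Eq.trans ?_ h1
  congr 1
  funext p i
  simp [Matrix.mulVec, dotProduct]
  ring

lemma resample_aux (A : Matrix (Fin n) (Fin n) ℝ) (ζ : Fin n → ℝ)
    (hA : A * Aᵀ + Matrix.vecMulVec ζ ζ = 1) (s s' : ℝ) (hs : s ^ 2 = 1) (hs' : s' ^ 2 = 1) :
    (Matrix.of fun (p : Fin n × Fin r) (q : Fin n × Fin r) =>
      if p.2 = q.2 then s * A p.1 q.1 else 0) *
    (Matrix.of fun (p : Fin n × Fin r) (q : Fin n × Fin r) =>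
      if p.2 = q.2 then s * A p.1 q.1 else 0)ᵀ +
    (Matrix.of fun (p : Fin n × Fin r) (l : Fin r) => if p.2 = l then s' * ζ p.1 else 0) *
    (Matrix.of fun (p : Fin n × Fin r) (l : Fin r) => if p.2 = l then s' * ζ p.1 else 0)ᵀ =
    1 := by
  ext p q
  obtain ⟨i, l⟩ := p
  obtain ⟨j, m⟩ := q
  rw [Matrix.add_apply, Matrix.mul_apply, Matrix.mul_apply, Fintype.sum_prod_type]
  have hP := congrFun (congrFun hA i) j
  rw [Matrix.add_apply, Matrix.mul_apply] at hP
  simp only [Matrix.transpose_apply, Matrix.vecMulVec_apply] at hP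
  simp only [Matrix.of_apply, Matrix.transpose_apply]
  by_cases h2 : l = m
  · subst h2
    have e1 : ∀ a : Fin n, ∑ x : Fin r, (if l = x then s * A i a else 0) *
        (if l = x then s * A j a else 0) = A i a * A j a := by
      intro a
      rw [Finset.sum_eq_single l]
      · rw [if_pos rfl, if_pos rfl]
        linear_combination (A i a * A j a) * hs
      · intro b _ hb
        rw [if_neg (Ne.symm hb), zero_mul]
      · intro h; exact absurd (mem_univ _) h
    have e2 : ∑ x : Fin r, (if l = x then s' * ζ i else 0) * (if l = x then s' * ζ j else 0) =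
        ζ i * ζ j := by
      rw [Finset.sum_eq_single l]
      · rw [if_pos rfl, if_pos rfl]
        linear_combination (ζ i * ζ j) * hs'
      · intro b _ hb
        rw [if_neg (Ne.symm hb), zero_mul]
      · intro h; exact absurd (mem_univ _) h
    simp only [e1, e2]
    rw [hP, Matrix.one_apply, Matrix.one_apply]
    simp
  · have e1 : ∀ a : Fin n, ∑ x : Fin r, (if l = x then s * A i a else 0) *
        (if m = x then s * A j a else 0) = 0 := by
      intro a
      refine sum_eq_zero fun x _ => ?_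
      by_cases h3 : l = x
      · have : m ≠ x := fun h => h2 (h3.trans h.symm)
        rw [if_neg this, mul_zero]
      · rw [if_neg h3, zero_mul]
    have e2 : ∑ x : Fin r, (if l = x then s' * ζ i else 0) * (if m = x then s' * ζ j else 0) =
        0 := by
      refine sum_eq_zero fun x _ => ?_
      by_cases h3 : l = x
      · have : m ≠ x := fun h => h2 (h3.trans h.symm)
        rw [if_neg this, mul_zero]
      · rw [if_neg h3, zero_mul]
    simp only [e1, e2, sum_const_zero, add_zero]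
    rw [Matrix.one_apply_ne (by simp [h2])]

/-- resampling the component along `ζ` of a Gaussian matrix -/
lemma map_resample_mat (ζ : Fin n → ℝ) (hζ : sqn ζ = 1) (s s' : ℝ) (hs : s ^ 2 = 1)
    (hs' : s' ^ 2 = 1) :
    ((gau (Fin n × Fin r)).prod (gau (Fin r))).map
      (fun p => fun q : Fin n × Fin r => s * (perp ζ * mat p.1) q.1 q.2 + s' * (ζ q.1 * p.2 q.2)) =
      gau (Fin n × Fin r) := by
  have h1 := gau_map_add (ι := Fin n × Fin r) (κ := Fin n × Fin r) (κ' := Fin r) _ _
    (resample_aux (r := r) (perp ζ) ζ (perp_mul_transpose ζ hζ) s s' hs hs')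
  refine Eq.trans ?_ h1
  congr 1
  funext p q
  obtain ⟨i, l⟩ := q
  have e1 : ((Matrix.of fun (p : Fin n × Fin r) (q : Fin n × Fin r) =>
      if p.2 = q.2 then s * perp ζ p.1 q.1 else 0) *ᵥ p.1) (i, l) =
      s * (perp ζ * mat p.1) i l := by
    simp only [Matrix.mulVec, dotProduct, Matrix.of_apply, Fintype.sum_prod_type,
      Matrix.mul_apply, mat, mul_sum]
    refine sum_congr rfl fun a _ => ?_
    rw [Finset.sum_eq_single l]
    · rw [if_pos rfl]; ring
    · intro b _ hb
      rw [if_neg (Ne.symm hb), zero_mul]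
    · intro h; exact absurd (mem_univ _) h
  have e2 : ((Matrix.of fun (p : Fin n × Fin r) (l : Fin r) =>
      if p.2 = l then s' * ζ p.1 else 0) *ᵥ p.2) (i, l) = s' * (ζ i * p.2 l) := by
    simp only [Matrix.mulVec, dotProduct, Matrix.of_apply]
    rw [Finset.sum_eq_single l]
    · rw [if_pos rfl]; ring
    · intro b _ hb
      rw [if_neg (Ne.symm hb), zero_mul]
    · intro h; exact absurd (mem_univ _) h
  rw [Pi.add_apply, e1, e2]

section general

variable {α β : Type*} [MeasurableSpace α] [MeasurableSpace β]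

lemma real_le_of_map {μ : Measure α} {ν : Measure β} [IsProbabilityMeasure ν] {f : α → β}
    (hf : Measurable f) (h : μ.map f = ν) (s : Set β) : μ.real (f ⁻¹' s) ≤ ν.real s := by
  have h1 : μ (f ⁻¹' s) ≤ ν s := by
    rw [← h]
    exact Measure.le_map_apply hf.aemeasurable s
  exact ENNReal.toReal_mono (measure_ne_top _ _) h1

lemma prod_real_le {μ : Measure α} {ν : Measure β} [IsProbabilityMeasure μ]
    [IsProbabilityMeasure ν] {B : Set (α × β)} (hB : MeasurableSet B) {p : ℝ} (hp : 0 ≤ p)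
    (h : ∀ b, μ.real {a | (a, b) ∈ B} ≤ p) : (μ.prod ν).real B ≤ p := by
  have h1 : (μ.prod ν) B ≤ ENNReal.ofReal p := by
    rw [Measure.prod_apply_symm hB]
    calc ∫⁻ y, μ ((fun x => (x, y)) ⁻¹' B) ∂ν ≤ ∫⁻ _y, ENNReal.ofReal p ∂ν := by
          refine lintegral_mono fun y => ?_
          have h2 := h y
          rw [Measure.real] at h2
          exact (ENNReal.le_ofReal_iff_toReal_le (measure_ne_top _ _) hp).2 h2
      _ = ENNReal.ofReal p := by simp
  rw [Measure.real]
  exact (ENNReal.toReal_mono ENNReal.ofReal_ne_top h1).trans (ENNReal.toReal_ofReal hp).le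

end general

lemma continuous_mulVec' {ι κ : Type*} [Fintype κ] (M : Matrix ι κ ℝ) :
    Continuous fun x : κ → ℝ => M *ᵥ x := by
  unfold Matrix.mulVec dotProduct
  fun_prop

lemma continuous_exc (M : Matrix (Fin k) (Fin r) ℝ) (F : Matrix (Fin d) (Fin r) ℝ) (ε : ℝ) :
    Continuous fun v => exc M F ε v := by
  unfold exc sqn Matrix.mulVec dotProduct
  fun_prop

lemma exc_zero (M : Matrix (Fin k) (Fin r) ℝ) (F : Matrix (Fin d) (Fin r) ℝ) (ε : ℝ) :
    exc M F ε 0 = 0 := by
  unfold exc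
  simp [sqn_zero]

lemma normal_sq_le_two : (1 / 2 : ℝ) ≤ (gau (Fin 1)).real {a | (a 0) ^ 2 ≤ 2} := by
  have h1 : Integrable (fun a : Fin 1 → ℝ => (a 0) ^ 2) (gau (Fin 1)) := by
    have := integrable_dot_sq (κ := Fin 1) (fun _ => 1)
    simpa using this
  have h2 : ∫ a, (a 0) ^ 2 ∂(gau (Fin 1)) = 1 := by
    have := integral_dot_sq (κ := Fin 1) (fun _ => 1)
    simpa using this
  have h3 := markov_real h1 (fun a => sq_nonneg _) h2.le (by norm_num : (0 : ℝ) < 2)
  have hm : MeasurableSet {a : Fin 1 → ℝ | (a 0) ^ 2 ≤ 2} :=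
    measurableSet_le (by fun_prop) measurable_const
  have h4 : {a : Fin 1 → ℝ | (a 0) ^ 2 ≤ 2}ᶜ = {a | 2 < (a 0) ^ 2} := by
    ext a
    simp
  have h5 := probReal_compl_eq_one_sub (μ := gau (Fin 1)) hm
  rw [h4] at h5
  linarith

/-- Removing the component along `ζ` costs little. -/
lemma perp_bound (N : Matrix (Fin k) (Fin n) ℝ) (F : Matrix (Fin d) (Fin n) ℝ) (ε τ : ℝ)
    (hε0 : 0 ≤ ε) (h : (gau (Fin n)).real {g | τ < exc N F ε g} ≤ 1 / 1000)
    (ζ : Fin n → ℝ) (hζ : sqn ζ = 1) :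
    (gau (Fin n)).real {g | τ + 2 * sqn (F *ᵥ ζ) < exc N F ε (perp ζ *ᵥ g)} ≤ 4 / 1000 := by
  set A := {g | τ + 2 * sqn (F *ᵥ ζ) < exc N F ε (perp ζ *ᵥ g)} with hA
  set T := {g | τ < exc N F ε g} with hT
  set Q := {a : Fin 1 → ℝ | (a 0) ^ 2 ≤ 2} with hQ
  set f : ℝ → (Fin n → ℝ) × (Fin 1 → ℝ) → Fin n → ℝ :=
    fun s p => perp ζ *ᵥ p.1 + (s * p.2 0) • ζ with hf
  have hfm : ∀ s, Measurable (f s) := by
    intro s
    have : Continuous (f s) := by
      rw [hf]
      apply Continuous.add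
      · exact (continuous_mulVec' _).comp continuous_fst
      · fun_prop
    exact this.measurable
  have h1 : ((gau (Fin n)).prod (gau (Fin 1))).real (f 1 ⁻¹' T) ≤ 1 / 1000 :=
    (real_le_of_map (hfm 1) (map_resample ζ hζ 1 (by norm_num)) T).trans h
  have h2 : ((gau (Fin n)).prod (gau (Fin 1))).real (f (-1) ⁻¹' T) ≤ 1 / 1000 :=
    (real_le_of_map (hfm (-1)) (map_resample ζ hζ (-1) (by norm_num)) T).trans h
  have hsub : A ×ˢ Q ⊆ f 1 ⁻¹' T ∪ f (-1) ⁻¹' T := by
    rintro ⟨g, a⟩ ⟨hg, ha⟩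
    have hg : τ + 2 * sqn (F *ᵥ ζ) < exc N F ε (perp ζ *ᵥ g) := hg
    have ha : (a 0) ^ 2 ≤ 2 := ha
    have e1 : f 1 (g, a) = perp ζ *ᵥ g + (a 0) • ζ := by
      rw [hf]; simp
    have e2 : f (-1) (g, a) = perp ζ *ᵥ g - (a 0) • ζ := by
      rw [hf]
      simp only [neg_mul, one_mul, neg_smul]
      abel
    have e3 := exc_par N F ε (perp ζ *ᵥ g) ((a 0) • ζ)
    rw [exc_smul] at e3
    by_contra hcon
    rw [Set.mem_union, not_or] at hcon
    have c1 : ¬ τ < exc N F ε (f 1 (g, a)) := hcon.1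
    have c2 : ¬ τ < exc N F ε (f (-1) (g, a)) := hcon.2
    rw [e1] at c1
    rw [e2] at c2
    push Not at c1 c2
    have e4 : -(sqn (F *ᵥ ζ)) ≤ exc N F ε ζ := by
      unfold exc
      have := sqn_nonneg (N *ᵥ ζ)
      have := sqn_nonneg (F *ᵥ ζ)
      nlinarith
    have e5 : 0 ≤ sqn (F *ᵥ ζ) := sqn_nonneg _
    have e6 : (a 0) ^ 2 * (-(sqn (F *ᵥ ζ))) ≤ (a 0) ^ 2 * exc N F ε ζ :=
      mul_le_mul_of_nonneg_left e4 (sq_nonneg _)
    nlinarith
  have h3 : (gau (Fin n)).real A * (gau (Fin 1)).real Q ≤ 2 / 1000 := by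
    rw [← measureReal_prod_prod]
    refine (measureReal_mono hsub).trans ((measureReal_union_le _ _).trans ?_)
    linarith
  have h4 := normal_sq_le_two
  have h5 : 0 ≤ (gau (Fin n)).real A := measureReal_nonneg
  have h6 : (gau (Fin n)).real A * (1 / 2) ≤ (gau (Fin n)).real A * (gau (Fin 1)).real Q :=
    mul_le_mul_of_nonneg_left h4 h5
  linarith

lemma continuous_mat_mulVec :
    Continuous fun p : (Fin n × Fin r → ℝ) × (Fin r → ℝ) => mat p.1 *ᵥ p.2 := by
  unfold mat Matrix.mulVec dotProduct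
  simp only [Matrix.of_apply]
  fun_prop

lemma perp_bound_mat (N : Matrix (Fin k) (Fin n) ℝ) (F : Matrix (Fin d) (Fin n) ℝ) (ε τ : ℝ)
    (hε0 : 0 ≤ ε) (h : (gau (Fin n)).real {g | τ < exc N F ε g} ≤ 1 / 1000)
    (ζ : Fin n → ℝ) (hζ : sqn ζ = 1) (m : Fin r → ℝ) :
    (gau (Fin n × Fin r)).real {x | sqn m * (τ + 2 * sqn (F *ᵥ ζ)) <
      exc N F ε (perp ζ *ᵥ (mat x *ᵥ m))} ≤ 4 / 1000 := by
  by_cases hm : sqn m = 0
  · have hm0 : m = 0 := eq_zero_of_sqn hm
    have : {x : Fin n × Fin r → ℝ | sqn m * (τ + 2 * sqn (F *ᵥ ζ)) <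
        exc N F ε (perp ζ *ᵥ (mat x *ᵥ m))} = ∅ := by
      ext x
      simp only [Set.mem_ofPred_eq, Set.mem_empty_iff_false, iff_false, not_lt]
      rw [hm0, Matrix.mulVec_zero, Matrix.mulVec_zero, exc_zero, sqn_zero, zero_mul]
    rw [this]
    simp
    norm_num
  · have hpos : 0 < sqn m := lt_of_le_of_ne (sqn_nonneg m) (Ne.symm hm)
    set q := Real.sqrt (sqn m) with hq
    have hq0 : 0 < q := Real.sqrt_pos.2 hpos
    have hq2 : q ^ 2 = sqn m := Real.sq_sqrt hpos.le
    set u := q⁻¹ • m with hu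
    have hu1 : sqn u = 1 := by
      rw [hu, sqn_smul', ← hq2]
      field_simp
    have hmu : m = q • u := by
      rw [hu, smul_smul, mul_inv_cancel₀ hq0.ne', one_smul]
    have hset : {x : Fin n × Fin r → ℝ | sqn m * (τ + 2 * sqn (F *ᵥ ζ)) <
        exc N F ε (perp ζ *ᵥ (mat x *ᵥ m))} ⊆ (fun x : Fin n × Fin r → ℝ => mat x *ᵥ u) ⁻¹'
        {g | τ + 2 * sqn (F *ᵥ ζ) < exc N F ε (perp ζ *ᵥ g)} := by
      intro x hx
      rw [Set.mem_ofPred_eq, ← hq2, hmu, Matrix.mulVec_smul, Matrix.mulVec_smul, exc_smul] at hx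
      exact lt_of_mul_lt_mul_left hx (by positivity)
    have hmeas : Measurable fun x : Fin n × Fin r → ℝ => mat x *ᵥ u := by
      have : Continuous fun x : Fin n × Fin r → ℝ => mat x *ᵥ u :=
        continuous_mat_mulVec.comp (by fun_prop : Continuous fun x : Fin n × Fin r → ℝ => (x, u))
      exact this.measurable
    refine (measureReal_mono hset).trans ?_
    exact (real_le_of_map hmeas (map_mat_mulVec u hu1) _).trans
      (perp_bound N F ε τ hε0 h ζ hζ)

end Run7.h993.OSI
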