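import Mathlib
import Pool.Agent.Run7.h993.OSI.CoreProb

/-!
# Existence of a good test point
-/

namespace Run7.h993.OSI

open MeasureTheory ProbabilityTheory Matrix Finset Pool.Agent.H321R2.OSI

variable {n d k r : ℕ}

/-- the set of Gaussian matrices whose test subspace is injected -/
def GoodG (M : Matrix (Fin k) (Fin r) ℝ) (N : Matrix (Fin k) (Fin n) ℝ)
    (F : Matrix (Fin d) (Fin n) ℝ) (ε t : ℝ) : Set (Fin n × Fin r → ℝ) :=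
  {x | ∀ v, 0 ≤ qf M N F ε v (t • (mat x *ᵥ v))}

lemma integrable_sqn_mulVec (M : Matrix (Fin k) (Fin r) ℝ) :
    Integrable (fun c => sqn (M *ᵥ c)) (gau (Fin r)) := by
  unfold sqn Matrix.mulVec dotProduct
  exact integrable_finsetSum _ fun j _ => integrable_dot_sq _

lemma integral_sqn_mulVec (M : Matrix (Fin k) (Fin r) ℝ) :
    ∫ c, sqn (M *ᵥ c) ∂(gau (Fin r)) = ∑ j, ∑ l, M j l ^ 2 := by
  unfold sqn Matrix.mulVec dotProduct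
  rw [integral_finsetSum _ fun j _ => integrable_dot_sq _]
  exact sum_congr rfl fun j _ => integral_dot_sq _

lemma integrable_exc (M : Matrix (Fin k) (Fin r) ℝ) (F : Matrix (Fin d) (Fin r) ℝ) (ε : ℝ) :
    Integrable (fun c => exc M F ε c) (gau (Fin r)) := by
  unfold exc
  exact (integrable_sqn_mulVec M).sub ((integrable_sqn_mulVec F).const_mul _)

lemma integral_exc (M : Matrix (Fin k) (Fin r) ℝ) (F : Matrix (Fin d) (Fin r) ℝ) (ε : ℝ) :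
    ∫ c, exc M F ε c ∂(gau (Fin r)) = ∑ l, exc M F ε (Pi.single l 1) := by
  unfold exc
  rw [integral_sub (integrable_sqn_mulVec M) ((integrable_sqn_mulVec F).const_mul _),
    integral_const_mul, integral_sqn_mulVec, integral_sqn_mulVec, sum_sub_distrib, ← mul_sum]
  have h1 : ∀ {j : ℕ} (M : Matrix (Fin j) (Fin r) ℝ), ∑ j, ∑ l, M j l ^ 2 =
      ∑ l, sqn (M *ᵥ Pi.single l 1) := by
    intro j M
    rw [sum_comm]
    refine sum_congr rfl fun l _ => ?_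
    unfold sqn
    refine sum_congr rfl fun i _ => ?_
    simp
  rw [h1, h1]

lemma exists_point (M : Matrix (Fin k) (Fin r) ℝ) (N : Matrix (Fin k) (Fin n) ℝ)
    (F : Matrix (Fin d) (Fin n) ℝ) (ε t τ D : ℝ) (hε0 : 0 ≤ ε) (hr : 12 ≤ r)
    (hT2 : (gau (Fin n)).real {g | τ < exc N F ε g} ≤ 1 / 1000)
    (hT3 : (gau (Fin n × Fin r)).real (GoodG M N F ε t)ᶜ ≤ 1 / 100)
    (hI : ∀ v, 0 ≤ hd M ε v) (hT1 : ∑ l, hd M ε (Pi.single l 1) ≤ D) (hD : 0 < D)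
    (ζ : Fin n → ℝ) (hζ : sqn ζ = 1) (φ w m : Fin r → ℝ) (hw : sqn w = 1) :
    ∃ (x : Fin n × Fin r → ℝ) (c : Fin r → ℝ), (r : ℝ) / 4 ≤ sqn c ∧
      (c ⬝ᵥ φ) ^ 2 ≤ 20 * sqn φ ∧ (c ⬝ᵥ w) ^ 2 ≤ 20 ∧ hd M ε c ≤ 20 * D ∧
      exc N F ε (perp ζ *ᵥ (mat x *ᵥ c)) ≤ sqn c * (τ + 2 * sqn (F *ᵥ ζ)) ∧
      exc N F ε (perp ζ *ᵥ (mat x *ᵥ (sqn c • m - (c ⬝ᵥ m) • c))) ≤
        sqn (sqn c • m - (c ⬝ᵥ m) • c) * (τ + 2 * sqn (F *ᵥ ζ)) ∧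
      ∀ s s' : ℝ, (s = 1 ∨ s = -1) → (s' = 1 ∨ s' = -1) →
        (fun q : Fin n × Fin r => s * (perp ζ * mat x) q.1 q.2 + s' * (ζ q.1 * c q.2)) ∈
          GoodG M N F ε t := by
  set μ := gau (Fin n × Fin r) with hμ
  set ν := gau (Fin r) with hν
  -- events on `c`
  have hsnd : ∀ C : Set (Fin r → ℝ), (μ.prod ν).real (Prod.snd ⁻¹' C) ≤ ν.real C := by
    intro C
    refine real_le_of_map measurable_snd ?_ C
    rw [Measure.map_snd_prod]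
    simp
  set C1 := {c : Fin r → ℝ | ∑ l, c l ^ 2 < r / 4} with hC1
  have b1 : ν.real C1 ≤ 1 / 20 := gau_norm_small hr
  have hdot : ∀ φ : Fin r → ℝ, ν.real {c : Fin r → ℝ | 20 * sqn φ < (c ⬝ᵥ φ) ^ 2} ≤ 1 / 20 := by
    intro φ
    have e0 : ∀ c : Fin r → ℝ, (c ⬝ᵥ φ) ^ 2 = (∑ l, φ l * c l) ^ 2 := by
      intro c
      rw [dotProduct]
      congr 1
      exact sum_congr rfl fun l _ => mul_comm _ _
    by_cases hφ : sqn φ = 0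
    · have hφ0 : φ = 0 := eq_zero_of_sqn hφ
      have : {c : Fin r → ℝ | 20 * sqn φ < (c ⬝ᵥ φ) ^ 2} = ∅ := by
        ext c
        simp only [Set.mem_ofPred_eq, Set.mem_empty_iff_false, iff_false, not_lt]
        rw [hφ0]
        simp [sqn_zero]
      rw [this]
      simp
    · have hpos : 0 < sqn φ := lt_of_le_of_ne (sqn_nonneg φ) (Ne.symm hφ)
      have h1 := markov_real (integrable_dot_sq φ) (fun x => sq_nonneg _)
        (integral_dot_sq φ).le (by positivity : 0 < 20 * sqn φ)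
      simp only [e0]
      refine h1.trans ?_
      have : ∑ l, φ l ^ 2 = sqn φ := rfl
      rw [this, div_le_iff₀ (by positivity)]
      linarith
  set C2 := {c : Fin r → ℝ | 20 * sqn φ < (c ⬝ᵥ φ) ^ 2} with hC2
  have b2 : ν.real C2 ≤ 1 / 20 := hdot φ
  set C3 := {c : Fin r → ℝ | 20 * sqn w < (c ⬝ᵥ w) ^ 2} with hC3
  have b3 : ν.real C3 ≤ 1 / 20 := hdot w
  set C4 := {c : Fin r → ℝ | 20 * D < hd M ε c} with hC4
  have b4 : ν.real C4 ≤ 1 / 20 := by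
    have e1 : ∀ c, hd M ε c = exc M (1 : Matrix (Fin r) (Fin r) ℝ) ε c := hd_eq M ε
    have e2 : ∫ c, hd M ε c ∂ν ≤ D := by
      simp only [e1] at hT1 ⊢
      rw [integral_exc]
      exact hT1
    have e3 : Integrable (fun c => hd M ε c) ν := by
      simp only [e1]
      exact integrable_exc M _ ε
    have h1 := markov_real e3 hI e2 (by positivity : 0 < 20 * D)
    refine h1.trans ?_
    rw [div_le_iff₀ (by positivity)]
    linarith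
  -- events on `(x, c)`
  set T := τ + 2 * sqn (F *ᵥ ζ) with hT
  set O := {p : (Fin n × Fin r → ℝ) × (Fin r → ℝ) |
    sqn p.2 * T < exc N F ε (perp ζ *ᵥ (mat p.1 *ᵥ p.2))} with hO
  have hOm : MeasurableSet O := by
    have h1 : Continuous fun p : (Fin n × Fin r → ℝ) × (Fin r → ℝ) => sqn p.2 * T := by
      unfold sqn
      fun_prop
    have h2 : Continuous fun p : (Fin n × Fin r → ℝ) × (Fin r → ℝ) =>
        exc N F ε (perp ζ *ᵥ (mat p.1 *ᵥ p.2)) :=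
      (continuous_exc N F ε).comp ((continuous_mulVec' _).comp continuous_mat_mulVec)
    exact (isOpen_lt h1 h2).measurableSet
  have hOb : ∀ f : (Fin r → ℝ) → (Fin r → ℝ), Continuous f →
      (μ.prod ν).real {p | (p.1, f p.2) ∈ O} ≤ 4 / 1000 := by
    intro f hf
    apply prod_real_le
    · have : Measurable fun p : (Fin n × Fin r → ℝ) × (Fin r → ℝ) => (p.1, f p.2) := by
        have h3 : Continuous fun p : (Fin n × Fin r → ℝ) × (Fin r → ℝ) => (p.1, f p.2) :=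
          continuous_fst.prodMk (hf.comp continuous_snd)
        exact h3.measurable
      exact this hOm
    · norm_num
    · intro c
      exact perp_bound_mat N F ε τ hε0 hT2 ζ hζ (f c)
  set E5 := {p : (Fin n × Fin r → ℝ) × (Fin r → ℝ) | (p.1, id p.2) ∈ O} with hE5
  have b5 : (μ.prod ν).real E5 ≤ 4 / 1000 := hOb id continuous_id
  set f6 : (Fin r → ℝ) → (Fin r → ℝ) := fun c => sqn c • m - (c ⬝ᵥ m) • c with hf6
  have hf6c : Continuous f6 := by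
    rw [hf6]
    unfold sqn dotProduct
    fun_prop
  set E6 := {p : (Fin n × Fin r → ℝ) × (Fin r → ℝ) | (p.1, f6 p.2) ∈ O} with hE6
  have b6 : (μ.prod ν).real E6 ≤ 4 / 1000 := hOb f6 hf6c
  set G : ℝ → ℝ → (Fin n × Fin r → ℝ) × (Fin r → ℝ) → (Fin n × Fin r → ℝ) :=
    fun s s' p => fun q : Fin n × Fin r =>
      s * (perp ζ * mat p.1) q.1 q.2 + s' * (ζ q.1 * p.2 q.2) with hG
  have hGm : ∀ s s', Measurable (G s s') := by
    intro s s'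
    have : Continuous (G s s') := by
      rw [hG]
      simp only [Matrix.mul_apply, mat, Matrix.of_apply]
      fun_prop
    exact this.measurable
  have b7 : ∀ s s' : ℝ, s ^ 2 = 1 → s' ^ 2 = 1 →
      (μ.prod ν).real (G s s' ⁻¹' (GoodG M N F ε t)ᶜ) ≤ 1 / 100 := by
    intro s s' hs hs'
    exact (real_le_of_map (hGm s s') (map_resample_mat ζ hζ s s' hs hs') _).trans hT3
  -- the union
  set Bad := (Prod.snd ⁻¹' C1 ∪ (Prod.snd ⁻¹' C2 ∪ (Prod.snd ⁻¹' C3 ∪ (Prod.snd ⁻¹' C4 ∪ (E5 ∪ (E6 ∪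
    (G 1 1 ⁻¹' (GoodG M N F ε t)ᶜ ∪ (G 1 (-1) ⁻¹' (GoodG M N F ε t)ᶜ ∪
    (G (-1) 1 ⁻¹' (GoodG M N F ε t)ᶜ ∪ G (-1) (-1) ⁻¹' (GoodG M N F ε t)ᶜ)))))))) :
    Set ((Fin n × Fin r → ℝ) × (Fin r → ℝ))) with hBad
  have hlt : (μ.prod ν).real Bad < 1 := by
    have u1 := (hsnd C1).trans b1
    have u2 := (hsnd C2).trans b2
    have u3 := (hsnd C3).trans b3
    have u4 := (hsnd C4).trans b4
    have u7 := b7 1 1 (by norm_num) (by norm_num)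
    have u8 := b7 1 (-1) (by norm_num) (by norm_num)
    have u9 := b7 (-1) 1 (by norm_num) (by norm_num)
    have u10 := b7 (-1) (-1) (by norm_num) (by norm_num)
    have v9 := measureReal_union_le (μ := μ.prod ν) (G (-1) 1 ⁻¹' (GoodG M N F ε t)ᶜ)
      (G (-1) (-1) ⁻¹' (GoodG M N F ε t)ᶜ)
    have v8 := measureReal_union_le (μ := μ.prod ν) (G 1 (-1) ⁻¹' (GoodG M N F ε t)ᶜ)
      (G (-1) 1 ⁻¹' (GoodG M N F ε t)ᶜ ∪ G (-1) (-1) ⁻¹' (GoodG M N F ε t)ᶜ)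
    have v7 := measureReal_union_le (μ := μ.prod ν) (G 1 1 ⁻¹' (GoodG M N F ε t)ᶜ)
      (G 1 (-1) ⁻¹' (GoodG M N F ε t)ᶜ ∪
      (G (-1) 1 ⁻¹' (GoodG M N F ε t)ᶜ ∪ G (-1) (-1) ⁻¹' (GoodG M N F ε t)ᶜ))
    have v6 := measureReal_union_le (μ := μ.prod ν) E6 (G 1 1 ⁻¹' (GoodG M N F ε t)ᶜ ∪
      (G 1 (-1) ⁻¹' (GoodG M N F ε t)ᶜ ∪
      (G (-1) 1 ⁻¹' (GoodG M N F ε t)ᶜ ∪ G (-1) (-1) ⁻¹' (GoodG M N F ε t)ᶜ)))
    have v5 := measureReal_union_le (μ := μ.prod ν) E5 (E6 ∪ (G 1 1 ⁻¹' (GoodG M N F ε t)ᶜ ∪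
      (G 1 (-1) ⁻¹' (GoodG M N F ε t)ᶜ ∪
      (G (-1) 1 ⁻¹' (GoodG M N F ε t)ᶜ ∪ G (-1) (-1) ⁻¹' (GoodG M N F ε t)ᶜ))))
    have v4 := measureReal_union_le (μ := μ.prod ν) (Prod.snd ⁻¹' C4) (E5 ∪ (E6 ∪
      (G 1 1 ⁻¹' (GoodG M N F ε t)ᶜ ∪ (G 1 (-1) ⁻¹' (GoodG M N F ε t)ᶜ ∪
      (G (-1) 1 ⁻¹' (GoodG M N F ε t)ᶜ ∪ G (-1) (-1) ⁻¹' (GoodG M N F ε t)ᶜ)))))
    have v3 := measureReal_union_le (μ := μ.prod ν) (Prod.snd ⁻¹' C3)
      (Prod.snd ⁻¹' C4 ∪ (E5 ∪ (E6 ∪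
      (G 1 1 ⁻¹' (GoodG M N F ε t)ᶜ ∪ (G 1 (-1) ⁻¹' (GoodG M N F ε t)ᶜ ∪
      (G (-1) 1 ⁻¹' (GoodG M N F ε t)ᶜ ∪ G (-1) (-1) ⁻¹' (GoodG M N F ε t)ᶜ))))))
    have v2 := measureReal_union_le (μ := μ.prod ν) (Prod.snd ⁻¹' C2) (Prod.snd ⁻¹' C3 ∪
      (Prod.snd ⁻¹' C4 ∪ (E5 ∪ (E6 ∪
      (G 1 1 ⁻¹' (GoodG M N F ε t)ᶜ ∪ (G 1 (-1) ⁻¹' (GoodG M N F ε t)ᶜ ∪
      (G (-1) 1 ⁻¹' (GoodG M N F ε t)ᶜ ∪ G (-1) (-1) ⁻¹' (GoodG M N F ε t)ᶜ)))))))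
    have v1 := measureReal_union_le (μ := μ.prod ν) (Prod.snd ⁻¹' C1) (Prod.snd ⁻¹' C2 ∪
      (Prod.snd ⁻¹' C3 ∪ (Prod.snd ⁻¹' C4 ∪ (E5 ∪ (E6 ∪
      (G 1 1 ⁻¹' (GoodG M N F ε t)ᶜ ∪ (G 1 (-1) ⁻¹' (GoodG M N F ε t)ᶜ ∪
      (G (-1) 1 ⁻¹' (GoodG M N F ε t)ᶜ ∪ G (-1) (-1) ⁻¹' (GoodG M N F ε t)ᶜ))))))))
    rw [← hBad] at v1
    linarith
  have hne : ∃ p, p ∉ Bad := by
    by_contra hcon
    push Not at hcon
    have : Bad = Set.univ := Set.eq_univ_of_forall hcon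
    rw [this] at hlt
    simp at hlt
  obtain ⟨⟨x, c⟩, hp⟩ := hne
  simp only [hBad, Set.mem_union, Set.mem_preimage, not_or, Set.mem_compl_iff, not_not] at hp
  obtain ⟨p1, p2, p3, p4, p5, p6, p7, p8, p9, p10⟩ := hp
  refine ⟨x, c, not_lt.1 p1, not_lt.1 p2, ?_, not_lt.1 p4, not_lt.1 p5, not_lt.1 p6, ?_⟩
  · have p3' : ¬ 20 * sqn w < (c ⬝ᵥ w) ^ 2 := p3
    rw [hw] at p3'
    linarith
  · rintro s s' (rfl | rfl) (rfl | rfl)
    · exact p7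
    · exact p8
    · exact p9
    · exact p10

end Run7.h993.OSI
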