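import Mathlib
import Pool.Agent.Run7.h993.OSI.CorePoint

/-!
# The core estimate for a fixed sample, large rank
-/

namespace Run7.h993.OSI

open MeasureTheory ProbabilityTheory Matrix Finset Pool.Agent.H321R2.OSI

variable {n d k r : ℕ}

lemma sqn_single (l : Fin r) : sqn (Pi.single l (1 : ℝ)) = 1 := by
  unfold sqn
  rw [Finset.sum_eq_single l]
  · simp
  · intro b _ hb
    simp [hb]
  · intro h; exact absurd (mem_univ _) h

lemma sqn_transpose_mulVec_le (Z : Matrix (Fin n) (Fin r) ℝ) (x : Fin n → ℝ) :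
    sqn (Zᵀ *ᵥ x) ≤ frob Z ^ 2 * sqn x := by
  rw [frob_sq_cols, sum_mul]
  unfold sqn
  refine sum_le_sum fun l _ => ?_
  exact Finset.sum_mul_sq_le_sq_mul_sq univ (Zᵀ l) x

lemma mulVec_le (F : Matrix (Fin d) (Fin n) ℝ) (x : Fin n → ℝ) :
    sqn (F *ᵥ x) ≤ frob F ^ 2 * sqn x := by
  rw [frob_sq_rows, sum_mul]
  unfold sqn
  refine sum_le_sum fun l _ => ?_
  exact Finset.sum_mul_sq_le_sq_mul_sq univ (F l) x

theorem core_large (M : Matrix (Fin k) (Fin r) ℝ) (N : Matrix (Fin k) (Fin n) ℝ)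
    (F : Matrix (Fin d) (Fin n) ℝ) (ε κ : ℝ) (Z : Matrix (Fin n) (Fin r) ℝ)
    (hε0 : 0 ≤ ε) (hε : ε ≤ 1 / 2) (hκ0 : 0 < κ) (hκ1 : κ ≤ 1 / 50000) (hr : 51200 ≤ r)
    (he2 : 0 < frob F ^ 2) (hI : ∀ v, 0 ≤ hd M ε v)
    (hT1 : ∑ l, hd M ε (Pi.single l 1) ≤ 50 * (r * κ))
    (hT2 : (gau (Fin n)).real {g | 50000 * κ * frob F ^ 2 < exc N F ε g} ≤ 1 / 1000)
    (hT3 : (gau (Fin n × Fin r)).real (GoodG M N F ε (1 / (8 * Real.sqrt (frob F ^ 2))))ᶜ ≤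
      1 / 100)
    (hZ : N * Z = M * (Zᵀ * Z)) :
    frob Z ^ 2 ≤ 3264000000000 * κ ^ 2 * frob F ^ 2 := by
  obtain ⟨e2, he2def⟩ : ∃ e2, e2 = frob F ^ 2 := ⟨_, rfl⟩
  obtain ⟨T, hT⟩ : ∃ T, T = frob Z ^ 2 := ⟨_, rfl⟩
  rw [← he2def] at he2 hT2 hT3 ⊢
  rw [← hT]
  have hT0 : 0 ≤ T := by rw [hT]; exact sq_nonneg _
  rcases hT0.eq_or_lt with h0 | hTpos
  · rw [← h0]; positivity
  have hrR : (51200 : ℝ) ≤ r := by exact_mod_cast hr
  have hr0 : (0 : ℝ) < r := by linarith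
  obtain ⟨S, hS⟩ : ∃ S : Fin r → ℝ, S = fun l => hd M ε (Pi.single l 1) + κ := ⟨_, rfl⟩
  have hSpos : ∀ l, κ ≤ S l := fun l => by
    have := hI (Pi.single l 1)
    rw [hS]; simp only; linarith
  have hSum : ∑ l, S l ≤ 51 * (r * κ) := by
    rw [hS, sum_add_distrib]
    simp only [sum_const, card_univ, Fintype.card_fin, nsmul_eq_mul]
    linarith
  obtain ⟨Sg, hSg⟩ : ∃ Sg, Sg = ∑ l, S l := ⟨_, rfl⟩
  rw [← hSg] at hSum
  have hSum0 : 0 < Sg := by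
    have h1 : ∑ _l : Fin r, κ ≤ ∑ l, S l := sum_le_sum fun l _ => hSpos l
    simp only [sum_const, card_univ, Fintype.card_fin, nsmul_eq_mul] at h1
    have h2 : 0 < (r : ℝ) * κ := mul_pos hr0 hκ0
    rw [hSg]
    linarith
  have hTs : T = ∑ l, sqn (Zᵀ l) := by rw [hT]; exact frob_sq_cols Z
  have : NeZero r := ⟨by omega⟩
  obtain ⟨l, -, hl⟩ : ∃ l ∈ (univ : Finset (Fin r)),
      T / (2 * r) + S l * (T / (2 * Sg)) ≤ sqn (Zᵀ l) := by
    apply Finset.exists_le_of_sum_le univ_nonempty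
    rw [← hTs, sum_add_distrib, ← sum_mul, ← hSg]
    simp only [sum_const, card_univ, Fintype.card_fin, nsmul_eq_mul]
    apply le_of_eq
    have hSg0 : Sg ≠ 0 := hSum0.ne'
    have hr0' : (r : ℝ) ≠ 0 := hr0.ne'
    field_simp
    ring
  obtain ⟨θ, hθ⟩ : ∃ θ, θ = sqn (Zᵀ l) := ⟨_, rfl⟩
  rw [← hθ] at hl
  have hSl : 0 < S l := lt_of_lt_of_le hκ0 (hSpos l)
  have hθ1 : T / (2 * r) ≤ θ := by
    have : 0 ≤ S l * (T / (2 * Sg)) :=
      mul_nonneg hSl.le (div_nonneg hT0 (by linarith))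
    linarith
  have hθ2 : S l * (T / (2 * Sg)) ≤ θ := by
    have : 0 ≤ T / (2 * (r : ℝ)) := div_nonneg hT0 (by linarith)
    linarith
  have hθpos : 0 < θ := lt_of_lt_of_le (div_pos hTpos (by linarith)) hθ1
  obtain ⟨q, hq⟩ : ∃ q, q = Real.sqrt θ := ⟨_, rfl⟩
  have hq0 : 0 < q := by rw [hq]; exact Real.sqrt_pos.2 hθpos
  have hq2 : q ^ 2 = θ := by rw [hq]; exact Real.sq_sqrt hθpos.le
  obtain ⟨w, hw⟩ : ∃ w : Fin r → ℝ, w = Pi.single l 1 := ⟨_, rfl⟩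
  have hw1 : sqn w = 1 := by rw [hw]; exact sqn_single l
  have hZw : Z *ᵥ w = Zᵀ l := by
    rw [hw, Matrix.mulVec_single_one]; rfl
  obtain ⟨ζ, hζdef⟩ : ∃ ζ : Fin n → ℝ, ζ = q⁻¹ • (Z *ᵥ w) := ⟨_, rfl⟩
  have hζ : sqn ζ = 1 := by
    rw [hζdef, sqn_smul', hZw, ← hθ, ← hq2]
    field_simp
  obtain ⟨φ, hφdef⟩ : ∃ φ : Fin r → ℝ, φ = q⁻¹ • ((Zᵀ * Z) *ᵥ w) := ⟨_, rfl⟩
  have hNζ : N *ᵥ ζ = M *ᵥ φ := by
    rw [hζdef, hφdef, Matrix.mulVec_smul, Matrix.mulVec_smul, Matrix.mulVec_mulVec,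
      Matrix.mulVec_mulVec, hZ]
  have hφw : φ ⬝ᵥ w = q := by
    rw [hφdef, smul_dotProduct, ← Matrix.mulVec_mulVec]
    have h1 : (Zᵀ *ᵥ (Z *ᵥ w)) ⬝ᵥ w = sqn (Z *ᵥ w) := by
      rw [dot_mulVec_self, ← Matrix.mulVec_mulVec]
    rw [h1, hZw, ← hθ, ← hq2, smul_eq_mul]
    field_simp
  have hφn : sqn φ ≤ 2 * r * q ^ 2 := by
    have h1 : sqn φ ≤ T := by
      rw [hφdef, sqn_smul', ← Matrix.mulVec_mulVec]
      have h2 := sqn_transpose_mulVec_le Z (Z *ᵥ w)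
      rw [hZw, ← hθ, ← hq2, ← hT] at h2
      rw [hZw]
      calc q⁻¹ ^ 2 * sqn (Zᵀ *ᵥ Zᵀ l) ≤ q⁻¹ ^ 2 * (T * q ^ 2) :=
            mul_le_mul_of_nonneg_left h2 (by positivity)
        _ = T := by field_simp
    rw [hq2]
    rw [div_le_iff₀ (by positivity)] at hθ1
    linarith
  obtain ⟨bw, hbw⟩ : ∃ bw, bw = hd M ε w := ⟨_, rfl⟩
  have hbw0 : 0 ≤ bw := by rw [hbw]; exact hI w
  have hSlbw : S l = bw + κ := by rw [hbw, hw, hS]
  obtain ⟨lam, hlam0, hlam1, hlam⟩ := choose_lam κ e2 q bw r hκ0 he2 hq0 hbw0 hrR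
  obtain ⟨m, hm⟩ : ∃ m : Fin r → ℝ, m = φ + lam • w := ⟨_, rfl⟩
  obtain ⟨t, ht⟩ : ∃ t, t = 1 / (8 * Real.sqrt e2) := ⟨_, rfl⟩
  rw [← ht] at hT3
  have hse : 0 < Real.sqrt e2 := Real.sqrt_pos.2 he2
  have ht0 : 0 < t := by rw [ht]; positivity
  have ht2 : t ^ 2 = 1 / (64 * e2) := by
    rw [ht, div_pow, mul_pow, Real.sq_sqrt he2.le]
    norm_num
  obtain ⟨x, c, p1, p2, p3, p4, p5, p6, p7⟩ := exists_point M N F ε t (50000 * κ * e2)
    (50 * (r * κ)) hε0 (by omega) hT2 hT3 hI hT1 (by positivity) ζ hζ φ w m hw1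
  obtain ⟨a, ha⟩ : ∃ a, a = Real.sqrt (sqn c) := ⟨_, rfl⟩
  have hcpos : 0 < sqn c := by linarith
  have ha0 : 0 < a := by rw [ha]; exact Real.sqrt_pos.2 hcpos
  have ha2 : a ^ 2 = sqn c := by rw [ha]; exact Real.sq_sqrt hcpos.le
  obtain ⟨u, hu⟩ : ∃ u : Fin r → ℝ, u = a⁻¹ • c := ⟨_, rfl⟩
  have hu1 : sqn u = 1 := by
    rw [hu, sqn_smul', ← ha2]
    field_simp
  have hcu : c = a • u := by
    rw [hu, smul_smul, mul_inv_cancel₀ ha0.ne', one_smul]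
  obtain ⟨m', hm'⟩ : ∃ m' : Fin r → ℝ, m' = m - (u ⬝ᵥ m) • u := ⟨_, rfl⟩
  have hm'c : m' = (a ^ 2)⁻¹ • (sqn c • m - (c ⬝ᵥ m) • c) := by
    rw [hm', ← ha2, hcu, smul_dotProduct]
    funext i
    simp only [Pi.sub_apply, Pi.smul_apply, smul_eq_mul]
    field_simp
  have huu : u ⬝ᵥ u = 1 := by rw [← sqn_eq_dot]; exact hu1
  have hum' : u ⬝ᵥ m' = 0 := by
    rw [hm', dotProduct_sub, dotProduct_smul, huu]
    simp
  obtain ⟨h, hh⟩ : ∃ h : Fin n → ℝ, h = perp ζ *ᵥ (mat x *ᵥ u) := ⟨_, rfl⟩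
  obtain ⟨h', hh'⟩ : ∃ h' : Fin n → ℝ, h' = perp ζ *ᵥ (mat x *ᵥ m') := ⟨_, rfl⟩
  have hfour := four_signs M N F ε t a ht0.ne' ζ h h' u φ m' hNζ hu1 (by
    intro s s' hs hs'
    have hs2 : s ^ 2 = 1 := by rcases hs with rfl | rfl <;> norm_num
    have hs2' : s' ^ 2 = 1 := by rcases hs' with rfl | rfl <;> norm_num
    have hg := p7 s s' hs hs' ((s' / t) • u - a • m')
    convert hg using 2
    have hmat : mat (fun q : Fin n × Fin r => s * (perp ζ * mat x) q.1 q.2 + s' * (ζ q.1 * c q.2)) =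
        s • (perp ζ * mat x) + s' • Matrix.vecMulVec ζ c := by
      ext i j
      simp [mat, Matrix.vecMulVec_apply]
    rw [hmat, Matrix.add_mulVec, Matrix.smul_mulVec, Matrix.smul_mulVec,
      Matrix.vecMulVec_mulVec, ← Matrix.mulVec_mulVec]
    have e1 : perp ζ *ᵥ (mat x *ᵥ ((s' / t) • u - a • m')) = (s' / t) • h - a • h' := by
      rw [Matrix.mulVec_sub, Matrix.mulVec_smul, Matrix.mulVec_smul, Matrix.mulVec_sub,
        Matrix.mulVec_smul, Matrix.mulVec_smul, hh, hh']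
    have e2' : c ⬝ᵥ ((s' / t) • u - a • m') = a * (s' / t) := by
      rw [hcu, smul_dotProduct, dotProduct_sub, dotProduct_smul, dotProduct_smul, huu, hum']
      simp
    rw [e1, e2']
    funext i
    simp only [Pi.add_apply, Pi.sub_apply, Pi.smul_apply, smul_eq_mul, MulOpposite.smul_eq_mul_unop,
      MulOpposite.unop_op]
    field_simp
    linear_combination (-(a * ζ i)) * hs2')
  -- the quantities
  obtain ⟨X, hX⟩ : ∃ X, X = u ⬝ᵥ φ := ⟨_, rfl⟩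
  obtain ⟨Y, hY⟩ : ∃ Y, Y = u ⬝ᵥ w := ⟨_, rfl⟩
  have huc : ∀ v : Fin r → ℝ, a ^ 2 * (u ⬝ᵥ v) ^ 2 = (c ⬝ᵥ v) ^ 2 := by
    intro v
    rw [hcu, smul_dotProduct, smul_eq_mul]
    ring
  have hrX : (r : ℝ) * X ^ 2 ≤ 80 * sqn φ := by
    have h1 := huc φ
    rw [← hX] at h1
    have h2 : (r : ℝ) / 4 * X ^ 2 ≤ a ^ 2 * X ^ 2 := by
      rw [ha2]
      exact mul_le_mul_of_nonneg_right p1 (sq_nonneg _)
    linarith
  have hrY : (r : ℝ) * Y ^ 2 ≤ 80 := by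
    have h1 := huc w
    rw [← hY] at h1
    have h2 : (r : ℝ) / 4 * Y ^ 2 ≤ a ^ 2 * Y ^ 2 := by
      rw [ha2]
      exact mul_le_mul_of_nonneg_right p1 (sq_nonneg _)
    linarith
  have hum : u ⬝ᵥ m = X + lam * Y := by
    rw [hm, dotProduct_add, dotProduct_smul, smul_eq_mul, hX, hY]
  have hφm : φ - m' = (X + lam * Y) • u - lam • w := by
    rw [hm', hum, hm]
    funext i
    simp only [Pi.add_apply, Pi.sub_apply, Pi.smul_apply, smul_eq_mul]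
    ring
  have hnm : sqn m' ≤ 2 * sqn φ + 2 * lam ^ 2 := by
    have h1 : sqn m = sqn m' + (u ⬝ᵥ m) ^ 2 := by
      have h2 : m = m' + (u ⬝ᵥ m) • u := by rw [hm']; abel
      conv_lhs => rw [h2]
      rw [sqn_add, sqn_smul', hu1, dotProduct_smul, dotProduct_comm m' u, hum']
      simp
    have h3 : sqn m ≤ 2 * sqn φ + 2 * lam ^ 2 := by
      have h4 := sqn_par φ (lam • w)
      rw [sqn_smul', hw1] at h4
      have h5 := sqn_nonneg (φ - lam • w)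
      rw [hm]
      linarith
    have := sq_nonneg (u ⬝ᵥ m)
    linarith
  have hident : sqn (φ - m') - sqn m' = 2 * X ^ 2 - sqn φ - 2 * lam * (q - X * Y) := by
    rw [sqn_sub]
    have h1 : φ ⬝ᵥ m' = sqn φ + lam * q - (X + lam * Y) * X := by
      rw [hm', hum, dotProduct_sub, dotProduct_smul, hm, dotProduct_add, dotProduct_smul,
        hφw, ← sqn_eq_dot, dotProduct_comm φ u, ← hX, smul_eq_mul, smul_eq_mul]
    rw [h1]
    ring
  have hbp : hd M ε (φ - m') ≤ 2 * (X + lam * Y) ^ 2 * hd M ε u + 2 * lam ^ 2 * bw := by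
    rw [hφm]
    simp only [hbw, hd_eq] at hI ⊢
    have h1 := exc_sub_le M (1 : Matrix (Fin r) (Fin r) ℝ) ε hI ((X + lam * Y) • u) (lam • w)
    rw [exc_smul, exc_smul] at h1
    linarith
  have hbc : hd M ε u ≤ 4000 * κ := by
    have h1 : hd M ε c = a ^ 2 * hd M ε u := by
      rw [hcu, hd_eq, hd_eq, exc_smul]
    rw [h1] at p4
    have h2 : (r : ℝ) / 4 * hd M ε u ≤ a ^ 2 * hd M ε u := by
      rw [ha2]
      exact mul_le_mul_of_nonneg_right p1 (hI u)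
    have h3 : (r : ℝ) / 4 * hd M ε u ≤ r / 4 * (4000 * κ) := by linarith
    exact le_of_mul_le_mul_left h3 (by positivity)
  have hKh : exc N F ε h ≤ 50000 * κ * e2 + 2 * sqn (F *ᵥ ζ) := by
    have h1 : perp ζ *ᵥ (mat x *ᵥ c) = a • h := by
      conv_lhs => rw [hcu]
      rw [Matrix.mulVec_smul, Matrix.mulVec_smul, hh]
    rw [h1, exc_smul, ← ha2] at p5
    exact le_of_mul_le_mul_left p5 (by positivity)
  have hKh' : exc N F ε h' ≤ sqn m' * (50000 * κ * e2 + 2 * sqn (F *ᵥ ζ)) := by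
    have h1 : sqn c • m - (c ⬝ᵥ m) • c = (a ^ 2) • m' := by
      rw [hm'c, smul_smul, mul_inv_cancel₀ (by positivity), one_smul]
    rw [h1, Matrix.mulVec_smul, Matrix.mulVec_smul, exc_smul, sqn_smul', mul_assoc, ← hh'] at p6
    exact le_of_mul_le_mul_left p6 (by positivity)
  have hez : sqn (F *ᵥ ζ) ≤ e2 := by
    have := mulVec_le F ζ
    rw [hζ, mul_one, ← he2def] at this
    exact this
  rw [hident] at hfour
  have hmain : 0 ≤ exc N F ε h + sqn c * exc N F ε h' / (64 * e2) + 64 * e2 * hd M ε u +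
      sqn c * (hd M ε (φ - m') + (1 - ε) * (2 * X ^ 2 - sqn φ - 2 * lam * (q - X * Y))) -
      (1 - ε) * sqn c * sqn (F *ᵥ ζ) := by
    rw [mul_pow, ht2, ha2] at hfour
    refine le_of_le_of_eq hfour ?_
    field_simp
  have hres := cd_real ε κ e2 (sqn (F *ᵥ ζ)) q bw (sqn c) lam (sqn φ) X Y (hd M ε u)
    (exc N F ε h) (exc N F ε h') (sqn m') (hd M ε (φ - m')) r hε0 hε hκ0 hκ1 he2
    (sqn_nonneg _) hez hq0.le hrR p1 hlam0 hlam1 hbw0 (hI u) hbc (sqn_nonneg _) hφn hrX hrY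
    (sqn_nonneg _) hnm hbp hKh hKh' hmain
  have hfin := hlam (sqn c) p1 hres
  rw [hq2, ← hSlbw] at hfin
  -- conclusion
  have h1 : (r : ℝ) * (S l * (T / (2 * Sg))) ≤ 32000000000 * κ * e2 * S l :=
    (mul_le_mul_of_nonneg_left hθ2 hr0.le).trans hfin
  have h2 : (r : ℝ) * T / (2 * Sg) ≤ 32000000000 * κ * e2 := by
    have h3 : (r : ℝ) * (S l * (T / (2 * Sg))) = (r * T / (2 * Sg)) * S l := by ring
    rw [h3] at h1
    exact le_of_mul_le_mul_right h1 hSl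
  rw [div_le_iff₀ (by linarith)] at h2
  have h4 : 32000000000 * κ * e2 * (2 * Sg) ≤
      32000000000 * κ * e2 * (2 * (51 * (r * κ))) := by
    apply mul_le_mul_of_nonneg_left _ (by positivity)
    linarith
  have h5 : (r : ℝ) * T ≤ r * (3264000000000 * κ ^ 2 * e2) := by
    refine (h2.trans h4).trans (le_of_eq ?_)
    ring
  exact le_of_mul_le_mul_left h5 hr0

end Run7.h993.OSI
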