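import Mathlib
import Pool.Agent.Run7.h993.OSI.CoreLarge

/-!
# The core estimate for a fixed sample, small rank
-/

namespace Run7.h993.OSI

open MeasureTheory ProbabilityTheory Matrix Finset Pool.Agent.H321R2.OSI

variable {n d k r : ℕ}

lemma frob_pinv_le (M : Matrix (Fin k) (Fin r) ℝ) (N : Matrix (Fin k) (Fin n) ℝ) (ε : ℝ)
    (hε : ε ≤ 1 / 2) (hI : ∀ v, 0 ≤ hd M ε v) :
    frob (pinv M * N) ^ 2 ≤ 4 * frob (Mᵀ * N) ^ 2 := by
  rw [frob_sq_cols, frob_sq_cols, mul_sum]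
  refine sum_le_sum fun j _ => ?_
  have e1 : (pinv M * N)ᵀ j = pinv M *ᵥ (Nᵀ j) := by
    funext i
    simp only [Matrix.transpose_apply, Matrix.mul_apply, Matrix.mulVec, dotProduct]
  have e2 : (Mᵀ * N)ᵀ j = Mᵀ *ᵥ (Nᵀ j) := by
    funext i
    simp only [Matrix.transpose_apply, Matrix.mul_apply, Matrix.mulVec, dotProduct]
  rw [e1, e2]
  generalize Nᵀ j = y
  obtain ⟨z, hz⟩ : ∃ z, z = pinv M *ᵥ y := ⟨_, rfl⟩
  rw [← hz]
  have h1 : (Mᵀ * M) *ᵥ z = Mᵀ *ᵥ y := by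
    rw [hz, Matrix.mulVec_mulVec]
    congr 1
    have h2 : Mᵀ * M * pinv M = (proj M * M)ᵀ := by
      rw [Matrix.transpose_mul, proj_symm, Matrix.mul_assoc]
      rfl
    rw [h2, proj_mul]
  have h2 : sqn (M *ᵥ z) = (Mᵀ *ᵥ y) ⬝ᵥ z := by
    rw [dot_mulVec_self, h1]
  have h3 := dot_sq_le (Mᵀ *ᵥ y) z
  rw [← h2] at h3
  have h4 : 1 / 2 * sqn z ≤ sqn (M *ᵥ z) := by
    have h5 := hI z
    unfold hd at h5
    have h6 := sqn_nonneg z
    have h7 : 1 / 2 * sqn z ≤ (1 - ε) * sqn z := mul_le_mul_of_nonneg_right (by linarith) h6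
    linarith
  have h5 : (1 / 2 * sqn z) ^ 2 ≤ sqn (Mᵀ *ᵥ y) * sqn z :=
    (pow_le_pow_left₀ (by have := sqn_nonneg z; positivity) h4 2).trans h3
  rcases (sqn_nonneg z).eq_or_lt with h0 | hpos
  · rw [← h0]
    have := sqn_nonneg (Mᵀ *ᵥ y)
    linarith
  · have h6 : sqn z * sqn z ≤ (4 * sqn (Mᵀ *ᵥ y)) * sqn z := by nlinarith
    exact le_of_mul_le_mul_right h6 hpos

lemma map_neg_gau : (gau (Fin n × Fin r)).map (fun x => -x) = gau (Fin n × Fin r) := by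
  have h1 := gau_map_mulVec (ι := Fin n × Fin r) (κ := Fin n × Fin r) (-1) (by simp)
  refine Eq.trans ?_ h1
  congr 1
  funext x
  rw [Matrix.neg_mulVec, Matrix.one_mulVec]

lemma qf_single (M : Matrix (Fin k) (Fin r) ℝ) (N : Matrix (Fin k) (Fin n) ℝ)
    (F : Matrix (Fin d) (Fin n) ℝ) (ε t : ℝ) (w : Fin r → ℝ) (g : Fin n → ℝ) :
    qf M N F ε w (t • g) = hd M ε w + t ^ 2 * exc N F ε g +
      2 * t * ((Nᵀ *ᵥ (M *ᵥ w)) ⬝ᵥ g) := by
  unfold qf hd exc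
  have h1 : (Nᵀ *ᵥ (M *ᵥ w)) ⬝ᵥ g = (M *ᵥ w) ⬝ᵥ (N *ᵥ g) := by
    rw [Matrix.dotProduct_mulVec, ← Matrix.mulVec_transpose]
  rw [Matrix.mulVec_smul, Matrix.mulVec_smul, sqn_add, sqn_smul', sqn_smul', h1,
    dotProduct_smul, smul_eq_mul]
  ring

theorem core_small (M : Matrix (Fin k) (Fin r) ℝ) (N : Matrix (Fin k) (Fin n) ℝ)
    (F : Matrix (Fin d) (Fin n) ℝ) (ε κ : ℝ) (Z : Matrix (Fin n) (Fin r) ℝ)
    (hε : ε ≤ 1 / 2) (hκ0 : 0 < κ) (hr : r ≤ 51200)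
    (he2 : 0 < frob F ^ 2) (hI : ∀ v, 0 ≤ hd M ε v)
    (hT1 : ∑ l, hd M ε (Pi.single l 1) ≤ 50 * (r * κ))
    (hT2 : (gau (Fin n)).real {g | 50000 * κ * frob F ^ 2 < exc N F ε g} ≤ 1 / 1000)
    (hT3 : (gau (Fin n × Fin r)).real (GoodG M N F ε (1 / (8 * Real.sqrt (frob F ^ 2))))ᶜ ≤
      1 / 100)
    (hZ : frob Z ^ 2 ≤ frob (pinv M * N) ^ 2) :
    frob Z ^ 2 ≤ 1000000000000000000000 * κ ^ 2 * frob F ^ 2 := by
  obtain ⟨e2, he2def⟩ : ∃ e2, e2 = frob F ^ 2 := ⟨_, rfl⟩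
  rw [← he2def] at he2 hT2 hT3 ⊢
  obtain ⟨t, ht⟩ : ∃ t, t = 1 / (8 * Real.sqrt e2) := ⟨_, rfl⟩
  rw [← ht] at hT3
  have hse : 0 < Real.sqrt e2 := Real.sqrt_pos.2 he2
  have ht0 : 0 < t := by rw [ht]; positivity
  have ht2 : t ^ 2 = 1 / (64 * e2) := by
    rw [ht, div_pow, mul_pow, Real.sq_sqrt he2.le]
    norm_num
  have hrR : (r : ℝ) ≤ 51200 := by exact_mod_cast hr
  -- one column
  have hcol : ∀ l : Fin r, sqn (Nᵀ *ᵥ (M *ᵥ Pi.single l 1)) ≤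
      1800000000000000 * κ ^ 2 * e2 := by
    intro l
    obtain ⟨w, hw⟩ : ∃ w : Fin r → ℝ, w = Pi.single l 1 := ⟨_, rfl⟩
    have hw1 : sqn w = 1 := by rw [hw]; exact sqn_single l
    have hwle : hd M ε w ≤ 50 * (r * κ) := by
      refine le_trans ?_ hT1
      rw [hw]
      exact single_le_sum (f := fun l => hd M ε (Pi.single l 1)) (fun l _ => hI _) (mem_univ l)
    rw [← hw]
    obtain ⟨b, hb⟩ : ∃ b, b = Nᵀ *ᵥ (M *ᵥ w) := ⟨_, rfl⟩
    rw [← hb]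
    rcases (sqn_nonneg b).eq_or_lt with h0 | hpos
    · rw [← h0]; positivity
    set μ := gau (Fin n × Fin r) with hμ
    have hm1 : Measurable fun x : Fin n × Fin r → ℝ => mat x *ᵥ w := by
      have : Continuous fun x : Fin n × Fin r → ℝ => mat x *ᵥ w :=
        continuous_mat_mulVec.comp (by fun_prop : Continuous fun x : Fin n × Fin r → ℝ => (x, w))
      exact this.measurable
    have b2 : μ.real ((fun x => -x) ⁻¹' (GoodG M N F ε t)ᶜ) ≤ 1 / 100 :=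
      (real_le_of_map measurable_neg map_neg_gau _).trans hT3
    have b3 : μ.real ((fun x : Fin n × Fin r → ℝ => mat x *ᵥ w) ⁻¹'
        {g | 50000 * κ * e2 < exc N F ε g}) ≤ 1 / 1000 :=
      (real_le_of_map hm1 (map_mat_mulVec w hw1) _).trans hT2
    have b4 : μ.real ((fun x : Fin n × Fin r → ℝ => mat x *ᵥ w) ⁻¹'
        {g | (∑ i, b i * g i) ^ 2 ≤ (∑ i, b i ^ 2) / 16}) ≤ 1 / 5 :=
      (real_le_of_map hm1 (map_mat_mulVec w hw1) _).trans (gau_small_ball b hpos)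
    obtain ⟨x, hx⟩ : ∃ x, x ∉ (GoodG M N F ε t)ᶜ ∪ ((fun x => -x) ⁻¹' (GoodG M N F ε t)ᶜ ∪
        ((fun x : Fin n × Fin r → ℝ => mat x *ᵥ w) ⁻¹' {g | 50000 * κ * e2 < exc N F ε g} ∪
        (fun x : Fin n × Fin r → ℝ => mat x *ᵥ w) ⁻¹'
          {g | (∑ i, b i * g i) ^ 2 ≤ (∑ i, b i ^ 2) / 16})) := by
      by_contra hcon
      push Not at hcon
      have h1 : μ.real ((GoodG M N F ε t)ᶜ ∪ ((fun x => -x) ⁻¹' (GoodG M N F ε t)ᶜ ∪
        ((fun x : Fin n × Fin r → ℝ => mat x *ᵥ w) ⁻¹' {g | 50000 * κ * e2 < exc N F ε g} ∪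
        (fun x : Fin n × Fin r → ℝ => mat x *ᵥ w) ⁻¹'
          {g | (∑ i, b i * g i) ^ 2 ≤ (∑ i, b i ^ 2) / 16}))) = 1 := by
        rw [Set.eq_univ_of_forall hcon]
        simp
      have v1 := measureReal_union_le (μ := μ) (GoodG M N F ε t)ᶜ
        ((fun x => -x) ⁻¹' (GoodG M N F ε t)ᶜ ∪
        ((fun x : Fin n × Fin r → ℝ => mat x *ᵥ w) ⁻¹' {g | 50000 * κ * e2 < exc N F ε g} ∪
        (fun x : Fin n × Fin r → ℝ => mat x *ᵥ w) ⁻¹'
          {g | (∑ i, b i * g i) ^ 2 ≤ (∑ i, b i ^ 2) / 16}))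
      have v2 := measureReal_union_le (μ := μ)
        ((fun x => -x) ⁻¹' (GoodG M N F ε t)ᶜ)
        ((fun x : Fin n × Fin r → ℝ => mat x *ᵥ w) ⁻¹' {g | 50000 * κ * e2 < exc N F ε g} ∪
        (fun x : Fin n × Fin r → ℝ => mat x *ᵥ w) ⁻¹'
          {g | (∑ i, b i * g i) ^ 2 ≤ (∑ i, b i ^ 2) / 16})
      have v3 := measureReal_union_le (μ := μ)
        ((fun x : Fin n × Fin r → ℝ => mat x *ᵥ w) ⁻¹' {g | 50000 * κ * e2 < exc N F ε g})
        ((fun x : Fin n × Fin r → ℝ => mat x *ᵥ w) ⁻¹'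
          {g | (∑ i, b i * g i) ^ 2 ≤ (∑ i, b i ^ 2) / 16})
      linarith
    simp only [Set.mem_union, Set.mem_preimage, not_or, Set.mem_compl_iff, not_not] at hx
    obtain ⟨x1, x2, x3, x4⟩ := hx
    obtain ⟨g, hg⟩ : ∃ g, g = mat x *ᵥ w := ⟨_, rfl⟩
    rw [← hg] at x3 x4
    have y1 := x1 w
    have y2 := x2 w
    have hneg : mat (-x) *ᵥ w = -g := by
      rw [hg]
      have : mat (-x) = -(mat x) := by
        ext i j; simp [mat]
      rw [this, Matrix.neg_mulVec]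
    rw [← hg, qf_single, ← hb] at y1
    rw [hneg, qf_single, ← hb, dotProduct_neg] at y2
    have hexn : exc N F ε (-g) = exc N F ε g := by
      have := exc_smul N F ε (-1) g
      rw [neg_one_smul] at this
      rw [this]; norm_num
    rw [hexn] at y2
    have y3 : exc N F ε g ≤ 50000 * κ * e2 := not_lt.1 x3
    have x4' : ¬ (b ⬝ᵥ g) ^ 2 ≤ sqn b / 16 := x4
    push Not at x4'
    have y5 : t ^ 2 * exc N F ε g ≤ 782 * κ := by
      have h1 : t ^ 2 * exc N F ε g ≤ t ^ 2 * (50000 * κ * e2) :=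
        mul_le_mul_of_nonneg_left y3 (sq_nonneg t)
      have h2 : t ^ 2 * (50000 * κ * e2) = 781.25 * κ := by
        rw [ht2]; field_simp; norm_num
      linarith
    have y6 : hd M ε w ≤ 2560000 * κ := by
      have : 50 * ((r : ℝ) * κ) ≤ 50 * (51200 * κ) := by
        have := mul_le_mul_of_nonneg_right hrR hκ0.le
        linarith
      linarith
    have y7 : (2 * t * (b ⬝ᵥ g)) ^ 2 ≤ (2560782 * κ) ^ 2 := by
      apply sq_le_sq'
      · linarith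
      · linarith
    have y8 : (2 * t * (b ⬝ᵥ g)) ^ 2 = (b ⬝ᵥ g) ^ 2 / (16 * e2) := by
      rw [mul_pow, mul_pow, ht2]
      field_simp
      ring
    rw [y8, div_le_iff₀ (by positivity)] at y7
    nlinarith
  have h1 : frob (Mᵀ * N) ^ 2 = ∑ l, sqn (Nᵀ *ᵥ (M *ᵥ Pi.single l 1)) := by
    rw [frob_sq_rows]
    refine sum_congr rfl fun l _ => ?_
    congr 1
    funext i
    rw [Matrix.mulVec_single_one, Matrix.mul_apply]
    simp only [Matrix.mulVec, dotProduct, Matrix.transpose_apply]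
    exact sum_congr rfl fun j _ => mul_comm _ _
  have h2 : frob (Mᵀ * N) ^ 2 ≤ r * (1800000000000000 * κ ^ 2 * e2) := by
    rw [h1]
    calc ∑ l, sqn (Nᵀ *ᵥ (M *ᵥ Pi.single l 1)) ≤ ∑ _l : Fin r, 1800000000000000 * κ ^ 2 * e2 :=
          sum_le_sum fun l _ => hcol l
      _ = _ := by rw [sum_const, card_univ, Fintype.card_fin, nsmul_eq_mul]
  have h3 := frob_pinv_le M N ε hε hI
  have h4 : (r : ℝ) * (1800000000000000 * κ ^ 2 * e2) ≤ 51200 * (1800000000000000 * κ ^ 2 * e2) :=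
    mul_le_mul_of_nonneg_right hrR (by positivity)
  have h5 : 0 ≤ κ ^ 2 * e2 := by positivity
  linarith

end Run7.h993.OSI
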