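import Mathlib
import Pool.Agent.Run7.h993.OSI.CoreSmall

/-!
# The upper bound `1 + C (ε + δ)²`
-/

namespace Run7.h993.OSI

open MeasureTheory ProbabilityTheory Matrix Finset Pool.Agent.H321R2.OSI

variable {n d k r : ℕ} {W : Type} [MeasurableSpace W] {P : Measure W} [IsProbabilityMeasure P]

/-- positive part of the excess of one vector -/
noncomputable def kx (S : Matrix (Fin d) (Fin k) ℝ) (ε : ℝ) (y : Fin d → ℝ) : ℝ :=
  sqn (Sᵀ *ᵥ y) - (1 - ε) * sqn y

lemma measurable_kx {S : W → Matrix (Fin d) (Fin k) ℝ} (hS : ∀ i j, Measurable fun w => S w i j)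
    (ε : ℝ) (y : Fin d → ℝ) : Measurable fun w => kx (S w) ε y :=
  (measurable_sqn S hS y).sub_const _

lemma pos_part_le {S : W → Matrix (Fin d) (Fin k) ℝ} {ε δ : ℝ} (hS : IsOSI P S r (1 - ε) δ)
    (hε1 : ε ≤ 1) (hε0 : 0 ≤ ε) (V : Submodule ℝ (Fin d → ℝ)) (hV : Module.finrank ℝ V = r)
    (y : Fin d → ℝ) (hy : y ∈ V) :
    Integrable (fun w => max (kx (S w) ε y) 0) P ∧
      ∫ w, max (kx (S w) ε y) 0 ∂P ≤ (ε + δ) * sqn y := by
  have hKi : Integrable (fun w => kx (S w) ε y) P :=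
    (hS.integrable y).sub (integrable_const _)
  have hG : MeasurableSet {w | InjOn (S w) (1 - ε) V} := measurableSet_inj S hS.measurable _ V
  have hGc : P.real {w | InjOn (S w) (1 - ε) V}ᶜ ≤ δ := compl_inj_le hS V hV
  have hδ0 : 0 ≤ δ := measureReal_nonneg.trans hGc
  have hy0 := sqn_nonneg y
  have hmax : Integrable (fun w => max (kx (S w) ε y) 0) P := hKi.pos_part
  refine ⟨hmax, ?_⟩
  have hle : ∀ w, max (kx (S w) ε y) 0 ≤ kx (S w) ε y +
      ({w | InjOn (S w) (1 - ε) V}ᶜ).indicator (fun _ => (1 - ε) * sqn y) w := by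
    intro w
    have h1 : -((1 - ε) * sqn y) ≤ kx (S w) ε y := by
      unfold kx
      have := sqn_nonneg ((S w)ᵀ *ᵥ y)
      linarith
    have h2 : 0 ≤ (1 - ε) * sqn y := mul_nonneg (by linarith) hy0
    by_cases hw : w ∈ {w | InjOn (S w) (1 - ε) V}
    · rw [Set.indicator_of_notMem (Set.notMem_compl_iff.2 hw), add_zero]
      have h3 : 0 ≤ kx (S w) ε y := by
        have : (1 - ε) * sqn y ≤ sqn ((S w)ᵀ *ᵥ y) := hw y hy
        unfold kx
        linarith
      exact max_le le_rfl h3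
    · rw [Set.indicator_of_mem (by exact hw)]
      apply max_le
      · linarith
      · linarith
  have hI2 : Integrable (fun w => ({w | InjOn (S w) (1 - ε) V}ᶜ).indicator
      (fun _ => (1 - ε) * sqn y) w) P := (integrable_const _).indicator hG.compl
  have h1 := integral_mono hmax (hKi.add hI2) hle
  have h2 : ∫ w, ((fun w => kx (S w) ε y) + fun w => ({w | InjOn (S w) (1 - ε) V}ᶜ).indicator
      (fun _ => (1 - ε) * sqn y) w) w ∂P =
      ε * sqn y + P.real {w | InjOn (S w) (1 - ε) V}ᶜ * ((1 - ε) * sqn y) := by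
    rw [integral_add' hKi hI2, integral_indicator_const _ hG.compl, smul_eq_mul]
    congr 1
    unfold kx
    rw [integral_sub (hS.integrable y) (integrable_const _), hS.isotropy y]
    simp
    ring
  have h3 : P.real {w | InjOn (S w) (1 - ε) V}ᶜ * ((1 - ε) * sqn y) ≤ δ * sqn y := by
    have h4 : P.real {w | InjOn (S w) (1 - ε) V}ᶜ * ((1 - ε) * sqn y) ≤ δ * ((1 - ε) * sqn y) :=
      mul_le_mul_of_nonneg_right hGc (mul_nonneg (by linarith) hy0)
    have h5 : δ * ((1 - ε) * sqn y) ≤ δ * sqn y := by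
      apply mul_le_mul_of_nonneg_left _ hδ0
      nlinarith
    linarith
  calc ∫ w, max (kx (S w) ε y) 0 ∂P ≤ ε * sqn y +
        P.real {w | InjOn (S w) (1 - ε) V}ᶜ * ((1 - ε) * sqn y) := by
        rw [← h2]; exact h1
    _ ≤ (ε + δ) * sqn y := by linarith

lemma pos_part_orth {S : W → Matrix (Fin d) (Fin k) ℝ} {ε δ : ℝ} (hS : IsOSI P S r (1 - ε) δ)
    (hε1 : ε ≤ 1) (hε0 : 0 ≤ ε) (hr : 1 ≤ r) (U : Matrix (Fin d) (Fin r) ℝ)
    (hU : Uᵀ * U = 1) (y : Fin d → ℝ) (hy : Uᵀ *ᵥ y = 0) :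
    ∫⁻ w, ENNReal.ofReal (kx (S w) ε y) ∂P ≤ ENNReal.ofReal ((ε + δ) * sqn y) := by
  obtain ⟨r, rfl⟩ : ∃ q, r = q + 1 := ⟨r - 1, by omega⟩
  by_cases h0 : sqn y = 0
  · have hy0 : y = 0 := eq_zero_of_sqn h0
    have : ∀ w, kx (S w) ε y = 0 := by
      intro w
      unfold kx
      rw [hy0, Matrix.mulVec_zero, sqn_zero, sqn_zero]
      ring
    simp [this]
  · have h1 := pos_part_le hS hε1 hε0 _ (finrank_gspan U hU y hy h0 0) y (by
      refine Submodule.subset_span ⟨0, ?_⟩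
      simp [hypv])
    have h2 : ∀ w, ENNReal.ofReal (kx (S w) ε y) = ENNReal.ofReal (max (kx (S w) ε y) 0) := by
      intro w
      rcases le_total 0 (kx (S w) ε y) with h | h
      · rw [max_eq_left h]
      · rw [max_eq_right h, ENNReal.ofReal_of_nonpos h, ENNReal.ofReal_zero]
    simp only [h2]
    rw [← ofReal_integral_eq_lintegral_ofReal h1.1
      (Filter.Eventually.of_forall fun w => le_max_right _ _)]
    exact ENNReal.ofReal_le_ofReal h1.2

lemma exc_eq_kx (S : Matrix (Fin d) (Fin k) ℝ) (F : Matrix (Fin d) (Fin n) ℝ) (ε : ℝ)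
    (g : Fin n → ℝ) : exc (Sᵀ * F) F ε g = kx S ε (F *ᵥ g) := by
  unfold exc kx
  rw [Matrix.mulVec_mulVec]

lemma hd_eq_kx (S : Matrix (Fin d) (Fin k) ℝ) (U : Matrix (Fin d) (Fin r) ℝ)
    (hU : Uᵀ * U = 1) (ε : ℝ) (v : Fin r → ℝ) : hd (Sᵀ * U) ε v = kx S ε (U *ᵥ v) := by
  unfold hd kx
  rw [sqn_mulVec_orth U hU, Matrix.mulVec_mulVec]

lemma measurable_joint {S : W → Matrix (Fin d) (Fin k) ℝ}
    (hS : ∀ i j, Measurable fun w => S w i j) (F : Matrix (Fin d) (Fin n) ℝ) (ε : ℝ) :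
    Measurable fun p : W × (Fin n → ℝ) => kx (S p.1) ε (F *ᵥ p.2) := by
  unfold kx sqn Matrix.mulVec dotProduct
  simp only [Matrix.transpose_apply]
  have h1 : ∀ i j, Measurable fun p : W × (Fin n → ℝ) => S p.1 i j := fun i j =>
    (hS i j).comp measurable_fst
  apply Measurable.sub
  · refine Finset.measurable_sum _ fun i _ => Measurable.pow_const ?_ 2
    refine Finset.measurable_sum _ fun j _ => (h1 j i).mul ?_
    refine Finset.measurable_sum _ fun l _ => ?_
    fun_prop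
  · apply Measurable.const_mul
    refine Finset.measurable_sum _ fun i _ => Measurable.pow_const ?_ 2
    refine Finset.measurable_sum _ fun l _ => ?_
    fun_prop

/-- Markov's inequality for lower Lebesgue integrals, real form. -/
lemma markov_lintegral {Ω : Type*} [MeasurableSpace Ω] {μ : Measure Ω} [IsProbabilityMeasure μ]
    {f : Ω → ENNReal} (hf : Measurable f) {m T : ℝ} (hm0 : 0 ≤ m)
    (hm : ∫⁻ w, f w ∂μ ≤ ENNReal.ofReal m) (hT : 0 < T) :
    μ.real {w | ENNReal.ofReal T < f w} ≤ m / T := by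
  have h1 := mul_meas_ge_le_lintegral (μ := μ) hf (ENNReal.ofReal T)
  have h2 : μ {w | ENNReal.ofReal T < f w} ≤ μ {w | ENNReal.ofReal T ≤ f w} :=
    measure_mono fun w (hw : ENNReal.ofReal T < f w) => le_of_lt hw
  have h3 : ENNReal.ofReal T * μ {w | ENNReal.ofReal T < f w} ≤ ENNReal.ofReal m :=
    (mul_le_mul_right h2 _).trans (h1.trans hm)
  have h4 := ENNReal.toReal_mono ENNReal.ofReal_ne_top h3
  rw [ENNReal.toReal_mul, ENNReal.toReal_ofReal hT.le, ENNReal.toReal_ofReal hm0] at h4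
  rw [le_div_iff₀ hT, mul_comm]
  exact h4

/-- the test vector -/
noncomputable def tv (U : Matrix (Fin d) (Fin r) ℝ) (F : Matrix (Fin d) (Fin n) ℝ) (t : ℝ)
    (x : Fin n × Fin r → ℝ) (v : Fin r → ℝ) : Fin d → ℝ :=
  U *ᵥ v + F *ᵥ (t • (mat x *ᵥ v))

lemma sqn_tv (U : Matrix (Fin d) (Fin r) ℝ) (hU : Uᵀ * U = 1) (F : Matrix (Fin d) (Fin n) ℝ)
    (hUF : Uᵀ * F = 0) (t : ℝ) (x : Fin n × Fin r → ℝ) (v : Fin r → ℝ) :
    sqn (tv U F t x v) = sqn v + sqn (F *ᵥ (t • (mat x *ᵥ v))) := by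
  unfold tv
  rw [sqn_add, sqn_mulVec_orth U hU]
  have : (U *ᵥ v) ⬝ᵥ (F *ᵥ (t • (mat x *ᵥ v))) = 0 := by
    rw [Matrix.dotProduct_mulVec, ← Matrix.mulVec_transpose, Matrix.mulVec_mulVec]
    have h1 : Fᵀ * U = 0 := by
      have := congrArg Matrix.transpose hUF
      rw [Matrix.transpose_mul, Matrix.transpose_transpose, Matrix.transpose_zero] at this
      exact this
    rw [h1, Matrix.zero_mulVec, zero_dotProduct]
  rw [this]
  ring

lemma qf_eq_kx (S : Matrix (Fin d) (Fin k) ℝ) (U : Matrix (Fin d) (Fin r) ℝ) (hU : Uᵀ * U = 1)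
    (F : Matrix (Fin d) (Fin n) ℝ) (hUF : Uᵀ * F = 0) (ε t : ℝ) (x : Fin n × Fin r → ℝ)
    (v : Fin r → ℝ) :
    qf (Sᵀ * U) (Sᵀ * F) F ε v (t • (mat x *ᵥ v)) = kx S ε (tv U F t x v) := by
  unfold qf kx
  rw [sqn_tv U hU F hUF]
  unfold tv
  rw [Matrix.mulVec_add, Matrix.mulVec_mulVec, Matrix.mulVec_mulVec]

/-- the test subspace -/
noncomputable def tsub (U : Matrix (Fin d) (Fin r) ℝ) (F : Matrix (Fin d) (Fin n) ℝ) (t : ℝ)
    (x : Fin n × Fin r → ℝ) : Submodule ℝ (Fin d → ℝ) :=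
  LinearMap.range ((U + t • (F * mat x)).mulVecLin)

lemma tv_mem (U : Matrix (Fin d) (Fin r) ℝ) (F : Matrix (Fin d) (Fin n) ℝ) (t : ℝ)
    (x : Fin n × Fin r → ℝ) (v : Fin r → ℝ) : tv U F t x v ∈ tsub U F t x := by
  refine ⟨v, ?_⟩
  rw [Matrix.mulVecLin_apply, Matrix.add_mulVec, Matrix.smul_mulVec, ← Matrix.mulVec_mulVec]
  unfold tv
  rw [Matrix.mulVec_smul]

lemma finrank_tsub (U : Matrix (Fin d) (Fin r) ℝ) (hU : Uᵀ * U = 1)
    (F : Matrix (Fin d) (Fin n) ℝ) (hUF : Uᵀ * F = 0) (t : ℝ) (x : Fin n × Fin r → ℝ) :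
    Module.finrank ℝ (tsub U F t x) = r := by
  have hinj : Function.Injective ((U + t • (F * mat x)).mulVecLin) := by
    intro v v' h
    have h1 : Uᵀ *ᵥ ((U + t • (F * mat x)) *ᵥ v) = Uᵀ *ᵥ ((U + t • (F * mat x)) *ᵥ v') := by
      rw [Matrix.mulVecLin_apply, Matrix.mulVecLin_apply] at h
      rw [h]
    have h2 : Uᵀ * (U + t • (F * mat x)) = 1 := by
      rw [Matrix.mul_add, hU, Matrix.mul_smul, ← Matrix.mul_assoc, hUF, Matrix.zero_mul,
        smul_zero, add_zero]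
    rw [Matrix.mulVec_mulVec, Matrix.mulVec_mulVec, h2, Matrix.one_mulVec,
      Matrix.one_mulVec] at h1
    exact h1
  unfold tsub
  rw [LinearMap.finrank_range_of_inj hinj]
  simp

lemma measurableSet_good {S : W → Matrix (Fin d) (Fin k) ℝ}
    (hS : ∀ i j, Measurable fun w => S w i j) (U : Matrix (Fin d) (Fin r) ℝ) (hU : Uᵀ * U = 1)
    (F : Matrix (Fin d) (Fin n) ℝ) (hUF : Uᵀ * F = 0) (ε t : ℝ) :
    MeasurableSet {p : W × (Fin n × Fin r → ℝ) |
      p.2 ∈ GoodG ((S p.1)ᵀ * U) ((S p.1)ᵀ * F) F ε t} := by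
  obtain ⟨D, hDc, hDd⟩ := TopologicalSpace.exists_countable_dense (Fin r → ℝ)
  have hcont : ∀ (T : Matrix (Fin d) (Fin k) ℝ) (x : Fin n × Fin r → ℝ),
      Continuous fun v => kx T ε (tv U F t x v) := by
    intro T x
    unfold kx tv
    apply Continuous.sub
    · refine (continuous_sqn_mulVec Tᵀ).comp ?_
      apply Continuous.add (continuous_mulVec' U)
      refine (continuous_mulVec' F).comp ?_
      exact (continuous_mulVec' (mat x)).const_smul t
    · apply Continuous.const_mul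
      refine continuous_sqn.comp ?_
      apply Continuous.add (continuous_mulVec' U)
      refine (continuous_mulVec' F).comp ?_
      exact (continuous_mulVec' (mat x)).const_smul t
  have h1 : {p : W × (Fin n × Fin r → ℝ) |
      p.2 ∈ GoodG ((S p.1)ᵀ * U) ((S p.1)ᵀ * F) F ε t} =
      ⋂ v ∈ D, {p : W × (Fin n × Fin r → ℝ) | 0 ≤ kx (S p.1) ε (tv U F t p.2 v)} := by
    ext p
    simp only [Set.mem_iInter, Set.mem_ofPred_eq, GoodG]
    constructor
    · intro h v _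
      rw [← qf_eq_kx (S p.1) U hU F hUF]
      exact h v
    · intro h v
      rw [qf_eq_kx (S p.1) U hU F hUF]
      have hcl : IsClosed {v : Fin r → ℝ | 0 ≤ kx (S p.1) ε (tv U F t p.2 v)} :=
        isClosed_le continuous_const (hcont (S p.1) p.2)
      have hsub : D ⊆ {v : Fin r → ℝ | 0 ≤ kx (S p.1) ε (tv U F t p.2 v)} := fun y hy => h y hy
      exact hcl.closure_subset_iff.2 hsub (hDd v)
  rw [h1]
  refine MeasurableSet.biInter hDc fun v _ => ?_
  apply measurableSet_le measurable_const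
  have h2 : ∀ x : Fin n × Fin r → ℝ, tv U F t x v = U *ᵥ v + F *ᵥ (t • (mat x *ᵥ v)) :=
    fun x => rfl
  unfold kx sqn tv Matrix.mulVec dotProduct mat
  simp only [Matrix.transpose_apply, Pi.add_apply, Pi.smul_apply, smul_eq_mul, Matrix.of_apply]
  have h3 : ∀ i j, Measurable fun p : W × (Fin n × Fin r → ℝ) => S p.1 i j := fun i j =>
    (hS i j).comp measurable_fst
  have h4 : ∀ i : Fin d, Measurable fun p : W × (Fin n × Fin r → ℝ) =>
      (∑ l, U i l * v l + ∑ a, F i a * (t * ∑ l, p.2 (a, l) * v l)) := by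
    intro i
    have h5 : Continuous fun x : Fin n × Fin r → ℝ =>
        (∑ l, U i l * v l + ∑ a, F i a * (t * ∑ l, x (a, l) * v l)) := by fun_prop
    exact h5.measurable.comp measurable_snd
  apply Measurable.sub
  · refine Finset.measurable_sum _ fun i _ => Measurable.pow_const ?_ 2
    exact Finset.measurable_sum _ fun j _ => (h3 j i).mul (h4 j)
  · apply Measurable.const_mul
    exact Finset.measurable_sum _ fun i _ => Measurable.pow_const (h4 i) 2

end Run7.h993.OSI
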