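import Mathlib
import Pool.Agent.Run7.h993.OSI.Upper

/-!
# The upper bound `1 + C (ε + δ)²`: conclusion
-/

namespace Run7.h993.OSI

open MeasureTheory ProbabilityTheory Matrix Finset Pool.Agent.H321R2.OSI

variable {n d k r : ℕ} {W : Type} [MeasurableSpace W] {P : Measure W} [IsProbabilityMeasure P]

lemma frob_transpose_sq (M : Matrix (Fin n) (Fin d) ℝ) : frob Mᵀ ^ 2 = frob M ^ 2 := by
  rw [frob_sq_rows, frob_sq_cols]

/-- event (T1) -/
lemma event_trace {S : W → Matrix (Fin d) (Fin k) ℝ} {ε δ : ℝ} (hS : IsOSI P S r (1 - ε) δ)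
    (hε0 : 0 ≤ ε) (hε1 : ε ≤ 1) (hκ : 0 < ε + δ) (hr : 1 ≤ r) (U : Matrix (Fin d) (Fin r) ℝ)
    (hU : Uᵀ * U = 1) :
    P.real {w | 50 * (r * (ε + δ)) < ∑ l, max (kx (S w) ε (U *ᵥ Pi.single l 1)) 0} ≤ 1 / 50 := by
  have h1 : ∀ l : Fin r, Integrable (fun w => max (kx (S w) ε (U *ᵥ Pi.single l 1)) 0) P ∧
      ∫ w, max (kx (S w) ε (U *ᵥ Pi.single l 1)) 0 ∂P ≤ (ε + δ) := by
    intro l
    have h2 := pos_part_le hS hε1 hε0 _ (finrank_uspan U hU) (U *ᵥ Pi.single l 1)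
      (mem_uspan U _)
    rw [sqn_mulVec_orth U hU, sqn_single, mul_one] at h2
    exact h2
  have h3 : Integrable (fun w => ∑ l, max (kx (S w) ε (U *ᵥ Pi.single l 1)) 0) P :=
    integrable_finsetSum _ fun l _ => (h1 l).1
  have h4 : ∫ w, ∑ l, max (kx (S w) ε (U *ᵥ Pi.single l 1)) 0 ∂P ≤ r * (ε + δ) := by
    rw [integral_finsetSum _ fun l _ => (h1 l).1]
    calc ∑ l, ∫ w, max (kx (S w) ε (U *ᵥ Pi.single l 1)) 0 ∂P ≤ ∑ _l : Fin r, (ε + δ) :=
          sum_le_sum fun l _ => (h1 l).2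
      _ = _ := by rw [sum_const, card_univ, Fintype.card_fin, nsmul_eq_mul]
  have hrR : (1 : ℝ) ≤ r := by exact_mod_cast hr
  have h5 := markov_real h3 (fun w => sum_nonneg fun l _ => le_max_right _ _) h4
    (by positivity : 0 < 50 * (r * (ε + δ)))
  refine h5.trans ?_
  rw [div_le_iff₀ (by positivity)]
  linarith

/-- event (T2) -/
lemma event_tail {S : W → Matrix (Fin d) (Fin k) ℝ} {ε δ : ℝ} (hS : IsOSI P S r (1 - ε) δ)
    (hε0 : 0 ≤ ε) (hε1 : ε ≤ 1) (hκ : 0 < ε + δ) (hr : 1 ≤ r) (U : Matrix (Fin d) (Fin r) ℝ)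
    (hU : Uᵀ * U = 1) (F : Matrix (Fin d) (Fin n) ℝ) (hUF : Uᵀ * F = 0) (e2 : ℝ) (he2 : 0 < e2)
    (he : e2 = frob F ^ 2) :
    MeasurableSet {w | ENNReal.ofReal (50 * ((ε + δ) * e2)) <
      ∫⁻ g, ENNReal.ofReal (kx (S w) ε (F *ᵥ g)) ∂(gau (Fin n))} ∧
    P.real {w | ENNReal.ofReal (50 * ((ε + δ) * e2)) <
      ∫⁻ g, ENNReal.ofReal (kx (S w) ε (F *ᵥ g)) ∂(gau (Fin n))} ≤ 1 / 50 := by
  have hjm : Measurable fun p : W × (Fin n → ℝ) => ENNReal.ofReal (kx (S p.1) ε (F *ᵥ p.2)) :=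
    (measurable_joint hS.measurable F ε).ennreal_ofReal
  have hm : Measurable fun w => ∫⁻ g, ENNReal.ofReal (kx (S w) ε (F *ᵥ g)) ∂(gau (Fin n)) :=
    hjm.lintegral_prod_right'
  refine ⟨measurableSet_lt measurable_const hm, ?_⟩
  have h1 : ∫⁻ w, ∫⁻ g, ENNReal.ofReal (kx (S w) ε (F *ᵥ g)) ∂(gau (Fin n)) ∂P ≤
      ENNReal.ofReal ((ε + δ) * e2) := by
    rw [lintegral_lintegral_swap hjm.aemeasurable]
    calc ∫⁻ g, ∫⁻ w, ENNReal.ofReal (kx (S w) ε (F *ᵥ g)) ∂P ∂(gau (Fin n))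
        ≤ ∫⁻ g, ENNReal.ofReal ((ε + δ) * sqn (F *ᵥ g)) ∂(gau (Fin n)) := by
          refine lintegral_mono fun g => pos_part_orth hS hε1 hε0 hr U hU (F *ᵥ g) ?_
          rw [Matrix.mulVec_mulVec, hUF, Matrix.zero_mulVec]
      _ = ENNReal.ofReal (∫ g, (ε + δ) * sqn (F *ᵥ g) ∂(gau (Fin n))) := by
          rw [ofReal_integral_eq_lintegral_ofReal ((integrable_sqn_mulVec F).const_mul _)]
          exact Filter.Eventually.of_forall fun g => mul_nonneg hκ.le (sqn_nonneg _)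
      _ = ENNReal.ofReal ((ε + δ) * e2) := by
          rw [integral_const_mul, integral_sqn_mulVec, he, frob_sq]
  have h2 := markov_lintegral hm (by positivity) h1 (by positivity : 0 < 50 * ((ε + δ) * e2))
  refine h2.trans ?_
  rw [div_le_iff₀ (by positivity)]
  linarith

lemma tail_of_event (S : Matrix (Fin d) (Fin k) ℝ) (ε κ e2 : ℝ) (F : Matrix (Fin d) (Fin n) ℝ)
    (hκ : 0 < κ) (he2 : 0 < e2)
    (h : ¬ ENNReal.ofReal (50 * (κ * e2)) <
      ∫⁻ g, ENNReal.ofReal (kx S ε (F *ᵥ g)) ∂(gau (Fin n))) :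
    (gau (Fin n)).real {g | 50000 * κ * e2 < exc (Sᵀ * F) F ε g} ≤ 1 / 1000 := by
  have hm : Measurable fun g : Fin n → ℝ => ENNReal.ofReal (kx S ε (F *ᵥ g)) := by
    have h1 : Continuous fun g : Fin n → ℝ => kx S ε (F *ᵥ g) := by
      unfold kx
      exact ((continuous_sqn_mulVec Sᵀ).comp (continuous_mulVec' F)).sub
        (continuous_const.mul (continuous_sqn.comp (continuous_mulVec' F)))
    exact h1.measurable.ennreal_ofReal
  have h2 := markov_lintegral hm (by positivity) (not_lt.1 h)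
    (by positivity : 0 < 50000 * κ * e2)
  have h3 : {g | 50000 * κ * e2 < exc (Sᵀ * F) F ε g} ⊆
      {g | ENNReal.ofReal (50000 * κ * e2) < ENNReal.ofReal (kx S ε (F *ᵥ g))} := by
    intro g hg
    rw [Set.mem_ofPred_eq, exc_eq_kx] at hg
    rw [Set.mem_ofPred_eq]
    exact (ENNReal.ofReal_lt_ofReal_iff (lt_trans (by positivity) hg)).2 hg
  refine (measureReal_mono h3).trans (h2.trans ?_)
  rw [div_le_iff₀ (by positivity)]
  linarith

/-- event (T3) -/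
lemma event_good {S : W → Matrix (Fin d) (Fin k) ℝ} {ε δ : ℝ} (hS : IsOSI P S r (1 - ε) δ)
    (hδ0 : 0 ≤ δ) (hδ : δ ≤ 1 / 50000)
    (U : Matrix (Fin d) (Fin r) ℝ) (hU : Uᵀ * U = 1) (F : Matrix (Fin d) (Fin n) ℝ)
    (hUF : Uᵀ * F = 0) (t : ℝ) :
    MeasurableSet {w | ENNReal.ofReal (1 / 100) <
      (gau (Fin n × Fin r)) (GoodG ((S w)ᵀ * U) ((S w)ᵀ * F) F ε t)ᶜ} ∧
    P.real {w | ENNReal.ofReal (1 / 100) <
      (gau (Fin n × Fin r)) (GoodG ((S w)ᵀ * U) ((S w)ᵀ * F) F ε t)ᶜ} ≤ 1 / 500 := by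
  set B := {p : W × (Fin n × Fin r → ℝ) |
      p.2 ∈ GoodG ((S p.1)ᵀ * U) ((S p.1)ᵀ * F) F ε t}ᶜ with hB
  have hBm : MeasurableSet B := (measurableSet_good hS.measurable U hU F hUF ε t).compl
  have hsec : ∀ w, Prod.mk w ⁻¹' B = (GoodG ((S w)ᵀ * U) ((S w)ᵀ * F) F ε t)ᶜ := by
    intro w
    ext x
    simp [hB]
  have hm : Measurable fun w => (gau (Fin n × Fin r))
      (GoodG ((S w)ᵀ * U) ((S w)ᵀ * F) F ε t)ᶜ := by
    have := measurable_measure_prodMk_left (ν := gau (Fin n × Fin r)) hBm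
    simpa only [hsec] using this
  refine ⟨measurableSet_lt measurable_const hm, ?_⟩
  have h1 : ∫⁻ w, (gau (Fin n × Fin r)) (GoodG ((S w)ᵀ * U) ((S w)ᵀ * F) F ε t)ᶜ ∂P ≤
      ENNReal.ofReal δ := by
    have h2 : ∫⁻ w, (gau (Fin n × Fin r)) (GoodG ((S w)ᵀ * U) ((S w)ᵀ * F) F ε t)ᶜ ∂P =
        (P.prod (gau (Fin n × Fin r))) B := by
      rw [Measure.prod_apply hBm]
      simp only [hsec]
    rw [h2, Measure.prod_apply_symm hBm]
    calc ∫⁻ x, P ((fun w => (w, x)) ⁻¹' B) ∂(gau (Fin n × Fin r))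
        ≤ ∫⁻ _x, ENNReal.ofReal δ ∂(gau (Fin n × Fin r)) := by
          refine lintegral_mono fun x => ?_
          have h3 := compl_inj_le hS (tsub U F t x) (finrank_tsub U hU F hUF t x)
          have h4 : (fun w => (w, x)) ⁻¹' B ⊆ {w | InjOn (S w) (1 - ε) (tsub U F t x)}ᶜ := by
            intro w hw hinj
            apply hw
            intro v
            rw [qf_eq_kx (S w) U hU F hUF]
            have h5 : (1 - ε) * sqn (tv U F t x v) ≤ sqn ((S w)ᵀ *ᵥ (tv U F t x v)) :=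
              hinj _ (tv_mem U F t x v)
            unfold kx
            linarith
          calc P ((fun w => (w, x)) ⁻¹' B) ≤ P {w | InjOn (S w) (1 - ε) (tsub U F t x)}ᶜ :=
                measure_mono h4
            _ ≤ ENNReal.ofReal δ := by
                rw [Measure.real] at h3
                exact (ENNReal.le_ofReal_iff_toReal_le (measure_ne_top _ _) hδ0).2 h3
      _ = ENNReal.ofReal δ := by simp
  have h2 := markov_lintegral hm hδ0 h1 (by norm_num : (0 : ℝ) < 1 / 100)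
  refine h2.trans ?_
  rw [div_le_iff₀ (by norm_num)]
  linarith

theorem upper_fine {S : W → Matrix (Fin d) (Fin k) ℝ} {ε δ : ℝ} (hS : IsOSI P S r (1 - ε) δ)
    (hε0 : 0 ≤ ε) (hε : ε ≤ 1 / 2) (hκ0 : 0 < ε + δ) (hκ1 : ε + δ ≤ 1 / 50000) (hr : 1 ≤ r)
    (U : Matrix (Fin d) (Fin r) ℝ) (hU : Uᵀ * U = 1) (A : Matrix (Fin n) (Fin d) ℝ)
    (E : ℝ) (hE : 0 ≤ E) (hAE : frob (resMat A U) ^ 2 ≤ E ^ 2) :
    ∃ D : Set W, MeasurableSet D ∧ 1 / 2 ≤ P.real D ∧
      ∀ w ∈ D, frob (A - rsvd A (S w)) ≤ (1 + 1000000000000000000000 * (ε + δ) ^ 2) * E := by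
  set V := Submodule.span ℝ (Set.range fun i => Uᵀ i) with hV
  have hVr : Module.finrank ℝ V = r := finrank_uspan U hU
  have hGc := compl_inj_le hS V hVr
  have hδ0 : 0 ≤ δ := measureReal_nonneg.trans hGc
  have hδ : δ ≤ 1 / 50000 := by linarith
  obtain ⟨F, hF⟩ : ∃ F, F = (resMat A U)ᵀ := ⟨_, rfl⟩
  have hUF : Uᵀ * F = 0 := by
    rw [hF, ← Matrix.transpose_mul, resMat_mul A U hU, Matrix.transpose_zero]
  obtain ⟨e2, he2⟩ : ∃ e2, e2 = frob F ^ 2 := ⟨_, rfl⟩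
  have he2' : frob (resMat A U) ^ 2 = e2 := by rw [he2, hF, frob_transpose_sq]
  have he20 : 0 ≤ e2 := by rw [he2]; exact sq_nonneg _
  obtain ⟨κ, hκ⟩ : ∃ κ, κ = ε + δ := ⟨_, rfl⟩
  rw [← hκ] at hκ0 hκ1
  -- what happens on the injectivity event
  have hinj : ∀ w, InjOn (S w) (1 - ε) V → ∀ v, 0 ≤ hd ((S w)ᵀ * U) ε v := by
    intro w hw v
    rw [hd_eq_kx (S w) U hU]
    have := hw (U *ᵥ v) (mem_uspan U v)
    unfold kx
    linarith
  have hpinv : ∀ w, InjOn (S w) (1 - ε) V → pinv ((S w)ᵀ * U) * ((S w)ᵀ * U) = 1 := by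
    intro w hw
    apply pinv_mul_of_inj U (S w) (1 - ε) (by linarith)
    intro z
    have := hw (U *ᵥ z) (mem_uspan U z)
    rwa [sqn_mulVec_orth U hU] at this
  have hfinal : ∀ w (z2 : ℝ), 0 ≤ z2 → frob (A - rsvd A (S w)) ^ 2 ≤ e2 + z2 →
      z2 ≤ 1000000000000000000000 * κ ^ 2 * e2 →
      frob (A - rsvd A (S w)) ≤ (1 + 1000000000000000000000 * κ ^ 2) * E := by
    intro w z2 hz0 h1 h2
    have h3 : e2 ≤ E ^ 2 := by rw [← he2']; exact hAE
    have h4 : frob (A - rsvd A (S w)) ^ 2 ≤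
        ((1 + 1000000000000000000000 * κ ^ 2) * E) ^ 2 := by
      obtain ⟨c, hc⟩ : ∃ c, c = 1000000000000000000000 * κ ^ 2 := ⟨_, rfl⟩
      rw [← hc] at h2 ⊢
      have hc0 : 0 ≤ c := by rw [hc]; positivity
      have h5 : frob (A - rsvd A (S w)) ^ 2 ≤ (1 + c) * E ^ 2 := by
        have : c * e2 ≤ c * E ^ 2 := mul_le_mul_of_nonneg_left h3 hc0
        linarith
      have h6 : 0 ≤ E ^ 2 := sq_nonneg _
      nlinarith [mul_nonneg hc0 h6, mul_nonneg (mul_nonneg hc0 hc0) h6]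
    exact (abs_le_of_sq_le_sq' h4 (by positivity)).2
  have hGm : MeasurableSet {w | InjOn (S w) (1 - ε) V} := measurableSet_inj S hS.measurable _ V
  have hGp : 1 - δ ≤ P.real {w | InjOn (S w) (1 - ε) V} := hS.injectivity V hVr
  rw [← hκ]
  rcases he20.eq_or_lt with h0 | hpos
  · -- no residual
    refine ⟨{w | InjOn (S w) (1 - ε) V}, hGm, by linarith, ?_⟩
    intro w hw
    have hw : InjOn (S w) (1 - ε) V := hw
    obtain ⟨Y, Z, hY, hZ, -, hZle⟩ := exists_clean ((S w)ᵀ * U) ((S w)ᵀ * F) (hpinv w hw)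
    rw [hF] at hZ
    have h1 := error_clean A U hU (S w) Y Z hY hZ
    have hF0 : F = 0 := by
      have h2 : ∑ i, sqn (F i) = 0 := by
        rw [← frob_sq_rows, ← he2, ← h0]
      have h3 := (sum_eq_zero_iff_of_nonneg (fun i _ => sqn_nonneg (F i))).1 h2
      funext i
      exact eq_zero_of_sqn (h3 i (mem_univ i))
    have hZ0 : frob Z ^ 2 ≤ 0 := by
      refine hZle.trans ?_
      rw [hF0, Matrix.mul_zero, Matrix.mul_zero]
      rw [frob_sq]
      simp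
    have hZ0' : 0 ≤ frob Z ^ 2 := sq_nonneg _
    rw [he2'] at h1
    refine hfinal w (frob Z ^ 2) hZ0' h1 ?_
    rw [← h0]
    linarith
  · obtain ⟨t, ht⟩ : ∃ t, t = 1 / (8 * Real.sqrt (frob F ^ 2)) := ⟨_, rfl⟩
    set B1 := {w | 50 * (r * (ε + δ)) < ∑ l, max (kx (S w) ε (U *ᵥ Pi.single l 1)) 0} with hB1
    have hB1m : MeasurableSet B1 := by
      apply measurableSet_lt measurable_const
      exact Finset.measurable_sum _ fun l _ => (measurable_kx hS.measurable ε _).max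
        measurable_const
    have hB1p : P.real B1 ≤ 1 / 50 := event_trace hS hε0 (by linarith) (by linarith) hr U hU
    obtain ⟨hB2m, hB2p⟩ := event_tail hS hε0 (by linarith) (by linarith) hr U hU F hUF e2 hpos he2
    set B2 := {w | ENNReal.ofReal (50 * ((ε + δ) * e2)) <
      ∫⁻ g, ENNReal.ofReal (kx (S w) ε (F *ᵥ g)) ∂(gau (Fin n))} with hB2
    obtain ⟨hB3m, hB3p⟩ := event_good hS hδ0 hδ U hU F hUF t
    set B3 := {w | ENNReal.ofReal (1 / 100) <
      (gau (Fin n × Fin r)) (GoodG ((S w)ᵀ * U) ((S w)ᵀ * F) F ε t)ᶜ} with hB3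
    set Bad := {w | InjOn (S w) (1 - ε) V}ᶜ ∪ (B1 ∪ (B2 ∪ B3)) with hBad
    have hBadm : MeasurableSet Bad := hGm.compl.union (hB1m.union (hB2m.union hB3m))
    have hBadp : P.real Bad ≤ 1 / 2 := by
      have v1 := measureReal_union_le (μ := P) {w | InjOn (S w) (1 - ε) V}ᶜ (B1 ∪ (B2 ∪ B3))
      have v2 := measureReal_union_le (μ := P) B1 (B2 ∪ B3)
      have v3 := measureReal_union_le (μ := P) B2 B3
      linarith
    refine ⟨Badᶜ, hBadm.compl, ?_, ?_⟩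
    · rw [probReal_compl_eq_one_sub hBadm]
      linarith
    · intro w hw
      simp only [hBad, Set.mem_compl_iff, Set.mem_union, not_or, not_not] at hw
      obtain ⟨w0, w1, w2, w3⟩ := hw
      have w0 : InjOn (S w) (1 - ε) V := w0
      have hI := hinj w w0
      obtain ⟨Y, Z, hY, hZ, hNZ, hZle⟩ := exists_clean ((S w)ᵀ * U) ((S w)ᵀ * F) (hpinv w w0)
      rw [hF] at hZ
      have h1 := error_clean A U hU (S w) Y Z hY hZ
      rw [he2'] at h1
      refine hfinal w (frob Z ^ 2) (sq_nonneg _) h1 ?_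
      have hT1 : ∑ l, hd ((S w)ᵀ * U) ε (Pi.single l 1) ≤ 50 * (r * κ) := by
        have h2 : ¬ 50 * (r * (ε + δ)) < ∑ l, max (kx (S w) ε (U *ᵥ Pi.single l 1)) 0 := w1
        rw [← hκ] at h2
        refine le_trans (sum_le_sum fun l _ => ?_) (not_lt.1 h2)
        rw [hd_eq_kx (S w) U hU]
        exact le_max_left _ _
      have hT2 : (gau (Fin n)).real {g | 50000 * κ * frob F ^ 2 <
          exc ((S w)ᵀ * F) F ε g} ≤ 1 / 1000 := by
        rw [← he2]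
        apply tail_of_event (S w) ε κ e2 F hκ0 hpos
        rw [hκ]
        exact w2
      have hT3 : (gau (Fin n × Fin r)).real (GoodG ((S w)ᵀ * U) ((S w)ᵀ * F) F ε
          (1 / (8 * Real.sqrt (frob F ^ 2))))ᶜ ≤ 1 / 100 := by
        rw [← ht]
        have h2 : ¬ ENNReal.ofReal (1 / 100) <
          (gau (Fin n × Fin r)) (GoodG ((S w)ᵀ * U) ((S w)ᵀ * F) F ε t)ᶜ := w3
        rw [Measure.real]
        exact ENNReal.toReal_le_of_le_ofReal (by norm_num) (not_lt.1 h2)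
      have he2F : 0 < frob F ^ 2 := by rw [← he2]; exact hpos
      rcases le_total 51200 r with hr' | hr'
      · have h2 := core_large ((S w)ᵀ * U) ((S w)ᵀ * F) F ε κ Z hε0 hε hκ0 hκ1 hr' he2F hI
          hT1 hT2 hT3 hNZ
        rw [← he2] at h2
        refine h2.trans ?_
        have : 0 ≤ κ ^ 2 * e2 := by positivity
        nlinarith
      · have h2 := core_small ((S w)ᵀ * U) ((S w)ᵀ * F) F ε κ Z hε hκ0 hr' he2F hI
          hT1 hT2 hT3 hZle
        rw [← he2] at h2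
        exact h2

/-- **Upper bound.** For every `0 ≤ ε ≤ 1/2` and `δ ≤ 1/4` with `ε + δ > 0`, the randomized SVD
with an oblivious subspace injection of dimension `r`, injectivity `1 - ε` and failure
probability `δ` satisfies `‖A - Ã‖_F ≤ (1 + C (ε + δ)²) ‖A - A_r‖_F` with probability at least
`1/2`, where `C` is an absolute constant. -/
theorem upper_main {S : W → Matrix (Fin d) (Fin k) ℝ} {ε δ : ℝ} (hS : IsOSI P S r (1 - ε) δ)
    (hε0 : 0 ≤ ε) (hε : ε ≤ 1 / 2) (hδ : δ ≤ 1 / 4) (hκ0 : 0 < ε + δ) (hr : 1 ≤ r) (hrd : r ≤ d)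
    (A : Matrix (Fin n) (Fin d) ℝ) :
    ∃ D : Set W, MeasurableSet D ∧ 1 / 2 ≤ P.real D ∧
      ∀ w ∈ D, frob (A - rsvd A (S w)) ≤
        (1 + 1000000000000000000000 * (ε + δ) ^ 2) * bestErr A r := by
  obtain ⟨U, hU, hAU⟩ := exists_minimizer A hrd
  have hb0 : 0 ≤ bestErr A r := by
    unfold bestErr
    apply Real.sInf_nonneg
    rintro e ⟨B, _, rfl⟩
    exact Real.sqrt_nonneg _
  rcases le_or_gt (ε + δ) (1 / 50000) with h | h
  · apply upper_fine hS hε0 hε hκ0 h hr U hU A (bestErr A r) hb0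
    rw [frob_sq_rows]
    simp only [resMat_row]
    exact hAU
  · obtain ⟨D, hD1, hD2, hD3⟩ := assemble hS (by linarith) hδ U hU ((1 / 2 : ℝ))⁻¹ (by norm_num)
      (fun e _ => row_bound_coarse hS (by norm_num : (0 : ℝ) < 1 / 2) (by linarith) U hU e)
      A (bestErr A r) hb0 hAU
    refine ⟨D, hD1, hD2, fun w hw => (hD3 w hw).trans ?_⟩
    apply mul_le_mul_of_nonneg_right _ hb0
    nlinarith

end Run7.h993.OSI
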